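import Mathlib.RingTheory.Spectrum.Prime.FreeLocus
import Mathlib.Data.Complex.Basic
import Mathlib.AlgebraicGeometry.ProjectiveSpectrum.Basic
import Mathlib.Combinatorics.Quiver.ReflQuiver
import Mathlib.RingTheory.MvPolynomial.IrreducibleQuadratic

/-!
Definitions used in the statement.
-/

set_option autoImplicit false

namespace Pool.Agent.MP_4403b8_ag

open AlgebraicGeometry CategoryTheory
open scoped Polynomial

attribute [local instance] MvPolynomial.gradedAlgebra

/-- `I` is generated by monomials. -/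
def IsMonomialIdeal (I : Ideal (MvPolynomial (Fin 2) ℂ)) : Prop :=
  ∃ S : Set (Fin 2 →₀ ℕ), I = Ideal.span ((fun s => MvPolynomial.monomial s (1 : ℂ)) '' S)

/-- The pull-back of the family `F` along `t ↦ a`. -/
noncomputable def fib (F : Ideal (MvPolynomial (Fin 2) ℂ[X])) {A : Type} [CommRing A]
    [Algebra ℂ A] (a : A) : Ideal (MvPolynomial (Fin 2) A) :=
  F.map (MvPolynomial.map (Polynomial.aeval a).toRingHom)

/-- `I` is an `A`-point of the Hilbert functor: `A[x,y] / I` is finite locally free of rank `n`. -/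
def IsHilbPt (n : ℕ) {A : Type} [CommRing A] (I : Ideal (MvPolynomial (Fin 2) A)) : Prop :=
  Module.Finite A (MvPolynomial (Fin 2) A ⧸ I) ∧ Module.Projective A (MvPolynomial (Fin 2) A ⧸ I) ∧
    ∀ p : PrimeSpectrum A, Module.rankAtStalk (MvPolynomial (Fin 2) A ⧸ I) p = n

/-- The `ℂ`-scheme `s : H ⟶ Spec ℂ` represents the Hilbert functor through `u`. -/
def IsHilbertScheme (n : ℕ) (H : Scheme.{0}) (s : H ⟶ Spec (.of ℂ))
    (u : ∀ A : CommRingCat.{0}, (Spec A ⟶ H) → Ideal (MvPolynomial (Fin 2) A)) : Prop :=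
  (∀ A f, IsHilbPt n (u A f)) ∧
    (∀ (A B : CommRingCat.{0}) (g : A ⟶ B) (f : Spec A ⟶ H),
      u B (Spec.map g ≫ f) = (u A f).map (MvPolynomial.map g.hom)) ∧
    ∀ (A : CommRingCat.{0}) (σ : Spec A ⟶ Spec (.of ℂ)) (I : Ideal (MvPolynomial (Fin 2) A)),
      IsHilbPt n I → ∃! f : Spec A ⟶ H, f ≫ s = σ ∧ u A f = I

/-- The projective line `Proj ℂ[x₀, x₁]`. -/
noncomputable def P1 : Scheme.{0} := Proj (MvPolynomial.homogeneousSubmodule (Fin 2) ℂ)

/-- The structure morphism of the projective line. -/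
noncomputable def P1toSpec : P1 ⟶ Spec (.of ℂ) :=
  Proj.toSpecZero (MvPolynomial.homogeneousSubmodule (Fin 2) ℂ) ≫
    Spec.map (CommRingCat.ofHom (algebraMap ℂ (MvPolynomial.homogeneousSubmodule (Fin 2) ℂ 0)))

end Pool.Agent.MP_4403b8_ag
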