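import Mathlib.RingTheory.Ideal.Quotient.Defs
import Mathlib.RingTheory.Ideal.Operations
import Mathlib.Tactic.SuppressCompilation
import Mathlib.Topology.Algebra.Ring.Basic
import Mathlib.Tactic.LinearCombination
import Mathlib.RingTheory.Ideal.BigOperators
import Mathlib.Topology.Sheaves.Presheaf
import Mathlib.Tactic.Monotonicity.Lemmas
import Mathlib.Algebra.Order.Ring.Star
import Mathlib.RingTheory.PiTensorProduct
import Mathlib.Tactic.Polynomial.Basic
import Mathlib.Data.Int.ConditionallyCompleteOrder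
import Mathlib.Data.Int.Star
import Mathlib.RingTheory.SimpleRing.Principal
import Mathlib.RingTheory.Henselian
import Mathlib.RingTheory.RegularLocalRing.Defs
import Mathlib.Algebra.AffineMonoid.UniqueSums
import Mathlib.RingTheory.Flat.TorsionFree
import Mathlib.RingTheory.MvPolynomial.Ideal
import Mathlib.RingTheory.MvPolynomial.IrreducibleQuadratic
import Mathlib.Order.Interval.Set.Nat
import Mathlib.Combinatorics.SimpleGraph.Basic

-- ======== part 0: formerly Pool.Agent.MP_4403b8_ag.Chain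
section MrgPart0

/-!
Chain ideals and the conic merging step.

In a topological ring `R` with a nil ideal `m` (think of a truncated polynomial ring over a valued
field), the ideal `chain m [(Γ_r, μ_r), ..., (Γ_1, μ_1)] = ∑ m ^ μ_k * Γ_(k+1) ... Γ_r` is a limit
of curvilinear ideals `(Γ) + m ^ (μ_1 + ... + μ_r)`.
-/

set_option autoImplicit false
set_option linter.unusedSectionVars false

namespace Pool.Agent.MP_4403b8_ag

open Filter Topology Finset

section Alg

variable {R : Type*} [CommRing R]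

/-- chain ideal of a list of (curve, exponent), outermost curve first -/
def chain (m : Ideal R) : List (R × ℕ) → Ideal R
  | [] => ⊤
  | p :: L => Ideal.span {p.1} * chain m L + m ^ p.2

/-- exponent of the outermost curve -/
def top : List (R × ℕ) → ℕ
  | [] => 0
  | p :: _ => p.2

/-- strictly decreasing positive exponents -/
def Dec : List (R × ℕ) → Prop
  | [] => True
  | p :: L => top L < p.2 ∧ Dec L

/-- total length -/
def tot : List (R × ℕ) → ℕ
  | [] => 0
  | p :: L => p.2 + tot L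

/-- product of the curves -/
def prodL : List (R × ℕ) → R
  | [] => 1
  | p :: L => p.1 * prodL L

theorem pow_top_le_chain (m : Ideal R) (L : List (R × ℕ)) : m ^ top L ≤ chain m L := by
  cases L with
  | nil => simp [top, chain]
  | cons p L => exact le_add_self

theorem prodL_mem_chain (m : Ideal R) (L : List (R × ℕ)) : prodL L ∈ chain m L := by
  induction L with
  | nil => simp [chain]
  | cons p L ih =>
    exact Ideal.mem_sup_left (Ideal.mul_mem_mul (Ideal.subset_span rfl) ih)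

theorem prodL_mem_pow (m : Ideal R) (L : List (R × ℕ)) (h : ∀ p ∈ L, p.1 ∈ m) :
    prodL L ∈ m ^ L.length := by
  induction L with
  | nil => simp
  | cons p L ih =>
    rw [List.length_cons, pow_succ']
    exact Ideal.mul_mem_mul (h p (by simp)) (ih fun q hq => h q (by simp [hq]))

theorem tot_append (L : List (R × ℕ)) (p : R × ℕ) : tot (L ++ [p]) = tot L + p.2 := by
  induction L with
  | nil => simp [tot]
  | cons q L ih => simp [tot, ih, add_assoc]

theorem top_append_ge (L : List (R × ℕ)) (p : R × ℕ) (h : Dec (L ++ [p])) :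
    p.2 + L.length ≤ top (L ++ [p]) := by
  induction L with
  | nil => simp [top]
  | cons q L ih =>
    have h1 : top (L ++ [p]) < q.2 := h.1
    have h2 := ih h.2
    change p.2 + (L.length + 1) ≤ q.2
    omega

theorem top_le_top_append (L : List (R × ℕ)) (p : R × ℕ) : top L ≤ top (L ++ [p]) := by
  cases L with
  | nil => simp [top]
  | cons q L => simp [top]

theorem Dec.of_append {L : List (R × ℕ)} {p : R × ℕ} (h : Dec (L ++ [p])) : Dec L := by
  induction L with
  | nil => trivial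
  | cons q L ih => exact ⟨lt_of_le_of_lt (top_le_top_append L p) h.1, ih h.2⟩

theorem Dec.last_pos {L : List (R × ℕ)} {p : R × ℕ} (h : Dec (L ++ [p])) : 1 ≤ p.2 := by
  induction L with
  | nil => exact h.1
  | cons q L ih => exact ih h.2

theorem pow_le_of_span_pair {m : Ideal R} {s g : R} (h : Ideal.span {s, g} = m) (a : ℕ) :
    m ^ (a + 1) ≤ Ideal.span {s ^ (a + 1)} + Ideal.span {g} * m ^ a := by
  have hs : s ∈ m := h ▸ Ideal.subset_span (by simp)
  have hg : g ∈ m := h ▸ Ideal.subset_span (by simp)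
  have h1 : m = Ideal.span {s} + Ideal.span {g} := by
    rw [← h, Ideal.span_insert]
    rfl
  induction a with
  | zero => simpa using h1.le
  | succ a ih =>
    calc m ^ (a + 1 + 1) = m ^ (a + 1) * m := pow_succ _ _
      _ ≤ (Ideal.span {s ^ (a + 1)} + Ideal.span {g} * m ^ a) * m := Ideal.mul_mono_left ih
      _ = Ideal.span {s ^ (a + 1)} * (Ideal.span {s} + Ideal.span {g}) +
            Ideal.span {g} * m ^ (a + 1) := by
          rw [← h1, add_mul, mul_assoc, ← pow_succ]
      _ ≤ _ := by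
          rw [mul_add, Ideal.span_singleton_mul_span_singleton, ← pow_succ, add_assoc]
          refine add_le_add le_rfl (sup_le ?_ le_rfl)
          rw [mul_comm]
          refine Ideal.mul_mono_right ?_
          rw [Ideal.span_le, Set.singleton_subset_iff]
          exact Ideal.pow_mem_pow hs _

theorem pow_sub_pow_mem {m : Ideal R} {x y : R} (hx : x ∈ m) (hy : y ∈ m) (l : ℕ) :
    x ^ (l + 1) - y ^ (l + 1) ∈ Ideal.span {x - y} * m ^ l := by
  induction l with
  | zero => simp
  | succ l ih =>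
    have : x ^ (l + 1 + 1) - y ^ (l + 1 + 1) =
        (x ^ (l + 1) - y ^ (l + 1)) * x + (x - y) * y ^ (l + 1) := by ring
    rw [this]
    refine Ideal.add_mem _ ?_ (Ideal.mul_mem_mul (Ideal.subset_span rfl) (Ideal.pow_mem_pow hy _))
    rw [pow_succ m l, ← mul_assoc]
    exact Ideal.mul_mem_mul ih hx

theorem outer_mem {m : Ideal R} {v w : R} (hw : w ∈ m) (L : List (R × ℕ))
    (hL : ∀ p ∈ L, Ideal.span {v, p.1} = m) (s : ℕ) (f : R) (hf : f ∈ m ^ (s + 1)) :
    f * w ^ L.length ∈ Ideal.span {f * prodL L} + Ideal.span {v} * m ^ (s + L.length) := by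
  induction L generalizing s f with
  | nil => exact Ideal.mem_sup_left (by simp [prodL])
  | cons p L ih =>
    have hp := hL p (by simp)
    have hpm : p.1 ∈ m := hp ▸ Ideal.subset_span (by simp)
    obtain ⟨θ, η, hθ⟩ := Ideal.mem_span_pair.1 (hp ▸ hw : w ∈ Ideal.span {v, p.1})
    have h1 := ih (fun q hq => hL q (by simp [hq])) (s + 1) (f * p.1)
      (by rw [pow_succ]; exact Ideal.mul_mem_mul hf hpm)
    have h2 : f * w ^ (p :: L).length =
        η * (f * p.1 * w ^ L.length) + v * (θ * (f * w ^ L.length)) := by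
      rw [List.length_cons, pow_succ]
      linear_combination (-(f * w ^ L.length)) * hθ
    rw [h2]
    have e1 : s + 1 + L.length = s + (p :: L).length := by simp; ring
    refine Ideal.add_mem _ (Ideal.mul_mem_left _ _ ?_) (Ideal.mem_sup_right ?_)
    · rw [e1] at h1
      simpa [prodL, mul_assoc] using h1
    · refine Ideal.mul_mem_mul (Ideal.subset_span rfl) (Ideal.mul_mem_left _ _ ?_)
      rw [← e1, pow_add]
      exact Ideal.mul_mem_mul hf (Ideal.pow_mem_pow hw _)

/-- the conic -/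
def conic (w v d : R) (A B : ℕ) : R := w * v + d ^ A * v + d ^ B * w

/-- lift of `w ^ b` -/
def G2 (w v d : R) (A B b μ : ℕ) : R :=
  ∑ j ∈ range (b + μ + 1), ((b + μ).choose j : R) *
    (if j ≤ b then (-d ^ A) ^ j * (w + d ^ A) ^ (b - j)
      else (-1) ^ j * d ^ (b * A - (j - b) * B) * (v + d ^ B) ^ (j - b))

/-- lift of `v ^ (μ + 1)` -/
def G1 (w v d : R) (A B c μ : ℕ) : R :=
  ∑ i ∈ range (c + 1), (c.choose i : R) *
    (if i ≤ μ + 1 then d ^ ((B - A) * i) * v ^ (μ + 1 - i) * w ^ i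
      else (-1) ^ (μ + 1 + i) * d ^ ((μ + 1) * B - i * A) * w ^ (μ + 1) *
        (w + d ^ A) ^ (i - (μ + 1)))

theorem G2_eq (w v d : R) (A B b μ : ℕ) (h : μ * B ≤ b * A) (h0 : conic w v d A B = 0) :
    (w + d ^ A) ^ μ * G2 w v d A B b μ = w ^ (b + μ) := by
  have hq : (w + d ^ A) * (v + d ^ B) = d ^ A * d ^ B := by
    unfold conic at h0
    linear_combination h0
  have hw : w ^ (b + μ) = (-d ^ A + (w + d ^ A)) ^ (b + μ) := by
    congr 1
    ring
  rw [hw, add_pow (-d ^ A), G2, mul_sum]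
  refine sum_congr rfl fun j hj => ?_
  have hj' : j ≤ b + μ := Nat.lt_succ_iff.1 (mem_range.1 hj)
  split_ifs with hjb
  · have e : b + μ - j = μ + (b - j) := by omega
    simp only [e, pow_add]
    ring
  · obtain ⟨i, rfl⟩ : ∃ i, j = b + i := ⟨j - b, by omega⟩
    obtain ⟨l, rfl⟩ : ∃ l, μ = i + l := ⟨μ - i, by omega⟩
    have e1 : b + (i + l) - (b + i) = l := by omega
    have e2 : b + i - b = i := by omega
    have hi : i * B ≤ b * A := le_trans (Nat.mul_le_mul_right _ (by omega)) h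
    obtain ⟨r, hr⟩ : ∃ r, b * A = i * B + r := ⟨b * A - i * B, by omega⟩
    have e3 : b * A - i * B = r := by omega
    simp only [e1, e2, e3]
    have h4 : (w + d ^ A) ^ i * (v + d ^ B) ^ i = (d ^ A) ^ i * (d ^ B) ^ i := by
      rw [← mul_pow, hq, mul_pow]
    have h5 : (d ^ A) ^ b = (d ^ B) ^ i * d ^ r := by
      rw [← pow_mul, ← pow_mul, ← pow_add, mul_comm A b, hr, mul_comm B i]
    rw [neg_pow (d ^ A), pow_add (d ^ A), h5, pow_add (w + d ^ A)]
    linear_combination ((((b + (i + l)).choose (b + i) : ℕ) : R) * (-1) ^ (b + i) * d ^ r *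
      (w + d ^ A) ^ l) * h4

theorem G2_spec (w v d : R) (A B b μ : ℕ) (h : μ * B ≤ b * A) :
    (w + d ^ A) ^ μ * G2 w v d A B b μ - w ^ (b + μ) ∈ Ideal.span {conic w v d A B} := by
  rw [← Ideal.Quotient.eq]
  generalize hI : Ideal.span {conic w v d A B} = I
  have h0 : Ideal.Quotient.mk I (conic w v d A B) = 0 :=
    Ideal.Quotient.eq_zero_iff_mem.2 (hI ▸ Ideal.subset_span rfl)
  have h1 := G2_eq (Ideal.Quotient.mk I w) (Ideal.Quotient.mk I v) (Ideal.Quotient.mk I d) A B b μ h
    (by simpa [conic] using h0)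
  simpa [G2, apply_ite (Ideal.Quotient.mk I)] using h1

theorem G1_spec {m : Ideal R} {w v : R} (hw : w ∈ m) (hv : v ∈ m) (d : R) (A B c μ : ℕ)
    (hAB : A ≤ B) (h : c * A ≤ (μ + 1) * B) :
    (d ^ A) ^ c * (w + d ^ A) ^ (μ + 1) * G1 w v d A B c μ -
      (-d ^ B) ^ (μ + 1) * w ^ (μ + 1) * (-w) ^ c ∈ Ideal.span {conic w v d A B} * m ^ μ := by
  have hw' : -w = -(w + d ^ A) + d ^ A := by ring
  rw [hw', add_pow (-(w + d ^ A)), G1, mul_sum, mul_sum, ← sum_sub_distrib]
  refine Ideal.sum_mem _ fun i hi => ?_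
  have hi' : i ≤ c := Nat.lt_succ_iff.1 (mem_range.1 hi)
  obtain ⟨e, rfl⟩ : ∃ e, c = i + e := ⟨c - i, by omega⟩
  obtain ⟨D, rfl⟩ : ∃ D, B = A + D := ⟨B - A, by omega⟩
  have e0 : i + e - i = e := by omega
  have e00 : A + D - A = D := by omega
  rw [e0, e00]
  split_ifs with hia
  · obtain ⟨l, hl⟩ : ∃ l, μ + 1 = i + l := ⟨μ + 1 - i, by omega⟩
    have e1 : μ + 1 - i = l := by omega
    rw [e1]
    have key : ((w + d ^ A) * v) ^ l * w ^ i - (-d ^ (A + D) * w) ^ l * w ^ i ∈
        Ideal.span {conic w v d A (A + D)} * m ^ μ := by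
      rcases l with _ | l
      · simp
      · have h1 := pow_sub_pow_mem (m := m) (x := (w + d ^ A) * v) (y := -d ^ (A + D) * w)
          (Ideal.mul_mem_left _ _ hv) (Ideal.mul_mem_left _ _ hw) l
        have h2 : (w + d ^ A) * v - -d ^ (A + D) * w = conic w v d A (A + D) := by
          unfold conic; ring
        rw [h2] at h1
        have h3 : μ = l + i := by omega
        rw [← sub_mul, h3, pow_add, ← mul_assoc]
        exact Ideal.mul_mem_mul h1 (Ideal.pow_mem_pow hw _)
    have h4 := Ideal.mul_mem_left _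
      ((((i + e).choose i : ℕ) : R) * (d ^ A) ^ (i + e) * d ^ (D * i) * (w + d ^ A) ^ i) key
    convert h4 using 1
    have hs : ((-1 : R) ^ i) * (-1) ^ i = 1 := by rw [← mul_pow]; simp
    rw [hl, neg_pow (w + d ^ A), neg_pow (d ^ (A + D)), mul_pow (-d ^ (A + D)),
      neg_pow (d ^ (A + D))]
    simp only [pow_add, mul_pow, pow_mul]
    linear_combination (-(((i + e).choose i : R) * (-1) ^ l * (d ^ A) ^ i * (d ^ D) ^ i *
      (d ^ A) ^ l * (d ^ D) ^ l * w ^ i * w ^ l * (w + d ^ A) ^ i * (d ^ A) ^ e)) * hs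
  · obtain ⟨l, rfl⟩ : ∃ l, i = μ + 1 + l := ⟨i - (μ + 1), by omega⟩
    have e1 : μ + 1 + l - (μ + 1) = l := by omega
    have hi : (μ + 1 + l) * A ≤ (μ + 1) * (A + D) :=
      le_trans (Nat.mul_le_mul_right _ (by omega)) h
    obtain ⟨r, hr⟩ : ∃ r, (μ + 1) * (A + D) = (μ + 1 + l) * A + r :=
      ⟨(μ + 1) * (A + D) - (μ + 1 + l) * A, by omega⟩
    have e3 : (μ + 1) * (A + D) - (μ + 1 + l) * A = r := by omega
    rw [e1, e3]
    have h5 : (d ^ (A + D)) ^ (μ + 1) = (d ^ A) ^ (μ + 1 + l) * d ^ r := by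
      rw [← pow_mul, ← pow_mul, ← pow_add, mul_comm (A + D), hr, mul_comm A]
    convert Ideal.zero_mem _ using 1
    rw [neg_pow (d ^ (A + D)), h5, neg_pow (w + d ^ A)]
    simp only [pow_add]
    ring

theorem G2_zero (w v : R) (A B b μ : ℕ) (hA : 1 ≤ A) (h : μ * B < b * A) :
    G2 w v 0 A B b μ = w ^ b := by
  unfold G2
  rw [sum_eq_single 0]
  · simp [zero_pow (by omega : A ≠ 0)]
  · intro j hj hj0
    have hj' : j ≤ b + μ := Nat.lt_succ_iff.1 (mem_range.1 hj)
    split_ifs with hjb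
    · simp [zero_pow (by omega : A ≠ 0), zero_pow hj0]
    · have : (j - b) * B ≤ μ * B := Nat.mul_le_mul_right _ (by omega)
      rw [zero_pow (by omega : b * A - (j - b) * B ≠ 0)]
      simp
  · simp

theorem G1_zero (w v : R) (A B c μ : ℕ) (hAB : A < B) (h : c * A < (μ + 1) * B) :
    G1 w v 0 A B c μ = v ^ (μ + 1) := by
  unfold G1
  rw [sum_eq_single 0]
  · simp
  · intro i hi hi0
    have hi' : i ≤ c := Nat.lt_succ_iff.1 (mem_range.1 hi)
    split_ifs with hia
    · rw [zero_pow (Nat.mul_ne_zero (by omega) hi0)]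
      simp
    · have : i * A ≤ c * A := Nat.mul_le_mul_right _ hi'
      rw [zero_pow (by omega : (μ + 1) * B - i * A ≠ 0)]
      simp
  · simp

end Alg

section Top

variable {R : Type*} [CommRing R] [TopologicalSpace R] [IsTopologicalRing R]

theorem G2_cont (w v : R) (A B b μ : ℕ) : Continuous fun d => G2 w v d A B b μ := by
  unfold G2
  refine continuous_finsetSum _ fun j _ => ?_
  split_ifs <;> fun_prop

theorem G1_cont (w v : R) (A B c μ : ℕ) : Continuous fun d => G1 w v d A B c μ := by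
  unfold G1
  refine continuous_finsetSum _ fun j _ => ?_
  split_ifs <;> fun_prop

/-- lower limit of a sequence of ideals -/
def lowLim (J : ℕ → Ideal R) : Ideal R where
  carrier := {g | ∃ f : ℕ → R, (∀ᶠ k in atTop, f k ∈ J k) ∧ Tendsto f atTop (𝓝 g)}
  add_mem' := by
    rintro a b ⟨f, hf, hf'⟩ ⟨g, hg, hg'⟩
    refine ⟨fun k => f k + g k, ?_, hf'.add hg'⟩
    filter_upwards [hf, hg] with k h1 h2 using Ideal.add_mem _ h1 h2
  zero_mem' := ⟨fun _ => 0, Eventually.of_forall fun _ => Ideal.zero_mem _, tendsto_const_nhds⟩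
  smul_mem' := by
    rintro c a ⟨f, hf, hf'⟩
    refine ⟨fun k => c * f k, ?_, hf'.const_mul c⟩
    filter_upwards [hf] with k h1 using Ideal.mul_mem_left _ _ h1

/-- `J` is contained in a limit of curvilinear ideals of length `n` -/
def Cl (m : Ideal R) (n : ℕ) (J : Ideal R) : Prop :=
  ∀ s : Finset R, (∀ g ∈ s, g ∈ J) → ∀ V ∈ 𝓝 (0 : R), ∃ Γ ∈ m, ∀ g ∈ s,
    ∃ g' ∈ Ideal.span {Γ} + m ^ n, g' - g ∈ V

theorem Cl.step {m : Ideal R} {n : ℕ} {J : Ideal R} {J' : ℕ → Ideal R} (h : J ≤ lowLim J')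
    (h' : ∀ᶠ k in atTop, Cl m n (J' k)) : Cl m n J := by
  classical
  intro s hs V hV
  obtain ⟨W, hW, hWV⟩ := exists_nhds_zero_half hV
  have hc : ∀ g : s, ∃ f : ℕ → R, (∀ᶠ k in atTop, f k ∈ J' k) ∧ Tendsto f atTop (𝓝 g.1) :=
    fun g => h (hs g.1 g.2)
  choose f hf hf' using hc
  have h1 : ∀ᶠ k in atTop, ∀ g : s, f g k ∈ J' k := eventually_all.2 hf
  have h2 : ∀ᶠ k in atTop, ∀ g : s, f g k - g.1 ∈ W := by
    refine eventually_all.2 fun g => ?_
    have : Tendsto (fun k => f g k - g.1) atTop (𝓝 (g.1 - g.1)) := (hf' g).sub_const _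
    rw [sub_self] at this
    exact this hW
  obtain ⟨k, hk1, hk2, hk3⟩ := (h1.and (h2.and h')).exists
  obtain ⟨Γ, hΓ, hΓ'⟩ := hk3 (univ.image fun g : s => f g k) (by
    intro g hg
    obtain ⟨g', _, rfl⟩ := mem_image.1 hg
    exact hk1 g') W hW
  refine ⟨Γ, hΓ, fun g hg => ?_⟩
  obtain ⟨g', hg', hg''⟩ := hΓ' (f ⟨g, hg⟩ k) (mem_image.2 ⟨⟨g, hg⟩, mem_univ _, rfl⟩)
  refine ⟨g', hg', ?_⟩
  have := hWV _ hg'' _ (hk2 ⟨g, hg⟩)
  simpa using this

omit [IsTopologicalRing R] in
theorem Cl.mono {m : Ideal R} {n : ℕ} {J J' : Ideal R} (h : J ≤ J') (h' : Cl m n J') :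
    Cl m n J := fun s hs => h' s fun g hg => h (hs g hg)

theorem mem_lowLim_of_cont {J : ℕ → Ideal R} {d : ℕ → R} (hd : Tendsto d atTop (𝓝 0))
    {F : R → R} (hF : Continuous F) (h : ∀ᶠ k in atTop, F (d k) ∈ J k) : F 0 ∈ lowLim J :=
  ⟨fun k => F (d k), h, (hF.tendsto 0).comp hd⟩

end Top

end Pool.Agent.MP_4403b8_ag

end MrgPart0

-- ======== part 1: formerly Pool.Agent.MP_4403b8_ag.Merge
section MrgPart1

/-!
The merging step: a chain ideal is a limit of curvilinear ideals.
-/

set_option autoImplicit false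
set_option linter.unusedSectionVars false

namespace Pool.Agent.MP_4403b8_ag

open Filter Topology Finset

variable {K R : Type*} [Field K] [CommRing R] [Algebra K R] [TopologicalSpace R]
  [IsTopologicalRing R]

/-- the standing assumptions on the topological ring -/
structure Setup (m : Ideal R) (δ : ℕ → K) : Prop where
  nil : ∀ x ∈ m, IsNilpotent x
  res : ∀ r : R, ∃ c : K, r - algebraMap K R c ∈ m
  ne : ∀ k, δ k ≠ 0
  tend : Tendsto (fun k => algebraMap K R (δ k)) atTop (𝓝 0)
  inj : ∀ j, 1 ≤ j → Function.Injective fun k => δ k ^ j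

theorem Setup.unit {m : Ideal R} {δ : ℕ → K} (S : Setup m δ) {c : K} (hc : c ≠ 0) {x : R}
    (hx : x ∈ m) : IsUnit (algebraMap K R c + x) :=
  (S.nil x hx).isUnit_add_left_of_commute ((IsUnit.mk0 c hc).map _) (Commute.all _ _)

theorem Setup.ev_ne {m : Ideal R} {δ : ℕ → K} (S : Setup m δ) {j : ℕ} (hj : 1 ≤ j) (c : K) :
    ∀ᶠ k in atTop, δ k ^ j ≠ c := by
  rw [← Nat.cofinite_eq_atTop]
  exact (S.inj j hj).tendsto_cofinite.eventually (eventually_cofinite_ne c)

theorem span_pair_of_unit {m : Ideal R} {s g y u η : R} (h : Ideal.span {s, g} = m)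
    (hu : IsUnit u) (hy : y = u * s + η * g) : Ideal.span {y, g} = m := by
  rw [← h]
  apply le_antisymm
  · rw [Ideal.span_le]
    rintro x (rfl | rfl)
    · exact Ideal.mem_span_pair.2 ⟨u, η, hy.symm⟩
    · exact Ideal.subset_span (by simp)
  · rw [Ideal.span_le]
    rintro x (rfl | rfl)
    · obtain ⟨u', hu'⟩ := hu.exists_left_inv
      refine Ideal.mem_span_pair.2 ⟨u', -(u' * η), ?_⟩
      rw [hy]
      linear_combination x * hu'
    · exact Ideal.subset_span (by simp)

theorem mem_of_unit_mul {I : Ideal R} {u x : R} (hu : IsUnit u) (h : u * x ∈ I) : x ∈ I :=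
  (Ideal.unit_mul_mem_iff_mem I hu).1 h

theorem merge_le {m : Ideal R} {δ : ℕ → K} (S : Setup m δ) (v w : R) (μ μ1 : ℕ)
    (mid : List (R × ℕ)) (hD : Dec ((v, μ) :: (mid ++ [(w, μ1)]))) (hv : v ∈ m)
    (hT : ∀ p ∈ mid ++ [(w, μ1)], Ideal.span {v, p.1} = m) :
    chain m ((v, μ) :: (mid ++ [(w, μ1)])) ≤
      lowLim fun k => chain m
        ((conic w v (algebraMap K R (δ k)) (2 * μ1 + 1) (2 * (μ - mid.length)), μ + μ1) :: mid) := by
  have hvw : Ideal.span {v, w} = m := hT (w, μ1) (by simp)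
  have hw : w ∈ m := hvw ▸ Ideal.subset_span (by simp)
  have hmid : ∀ p ∈ mid, Ideal.span {v, p.1} = m := fun p hp => hT p (by simp [hp])
  have hmidm : ∀ p ∈ mid, p.1 ∈ m := fun p hp => (hmid p hp) ▸ Ideal.subset_span (by simp)
  have htop : μ1 + mid.length ≤ top (mid ++ [(w, μ1)]) := top_append_ge mid (w, μ1) hD.2
  have htop' : top (mid ++ [(w, μ1)]) < μ := hD.1
  obtain ⟨c, hc⟩ : ∃ c, μ - mid.length = c + 1 := ⟨μ - mid.length - 1, by omega⟩
  have hcμ : μ1 ≤ c := by omega
  rw [hc]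
  set A := 2 * μ1 + 1 with hA
  set B := 2 * (c + 1) with hB
  set d : ℕ → R := fun k => algebraMap K R (δ k) with hd
  set J' : ℕ → Ideal R := fun k => chain m ((conic w v (d k) A B, μ + μ1) :: mid) with hJ'
  have hdA : ∀ k, IsUnit (d k ^ A) := fun k => ((IsUnit.mk0 _ (S.ne k)).map _).pow _
  have hu : ∀ k, IsUnit (w + d k ^ A) := by
    intro k
    have := S.unit (pow_ne_zero A (S.ne k)) hw
    rwa [map_pow, add_comm] at this
  have hG1 : ∀ k, G1 w v (d k) A B c μ1 ∈
      Ideal.span {conic w v (d k) A B} * m ^ μ1 + m ^ (μ1 + 1 + c) := by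
    intro k
    refine mem_of_unit_mul (((hdA k).pow c).mul ((hu k).pow (μ1 + 1))) ?_
    have h1 := G1_spec hw hv (d k) A B c μ1 (by omega) (by nlinarith)
    have h2 : (-d k ^ B) ^ (μ1 + 1) * w ^ (μ1 + 1) * (-w) ^ c ∈ m ^ (μ1 + 1 + c) := by
      rw [pow_add m, mul_assoc]
      exact Ideal.mul_mem_left _ _
        (Ideal.mul_mem_mul (Ideal.pow_mem_pow hw _) (Ideal.pow_mem_pow (m.neg_mem hw) _))
    have := Ideal.add_mem _ (Ideal.mem_sup_left (T := m ^ (μ1 + 1 + c)) h1)
      (Ideal.mem_sup_right h2)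
    rwa [sub_add_cancel] at this
  have hG2 : ∀ k, G2 w v (d k) A B (c + 1) μ1 ∈
      Ideal.span {conic w v (d k) A B} + m ^ (c + 1 + μ1) := by
    intro k
    refine mem_of_unit_mul ((hu k).pow μ1) ?_
    have h1 := G2_spec w v (d k) A B (c + 1) μ1 (by nlinarith)
    have := Ideal.add_mem _ (Ideal.mem_sup_left (T := m ^ (c + 1 + μ1)) h1)
      (Ideal.mem_sup_right (Ideal.pow_mem_pow hw (c + 1 + μ1)))
    rwa [sub_add_cancel] at this
  have hJ1 : ∀ k x y, x ∈ Ideal.span {conic w v (d k) A B} → y ∈ chain m mid → x * y ∈ J' k :=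
    fun k x y hx hy => Ideal.mem_sup_left (Ideal.mul_mem_mul hx hy)
  have hJ2 : ∀ k e x, μ + μ1 ≤ e → x ∈ m ^ e → x ∈ J' k :=
    fun k e x he hx => Ideal.mem_sup_right (Ideal.pow_le_pow_right he hx)
  -- the lifts of `P * v ^ (μ1 + 1 + e)`
  have hlift : ∀ (P : R) (j e : ℕ), P ∈ m ^ j → mid.length ≤ j + e →
      (∀ x ∈ m ^ (μ1 + e), P * x ∈ chain m mid) → P * v ^ (μ1 + 1 + e) ∈ lowLim J' := by
    intro P j e hP hj hPx
    have h1 := mem_lowLim_of_cont (J := J') S.tend
      (F := fun t => P * v ^ e * G1 w v t A B c μ1)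
      (continuous_const.mul (G1_cont w v A B c μ1)) (Eventually.of_forall fun k => ?_)
    · rw [G1_zero w v A B c μ1 (by omega) (by nlinarith)] at h1
      convert h1 using 1
      ring
    · obtain ⟨x, hx, y, hy, hxy⟩ := Submodule.mem_sup.1 (hG1 k)
      change P * v ^ e * G1 w v (d k) A B c μ1 ∈ J' k
      rw [← hxy, mul_add]
      refine Ideal.add_mem _ ?_ ?_
      · obtain ⟨z, hz, rfl⟩ := Ideal.mem_span_singleton_mul.1 hx
        have : P * v ^ e * (conic w v (d k) A B * z) =
            conic w v (d k) A B * (P * (z * v ^ e)) := by ring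
        rw [this]
        refine hJ1 k _ _ (Ideal.subset_span rfl) (hPx _ ?_)
        rw [pow_add]
        exact Ideal.mul_mem_mul hz (Ideal.pow_mem_pow hv _)
      · refine hJ2 k (j + e + (μ1 + 1 + c)) _ (by omega) ?_
        rw [pow_add, pow_add]
        exact Ideal.mul_mem_mul (Ideal.mul_mem_mul hP (Ideal.pow_mem_pow hv _)) hy
  have inner : ∀ (T : List (R × ℕ)) (P : R) (j : ℕ), (∀ x ∈ chain m T, P * x ∈ chain m mid) →
      P ∈ m ^ j → j + T.length = mid.length → Dec (T ++ [(w, μ1)]) →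
      (∀ p ∈ T, Ideal.span {v, p.1} = m) →
      ∀ x ∈ chain m (T ++ [(w, μ1)]), v * P * x ∈ lowLim J' := by
    intro T
    induction T with
    | nil =>
      intro P j hP hPj hj hDT _ x hx
      have hP1 : P ∈ chain m mid := by simpa using hP 1 (by simp [chain])
      have hwv : v * P * w ∈ lowLim J' := by
        have h1 := mem_lowLim_of_cont (J := J') S.tend (F := fun t => conic w v t A B * P)
          (by unfold conic; fun_prop)
          (Eventually.of_forall fun k => hJ1 k _ _ (Ideal.subset_span rfl) hP1)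
        convert h1 using 1
        simp only [conic]
        rw [zero_pow (by omega), zero_pow (by omega)]
        ring
      have hμ1 : 1 ≤ μ1 := Dec.last_pos (L := []) hDT
      obtain ⟨x1, hx1, x2, hx2, rfl⟩ := Submodule.mem_sup.1 hx
      rw [mul_add]
      refine Ideal.add_mem _ ?_ ?_
      · obtain ⟨z, _, rfl⟩ := Ideal.mem_span_singleton_mul.1 hx1
        rw [← mul_assoc]
        exact Ideal.mul_mem_right _ _ hwv
      · obtain ⟨a, ha⟩ : ∃ a, μ1 = a + 1 := ⟨μ1 - 1, by omega⟩
        have hx2' : x2 ∈ m ^ (a + 1) := ha ▸ hx2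
        obtain ⟨y1, hy1, y2, hy2, rfl⟩ := Submodule.mem_sup.1 (pow_le_of_span_pair hvw a hx2')
        rw [mul_add]
        refine Ideal.add_mem _ ?_ ?_
        · obtain ⟨z, rfl⟩ := Ideal.mem_span_singleton'.1 hy1
          have h1 := hlift P j 0 hPj (by simp at hj; omega)
            (fun x _ => Ideal.mul_mem_right _ _ hP1)
          have : v * P * (z * v ^ (a + 1)) = z * (P * v ^ (μ1 + 1 + 0)) := by
            rw [ha]; ring
          rw [this]
          exact Ideal.mul_mem_left _ _ h1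
        · obtain ⟨z, _, rfl⟩ := Ideal.mem_span_singleton_mul.1 hy2
          rw [← mul_assoc]
          exact Ideal.mul_mem_right _ _ hwv
    | cons p T ih =>
      intro P j hP hPj hj hDT hTT x hx
      have hp := hTT p (by simp)
      have hpm : p.1 ∈ m := hp ▸ Ideal.subset_span (by simp)
      have hDT1 : top (T ++ [(w, μ1)]) < p.2 := hDT.1
      have htopT : μ1 + T.length ≤ top (T ++ [(w, μ1)]) := top_append_ge T (w, μ1) hDT.2
      have ih' := ih (P * p.1) (j + 1)
        (fun y hy => by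
          rw [mul_assoc]
          exact hP _ (Ideal.mem_sup_left (Ideal.mul_mem_mul (Ideal.subset_span rfl) hy)))
        (by rw [pow_succ]; exact Ideal.mul_mem_mul hPj hpm)
        (by simp at hj; omega) hDT.2 (fun q hq => hTT q (by simp [hq]))
      obtain ⟨x1, hx1, x2, hx2, rfl⟩ := Submodule.mem_sup.1 hx
      rw [mul_add]
      refine Ideal.add_mem _ ?_ ?_
      · obtain ⟨z, hz, rfl⟩ := Ideal.mem_span_singleton_mul.1 hx1
        have := ih' z hz
        convert this using 1
        ring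
      · obtain ⟨e, he⟩ : ∃ e, p.2 = μ1 + e + 1 := ⟨p.2 - μ1 - 1, by omega⟩
        have hx2' : x2 ∈ m ^ (μ1 + e + 1) := he ▸ hx2
        obtain ⟨y1, hy1, y2, hy2, rfl⟩ :=
          Submodule.mem_sup.1 (pow_le_of_span_pair hp (μ1 + e) hx2')
        rw [mul_add]
        refine Ideal.add_mem _ ?_ ?_
        · obtain ⟨z, rfl⟩ := Ideal.mem_span_singleton'.1 hy1
          have h1 := hlift P j (e + 1) hPj (by simp at hj; omega)
            (fun x hx => hP _ (Ideal.mem_sup_right (by rw [he]; exact hx)))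
          have : v * P * (z * v ^ (μ1 + e + 1)) = z * (P * v ^ (μ1 + 1 + (e + 1))) := by
            ring
          rw [this]
          exact Ideal.mul_mem_left _ _ h1
        · obtain ⟨z, hz, rfl⟩ := Ideal.mem_span_singleton_mul.1 hy2
          have := ih' z (pow_top_le_chain m _ (Ideal.pow_le_pow_right (by omega) hz))
          convert this using 1
          ring
  have inner' : ∀ x ∈ chain m (mid ++ [(w, μ1)]), v * x ∈ lowLim J' := by
    intro x hx
    have := inner mid 1 0 (fun x hx => by simpa using hx) (by simp) (by simp) hD.2 hmid x hx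
    simpa using this
  have hvm : ∀ x ∈ Ideal.span {v} * m ^ (c + mid.length), x ∈ lowLim J' := by
    intro x hx
    obtain ⟨z, hz, rfl⟩ := Ideal.mem_span_singleton_mul.1 hx
    exact inner' z (pow_top_le_chain m _ (Ideal.pow_le_pow_right (by omega) hz))
  intro x hx
  obtain ⟨x1, hx1, x2, hx2, rfl⟩ := Submodule.mem_sup.1 hx
  refine Ideal.add_mem _ ?_ ?_
  · obtain ⟨z, hz, rfl⟩ := Ideal.mem_span_singleton_mul.1 hx1
    exact inner' z hz
  · have hμ : μ = c + mid.length + 1 := by omega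
    have hx2' : x2 ∈ m ^ (c + mid.length + 1) := hμ ▸ hx2
    have hwv : Ideal.span {w, v} = m := by rw [← hvw, Set.pair_comm]
    obtain ⟨y1, hy1, y2, hy2, rfl⟩ :=
      Submodule.mem_sup.1 (pow_le_of_span_pair hwv (c + mid.length) hx2')
    refine Ideal.add_mem _ ?_ (hvm _ hy2)
    obtain ⟨z, rfl⟩ := Ideal.mem_span_singleton'.1 hy1
    refine Ideal.mul_mem_left _ _ ?_
    have h1 := outer_mem hw mid hmid c (w ^ (c + 1)) (Ideal.pow_mem_pow hw _)
    have e1 : w ^ (c + mid.length + 1) = w ^ (c + 1) * w ^ mid.length := by ring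
    rw [e1]
    obtain ⟨y1, hy1, y2, hy2, hy⟩ := Submodule.mem_sup.1 h1
    rw [← hy]
    refine Ideal.add_mem _ ?_ (hvm _ hy2)
    obtain ⟨z, rfl⟩ := Ideal.mem_span_singleton'.1 hy1
    refine Ideal.mul_mem_left _ _ ?_
    have h2 := mem_lowLim_of_cont (J := J') S.tend
      (F := fun t => G2 w v t A B (c + 1) μ1 * prodL mid)
      ((G2_cont w v A B (c + 1) μ1).mul continuous_const) (Eventually.of_forall fun k => ?_)
    · rwa [G2_zero w v A B (c + 1) μ1 (by omega) (by nlinarith)] at h2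
    · obtain ⟨x, hx, y, hy, hxy⟩ := Submodule.mem_sup.1 (hG2 k)
      change G2 w v (d k) A B (c + 1) μ1 * prodL mid ∈ J' k
      rw [← hxy, add_mul]
      refine Ideal.add_mem _ (hJ1 k _ _ hx (prodL_mem_chain m mid)) ?_
      refine hJ2 k (c + 1 + μ1 + mid.length) _ (by omega) ?_
      rw [pow_add]
      exact Ideal.mul_mem_mul hy (prodL_mem_pow m mid hmidm)

theorem cl_chain_of_transversal {m : Ideal R} {δ : ℕ → K} (S : Setup m δ) (L : List (R × ℕ))
    (v : R) (μ : ℕ) (hD : Dec ((v, μ) :: L)) (hv : v ∈ m)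
    (hT : ∀ p ∈ L, Ideal.span {v, p.1} = m) :
    Cl m (tot ((v, μ) :: L)) (chain m ((v, μ) :: L)) := by
  induction L using List.reverseRecOn generalizing v μ with
  | nil =>
    intro s hs V hV
    refine ⟨v, hv, fun g hg => ⟨g, ?_, by simpa using mem_of_mem_nhds hV⟩⟩
    simpa [chain, tot] using hs g hg
  | append_singleton mid p ih =>
    obtain ⟨w, μ1⟩ := p
    refine Cl.step (merge_le S v w μ μ1 mid hD hv hT) ?_
    have hvw : Ideal.span {v, w} = m := hT (w, μ1) (by simp)
    have hw : w ∈ m := hvw ▸ Ideal.subset_span (by simp)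
    have hmid : ∀ p ∈ mid, Ideal.span {v, p.1} = m := fun p hp => hT p (by simp [hp])
    have htop : μ1 + mid.length ≤ top (mid ++ [(w, μ1)]) := top_append_ge mid (w, μ1) hD.2
    have htop' : top (mid ++ [(w, μ1)]) < μ := hD.1
    obtain ⟨D, hD'⟩ : ∃ D, 2 * (μ - mid.length) = 2 * μ1 + 1 + (D + 1) :=
      ⟨2 * (μ - mid.length) - (2 * μ1 + 1) - 1, by omega⟩
    rw [hD']
    set A := 2 * μ1 + 1 with hA
    have hev : ∀ p ∈ mid, ∀ᶠ k in atTop,
        Ideal.span {conic w v (algebraMap K R (δ k)) A (A + (D + 1)), p.1} = m := by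
      intro p hp
      obtain ⟨θ, η, hθ⟩ := Ideal.mem_span_pair.1 ((hmid p hp) ▸ hw : w ∈ Ideal.span {v, p.1})
      obtain ⟨θ0, hθ0⟩ := S.res θ
      filter_upwards [S.ev_ne (j := D + 1) (by omega) (-θ0⁻¹)] with k hk
      have hne : δ k ^ A * (1 + δ k ^ (D + 1) * θ0) ≠ 0 := by
        refine mul_ne_zero (pow_ne_zero _ (S.ne k)) fun h => hk ?_
        have h0 : θ0 ≠ 0 := by
          rintro rfl
          simp at h
        field_simp
        linear_combination h
      have hun := S.unit hne (m.add_mem hw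
        (Ideal.mul_mem_left _ (algebraMap K R (δ k) ^ (A + (D + 1))) hθ0))
      refine span_pair_of_unit (hmid p hp) hun
        (η := algebraMap K R (δ k) ^ (A + (D + 1)) * η) ?_
      simp only [conic, map_mul, map_add, map_pow, map_one, pow_add]
      linear_combination (-(algebraMap K R (δ k) ^ A * (algebraMap K R (δ k) ^ D *
        algebraMap K R (δ k) ^ 1))) * hθ
    have hev' : ∀ᶠ k in atTop, ∀ p ∈ mid,
        Ideal.span {conic w v (algebraMap K R (δ k)) A (A + (D + 1)), p.1} = m :=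
      (List.finite_toSet mid).eventually_all.2 hev
    filter_upwards [hev'] with k hk
    have h1 := ih (conic w v (algebraMap K R (δ k)) A (A + (D + 1))) (μ + μ1)
      ⟨lt_of_le_of_lt (top_le_top_append mid (w, μ1)) (by change _ < μ + μ1; omega),
        Dec.of_append hD.2⟩
      (by
        unfold conic
        exact m.add_mem (m.add_mem (Ideal.mul_mem_left _ _ hv) (Ideal.mul_mem_left _ _ hv))
          (Ideal.mul_mem_left _ _ hw)) hk
    have e : tot ((v, μ) :: (mid ++ [(w, μ1)])) =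
        tot ((conic w v (algebraMap K R (δ k)) A (A + (D + 1)), μ + μ1) :: mid) := by
      simp only [tot, tot_append]
      ring
    rw [e]
    exact h1

theorem cl_chain {m : Ideal R} {δ : ℕ → K} (S : Setup m δ) (L : List (R × ℕ)) (hL : L ≠ [])
    (σ : R) (hD : Dec L) (hT : ∀ p ∈ L, Ideal.span {σ, p.1} = m) :
    Cl m (tot L) (chain m L) := by
  obtain ⟨⟨v, μ⟩, L, rfl⟩ := List.exists_cons_of_ne_nil hL
  have hσv : Ideal.span {σ, v} = m := hT (v, μ) (by simp)
  have hv : v ∈ m := hσv ▸ Ideal.subset_span (by simp)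
  have hσ : σ ∈ m := hσv ▸ Ideal.subset_span (by simp)
  refine Cl.step (J' := fun k => chain m ((v + algebraMap K R (δ k) * σ, μ) :: L)) ?_ ?_
  · intro x hx
    obtain ⟨x1, hx1, x2, hx2, rfl⟩ := Submodule.mem_sup.1 hx
    obtain ⟨z, hz, rfl⟩ := Ideal.mem_span_singleton_mul.1 hx1
    have h1 := mem_lowLim_of_cont
      (J := fun k => chain m ((v + algebraMap K R (δ k) * σ, μ) :: L)) S.tend
      (F := fun t => (v + t * σ) * z + x2) (by fun_prop)
      (Eventually.of_forall fun k => Ideal.add_mem _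
        (Ideal.mem_sup_left (Ideal.mul_mem_mul (Ideal.subset_span rfl) hz))
        (Ideal.mem_sup_right hx2))
    simpa using h1
  · have hev : ∀ p ∈ L, ∀ᶠ k in atTop,
        Ideal.span {v + algebraMap K R (δ k) * σ, p.1} = m := by
      intro p hp
      have hp' := hT p (by simp [hp])
      obtain ⟨θ, η, hθ⟩ := Ideal.mem_span_pair.1 (hp' ▸ hv : v ∈ Ideal.span {σ, p.1})
      obtain ⟨θ0, hθ0⟩ := S.res θ
      filter_upwards [S.ev_ne (j := 1) le_rfl (-θ0)] with k hk
      have hne : δ k + θ0 ≠ 0 := fun h => hk (by linear_combination h)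
      have hun := S.unit hne hθ0
      refine span_pair_of_unit hp' hun (η := η) ?_
      simp only [map_add]
      linear_combination (-1 : R) * hθ
    have hev' : ∀ᶠ k in atTop, ∀ p ∈ L,
        Ideal.span {v + algebraMap K R (δ k) * σ, p.1} = m :=
      (List.finite_toSet L).eventually_all.2 hev
    filter_upwards [hev'] with k hk
    exact cl_chain_of_transversal S L _ μ hD (m.add_mem hv (Ideal.mul_mem_left _ _ hσ)) hk

end Pool.Agent.MP_4403b8_ag

end MrgPart1

-- ======== part 2: formerly Pool.Agent.MP_4403b8_ag.Basic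
section MrgPart2

/-!
Basic facts on ideals of finite colength in two variables.
-/

set_option autoImplicit false

namespace Pool.Agent.MP_4403b8_ag

open MvPolynomial

/-- polynomials in two variables -/
abbrev P2 (A : Type*) [CommRing A] := MvPolynomial (Fin 2) A

/-- the ideal of the origin -/
noncomputable abbrev mm (A : Type*) [CommRing A] : Ideal (P2 A) := idealOfVars (Fin 2) A

section Ring

variable {A B : Type*} [CommRing A] [CommRing B]

theorem mm_eq : mm A = Ideal.span {X 0, X 1} := by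
  unfold mm idealOfVars
  congr 1
  ext p
  simp [Fin.exists_fin_two, eq_comm]

theorem X_mem_mm (i : Fin 2) : (X i : P2 A) ∈ mm A := Ideal.subset_span ⟨i, rfl⟩

theorem mem_mm_iff {p : P2 A} : p ∈ mm A ↔ p.coeff 0 = 0 := by
  have := mem_pow_idealOfVars_iff' (σ := Fin 2) (R := A) 1 p
  rw [pow_one] at this
  rw [this]
  constructor
  · intro h
    exact h 0 (by simp)
  · intro h x hx
    have : x = 0 := by
      have : x.degree = 0 := by omega
      exact (Finsupp.degree_eq_zero_iff x).1 this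
    rw [this, h]

theorem map_mem_pow (f : A →+* B) {n : ℕ} {p : P2 A} (h : p ∈ mm A ^ n) :
    map f p ∈ mm B ^ n := by
  rw [mem_pow_idealOfVars_iff'] at h ⊢
  intro x hx
  rw [coeff_map, h x hx, map_zero]

theorem map_mem_mm (f : A →+* B) {p : P2 A} (h : p ∈ mm A) : map f p ∈ mm B := by
  rw [mem_mm_iff] at h ⊢
  rw [coeff_map, h, map_zero]

theorem pow_le_map_pow (f : A →+* B) (n : ℕ) : mm B ^ n ≤ (mm A ^ n).map (map f) := by
  rw [pow_idealOfVars_eq_span (R := B), Ideal.span_le]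
  rintro _ ⟨d, hd, rfl⟩
  have : (monomial d (1 : B) : P2 B) = map f (monomial d 1) := by simp
  change monomial d (1 : B) ∈ _
  rw [this]
  refine Ideal.mem_map_of_mem _ ?_
  rw [mem_pow_idealOfVars_iff']
  intro x hx
  rw [coeff_monomial, if_neg]
  rintro rfl
  have : Finsupp.degree d = n := hd
  omega

theorem sub_C_mem_mm (p : P2 A) : p - C (p.coeff 0) ∈ mm A := by
  rw [mem_mm_iff]
  simp

theorem degree_fin2 (d : Fin 2 →₀ ℕ) : d.degree = d 0 + d 1 := by
  rw [Finsupp.degree_eq_sum]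
  simp

theorem finite_degree_lt (n : ℕ) : {d : Fin 2 →₀ ℕ | d.degree < n}.Finite :=
  (Finsupp.finite_of_degree_le n).subset fun d (h : d.degree < n) => (h.le : d.degree ≤ n)

theorem mk_smul {R : Type*} [CommRing R] [Algebra A R] (I : Ideal R) (a : A) (p : R) :
    Ideal.Quotient.mk I (a • p) = a • Ideal.Quotient.mk I p :=
  map_smul (Ideal.Quotient.mkₐ A I) a p

theorem finite_quot {n : ℕ} {I : Ideal (P2 A)} (h : mm A ^ n ≤ I) :
    Module.Finite A (P2 A ⧸ I) := by
  classical
  refine ⟨⟨(finite_degree_lt n).toFinset.image fun d => Ideal.Quotient.mk I (monomial d 1), ?_⟩⟩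
  rw [eq_top_iff]
  rintro x -
  obtain ⟨p, rfl⟩ := Ideal.Quotient.mk_surjective x
  rw [p.as_sum, map_sum]
  refine Submodule.sum_mem _ fun d _ => ?_
  by_cases hd : d.degree < n
  · have : Ideal.Quotient.mk I (monomial d (p.coeff d)) =
        p.coeff d • Ideal.Quotient.mk I (monomial d 1) := by
      rw [← mk_smul, smul_monomial, smul_eq_mul, mul_one]
    rw [this]
    refine Submodule.smul_mem _ _ (Submodule.subset_span ?_)
    simp only [Finset.coe_image, Set.Finite.coe_toFinset]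
    exact ⟨d, hd, rfl⟩
  · have : Ideal.Quotient.mk I (monomial d (p.coeff d)) = 0 := by
      rw [Ideal.Quotient.eq_zero_iff_mem]
      refine h ?_
      rw [mem_pow_idealOfVars_iff']
      intro x hx
      rw [coeff_monomial, if_neg]
      rintro rfl
      exact hd hx
    rw [this]
    exact Submodule.zero_mem _

theorem pow_le_loc {R : Type*} [CommRing R] {m : Ideal R} {s g : R} (hs : s ∈ m)
    (h : m ≤ Ideal.span {s} + Ideal.span {g} + m ^ 2) (i : ℕ) :
    m ^ i ≤ Ideal.span {s ^ i} + Ideal.span {g} + m ^ (i + 1) := by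
  induction i with
  | zero => simp
  | succ i ih =>
    rw [pow_succ m i, Ideal.mul_le]
    intro a ha b hb
    obtain ⟨x', hx', z, hz, rfl⟩ := Submodule.mem_sup.1 (ih ha)
    obtain ⟨x, hx, y, hy, rfl⟩ := Submodule.mem_sup.1 hx'
    obtain ⟨c, rfl⟩ := Ideal.mem_span_singleton'.1 hx
    obtain ⟨u', hu', w, hw, hb'⟩ := Submodule.mem_sup.1 (h hb)
    obtain ⟨u, hu, v, hv, rfl⟩ := Submodule.mem_sup.1 hu'
    obtain ⟨c', rfl⟩ := Ideal.mem_span_singleton'.1 hu
    have e : (c * s ^ i + y + z) * b =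
        (c * c') * s ^ (i + 1) + (c * s ^ i * v + y * b) + (c * (s ^ i * w) + z * b) := by
      linear_combination (-(c * s ^ i)) * hb'
    rw [e]
    refine Ideal.add_mem _ (Ideal.mem_sup_left (Ideal.add_mem _ (Ideal.mem_sup_left
      (Ideal.mul_mem_left _ _ (Ideal.subset_span rfl))) (Ideal.mem_sup_right
      (Ideal.add_mem _ (Ideal.mul_mem_left _ _ hv) (Ideal.mul_mem_right _ _ hy)))))
      (Ideal.mem_sup_right (Ideal.add_mem _ (Ideal.mul_mem_left _ _ ?_) ?_))
    · rw [show i + 1 + 1 = i + 2 from rfl, pow_add]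
      exact Ideal.mul_mem_mul (Ideal.pow_mem_pow hs i) hw
    · rw [pow_succ m (i + 1)]
      exact Ideal.mul_mem_mul hz hb

theorem fin2_ext {d e : Fin 2 →₀ ℕ} (h0 : d 0 = e 0) (h1 : d 1 = e 1) : d = e := by
  ext i
  fin_cases i
  · exact h0
  · exact h1

theorem lin_part {Γ : P2 A} (h : Γ ∈ mm A) :
    Γ - C (Γ.coeff (Finsupp.single 0 1)) * X 0 - C (Γ.coeff (Finsupp.single 1 1)) * X 1 ∈
      mm A ^ 2 := by
  rw [mem_pow_idealOfVars_iff']
  intro d hd
  rw [mem_mm_iff] at h
  rw [degree_fin2] at hd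
  have h01 : (Finsupp.single (0 : Fin 2) 1) ≠ Finsupp.single 1 1 := by
    intro h
    simpa using congrArg (fun f => f 0) h
  have h0 : ∀ i : Fin 2, (Finsupp.single i 1) ≠ 0 := by simp
  simp only [coeff_sub, coeff_C_mul, coeff_X]
  by_cases a : d 0 = 1
  · have : d = Finsupp.single 0 1 := fin2_ext (by simpa using a) (by simp; omega)
    subst this
    simp [h01.symm]
  · by_cases b : d 1 = 1
    · have : d = Finsupp.single 1 1 := fin2_ext (by simp; omega) (by simpa using b)
      subst this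
      simp [h01]
    · have : d = 0 := fin2_ext (by simp; omega) (by simp; omega)
      subst this
      simp [h, h0]

end Ring

section Field

variable {k : Type*} [Field k]

theorem colen_lt {R : Type*} [CommRing R] [Algebra k R] {I J : Ideal R} (h : I < J)
    [Module.Finite k (R ⧸ I)] : Module.finrank k (R ⧸ J) < Module.finrank k (R ⧸ I) := by
  let f : (R ⧸ I) →ₗ[k] (R ⧸ J) := (Ideal.Quotient.factorₐ k h.le).toLinearMap
  have hs : Function.Surjective f := Ideal.Quotient.factor_surjective h.le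
  have h1 := LinearMap.finrank_range_add_finrank_ker f
  rw [LinearMap.range_eq_top.2 hs, finrank_top] at h1
  obtain ⟨x, hxJ, hxI⟩ := SetLike.exists_of_lt h
  have h2 : LinearMap.ker f ≠ ⊥ := by
    rw [Submodule.ne_bot_iff]
    refine ⟨Ideal.Quotient.mk I x, ?_, ?_⟩
    · change Ideal.Quotient.mk J x = 0
      exact Ideal.Quotient.eq_zero_iff_mem.2 hxJ
    · rwa [Ne, Ideal.Quotient.eq_zero_iff_mem]
  have h3 : Module.finrank k (LinearMap.ker f) ≠ 0 := by
    rwa [Ne, Submodule.finrank_eq_zero]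
  omega

theorem eq_of_le_of_colen {R : Type*} [CommRing R] [Algebra k R] {I J : Ideal R} (h : I ≤ J)
    [Module.Finite k (R ⧸ I)] (h' : Module.finrank k (R ⧸ I) ≤ Module.finrank k (R ⧸ J)) :
    I = J := by
  by_contra hne
  have := colen_lt (k := k) (lt_of_le_of_ne h hne)
  omega

theorem colen_le {R : Type*} [CommRing R] [Algebra k R] {I J : Ideal R} (h : I ≤ J)
    [Module.Finite k (R ⧸ I)] : Module.finrank k (R ⧸ J) ≤ Module.finrank k (R ⧸ I) := by
  rcases h.eq_or_lt with rfl | h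
  · exact le_rfl
  · exact (colen_lt h).le

theorem curv_succ_lt {Γ : P2 k} (hΓ : Γ ∈ mm k) (n : ℕ) :
    Ideal.span {Γ} + mm k ^ (n + 1) < Ideal.span {Γ} + mm k ^ n := by
  refine lt_of_le_of_ne (add_le_add le_rfl (Ideal.pow_le_pow_right (by omega))) fun h => ?_
  set q := Ideal.Quotient.mk (Ideal.span {Γ})
  have hfg : ((mm k ^ n).map q).FG := (idealOfVars_fg (Fin 2) k).pow.map _
  have hle : (mm k ^ n).map q ≤ ((mm k).map q) • ((mm k ^ n).map q) := by
    rw [smul_eq_mul, ← Ideal.map_mul, ← pow_succ', Ideal.map_le_iff_le_comap]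
    intro x hx
    have hx' : x ∈ Ideal.span {Γ} + mm k ^ (n + 1) := h ▸ Ideal.mem_sup_right hx
    obtain ⟨a, ha, b, hb, rfl⟩ := Submodule.mem_sup.1 hx'
    rw [Ideal.mem_comap, map_add, Ideal.Quotient.eq_zero_iff_mem.2 ha, zero_add]
    exact Ideal.mem_map_of_mem _ hb
  obtain ⟨r, hr1, hr⟩ := Submodule.exists_sub_one_mem_and_smul_eq_zero_of_fg_of_le_smul _ _ hfg hle
  obtain ⟨u, rfl⟩ := Ideal.Quotient.mk_surjective r
  have hu : u ∉ mm k := by
    intro hu
    have h1 : q u - 1 ∈ (mm k).map q := hr1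
    have h2 : (1 : P2 k ⧸ Ideal.span {Γ}) ∈ (mm k).map q := by
      have := Ideal.sub_mem _ (Ideal.mem_map_of_mem q hu) h1
      simpa using this
    rw [← map_one q, Ideal.mem_quotient_iff_mem_sup] at h2
    have h3 : (1 : P2 k) ∈ mm k :=
      (sup_le le_rfl ((Ideal.span_singleton_le_iff_mem _).2 hΓ) : _ ≤ mm k) h2
    rw [mem_mm_iff] at h3
    simp at h3
  have key : ∀ i : Fin 2, Γ ∣ u * X i ^ n := by
    intro i
    have := hr _ (Ideal.mem_map_of_mem q (Ideal.pow_mem_pow (X_mem_mm i) n))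
    rw [smul_eq_mul, ← map_mul, Ideal.Quotient.eq_zero_iff_mem, Ideal.mem_span_singleton] at this
    exact this
  obtain ⟨a, ha⟩ := key 0
  obtain ⟨b, hb⟩ := key 1
  have hΓ0 : Γ ≠ 0 := by
    rintro rfl
    rw [zero_mul, mul_eq_zero] at ha
    rcases ha with ha | ha
    · exact hu (ha ▸ Ideal.zero_mem _)
    · exact pow_ne_zero n (X_ne_zero (0 : Fin 2)) ha
  have h1 : a * X 1 ^ n = b * X 0 ^ n := by
    apply mul_left_cancel₀ hΓ0
    linear_combination (-X 1 ^ n) * ha + X 0 ^ n * hb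
  have h2 : (X 0 : P2 k) ^ n ∣ a := by
    refine (X_prime (i := (0 : Fin 2))).pow_dvd_of_dvd_mul_right n (b := X 1 ^ n) ?_
      ⟨b, by rw [h1]; ring⟩
    intro hd
    have := (X_prime (i := (0 : Fin 2))).dvd_of_dvd_pow hd
    rw [X_dvd_X] at this
    exact absurd this (by decide)
  obtain ⟨c, rfl⟩ := h2
  have h3 : u = Γ * c := by
    apply mul_right_cancel₀ (pow_ne_zero n (X_ne_zero (R := k) (0 : Fin 2)))
    rw [ha]; ring
  exact hu (h3 ▸ Ideal.mul_mem_right _ _ hΓ)

theorem le_colen_curv {Γ : P2 k} (hΓ : Γ ∈ mm k) (n : ℕ) :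
    n ≤ Module.finrank k (P2 k ⧸ (Ideal.span {Γ} + mm k ^ n)) := by
  induction n with
  | zero => exact Nat.zero_le _
  | succ n ih =>
    have : Module.Finite k (P2 k ⧸ (Ideal.span {Γ} + mm k ^ (n + 1))) :=
      finite_quot (n := n + 1) le_add_self
    have := colen_lt (k := k) (curv_succ_lt hΓ n)
    omega

theorem colen_curv_le_of_span {Γ s : P2 k} (hs : s ∈ mm k)
    (h : mm k ≤ Ideal.span {s} + Ideal.span {Γ} + mm k ^ 2) (n : ℕ) :
    Module.finrank k (P2 k ⧸ (Ideal.span {Γ} + mm k ^ n)) ≤ n := by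
  classical
  have hN1 : ∀ f ∈ Ideal.span {Γ}, f ∈ Ideal.span {Γ} + mm k ^ n :=
    fun f hf => Ideal.mem_sup_left hf
  have hN2 : ∀ f ∈ mm k ^ n, f ∈ Ideal.span {Γ} + mm k ^ n :=
    fun f hf => Ideal.mem_sup_right hf
  generalize Ideal.span {Γ} + mm k ^ n = N at hN1 hN2
  let v : Fin n → P2 k ⧸ N := fun i => Ideal.Quotient.mk N (s ^ (i : ℕ))
  have key : ∀ j, ∀ i, i + j = n → ∀ f ∈ mm k ^ i,
      Ideal.Quotient.mk N f ∈ Submodule.span k (Set.range v) := by
    intro j
    induction j with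
    | zero =>
      intro i hi f hf
      rw [add_zero] at hi
      subst hi
      rw [Ideal.Quotient.eq_zero_iff_mem.2 (hN2 f hf)]
      exact Submodule.zero_mem _
    | succ j ih =>
      intro i hi f hf
      obtain ⟨x', hx', z, hz, rfl⟩ := Submodule.mem_sup.1 (pow_le_loc hs h i hf)
      obtain ⟨x, hx, y, hy, rfl⟩ := Submodule.mem_sup.1 hx'
      obtain ⟨c, rfl⟩ := Ideal.mem_span_singleton'.1 hx
      have e : c * s ^ i + y + z =
          c.coeff 0 • s ^ i + ((c - C (c.coeff 0)) * s ^ i + z) + y := by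
        rw [smul_eq_C_mul]; ring
      rw [e, map_add, map_add, Ideal.Quotient.eq_zero_iff_mem.2 (hN1 y hy), add_zero]
      refine Submodule.add_mem _ ?_ (ih (i + 1) (by omega) _ (Ideal.add_mem _ ?_ hz))
      · rw [mk_smul]
        exact Submodule.smul_mem _ _ (Submodule.subset_span ⟨⟨i, by omega⟩, rfl⟩)
      · rw [pow_succ']
        exact Ideal.mul_mem_mul (sub_C_mem_mm c) (Ideal.pow_mem_pow hs i)
  have htop : Submodule.span k (Set.range v) = ⊤ := by
    rw [eq_top_iff]
    rintro x -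
    obtain ⟨p, rfl⟩ := Ideal.Quotient.mk_surjective x
    exact key n 0 (by simp) p (by simp)
  have := finrank_range_le_card (R := k) v
  rw [Set.finrank, htop, finrank_top] at this
  simpa using this

theorem colen_curv_le {Γ : P2 k} (hΓ : Γ ∈ mm k)
    (h : ∃ i : Fin 2, Γ.coeff (Finsupp.single i 1) ≠ 0) (n : ℕ) :
    Module.finrank k (P2 k ⧸ (Ideal.span {Γ} + mm k ^ n)) ≤ n := by
  have hl := lin_part hΓ
  set a := Γ.coeff (Finsupp.single 0 1)
  set b := Γ.coeff (Finsupp.single 1 1)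
  have key : ∀ (s s' : P2 k) (a b : k), b ≠ 0 → mm k = Ideal.span {s, s'} →
      Γ - C a * s - C b * s' ∈ mm k ^ 2 →
      Module.finrank k (P2 k ⧸ (Ideal.span {Γ} + mm k ^ n)) ≤ n := by
    intro s s' a b hb hm hl
    refine colen_curv_le_of_span (s := s) (hm ▸ Ideal.subset_span (by simp)) ?_ n
    conv_lhs => rw [hm]
    rw [Ideal.span_le]
    rintro x (rfl | rfl)
    · exact Ideal.mem_sup_left (Ideal.mem_sup_left (Ideal.subset_span rfl))
    · have e : x = (-C (b⁻¹ * a)) * s + C b⁻¹ * Γ + (-C b⁻¹) * (Γ - C a * s - C b * x) := by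
        have : (C b⁻¹ : P2 k) * C b = 1 := by rw [← map_mul, inv_mul_cancel₀ hb, map_one]
        rw [map_mul]
        linear_combination (-x) * this
      rw [SetLike.mem_coe, e]
      exact Ideal.add_mem _ (Ideal.mem_sup_left (Ideal.add_mem _
        (Ideal.mem_sup_left (Ideal.mul_mem_left _ _ (Ideal.subset_span rfl)))
        (Ideal.mem_sup_right (Ideal.mul_mem_left _ _ (Ideal.subset_span rfl)))))
        (Ideal.mem_sup_right (Ideal.mul_mem_left _ _ hl))
  obtain ⟨i, hi⟩ := h
  fin_cases i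
  · refine key (X 1) (X 0) b a hi (by rw [mm_eq, Set.pair_comm]) ?_
    convert hl using 1
    ring
  · exact key (X 0) (X 1) a b hi mm_eq hl

end Field

end Pool.Agent.MP_4403b8_ag

end MrgPart2

-- ======== part 3: formerly Pool.Agent.MP_4403b8_ag.Mono
section MrgPart3

/-!
Monomial ideals in two variables.
-/

set_option autoImplicit false

namespace Pool.Agent.MP_4403b8_ag

open MvPolynomial

theorem quot_equiv_of_ker {A R N : Type*} [CommRing A] [CommRing R] [Algebra A R] [AddCommGroup N]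
    [Module A N] (I : Ideal R) (f : R →ₗ[A] N) (hs : Function.Surjective f)
    (hk : ∀ p, p ∈ I ↔ f p = 0) : Nonempty ((R ⧸ I) ≃ₗ[A] N) := by
  have h : Submodule.restrictScalars A I = LinearMap.ker f := by
    ext p
    simpa using hk p
  exact ⟨(Submodule.Quotient.restrictScalarsEquiv A I).symm ≪≫ₗ Submodule.quotEquivOfEq _ _ h ≪≫ₗ
    f.quotKerEquivOfSurjective hs⟩

/-- the monomial ideal generated by a set of exponents -/
noncomputable def monI (A : Type*) [CommRing A] (S : Set (Fin 2 →₀ ℕ)) : Ideal (P2 A) :=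
  Ideal.span ((fun s => monomial s (1 : A)) '' S)

/-- standard monomials -/
def std (S : Set (Fin 2 →₀ ℕ)) : Set (Fin 2 →₀ ℕ) := {d | ¬ ∃ s ∈ S, s ≤ d}

theorem mem_monI {A : Type*} [CommRing A] {S : Set (Fin 2 →₀ ℕ)} {p : P2 A} :
    p ∈ monI A S ↔ ∀ d ∈ std S, p.coeff d = 0 := by
  unfold monI
  rw [mem_ideal_span_monomial_image]
  constructor
  · intro h d hd
    by_contra hne
    exact hd (h d (mem_support_iff.2 hne))
  · intro h d hd
    by_contra hne
    exact mem_support_iff.1 hd (h d hne)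

theorem std_lower {S : Set (Fin 2 →₀ ℕ)} {d e : Fin 2 →₀ ℕ} (h : d ≤ e) (he : e ∈ std S) :
    d ∈ std S := fun ⟨s, hs, hsd⟩ => he ⟨s, hs, hsd.trans h⟩

theorem monomial_mem_monI {A : Type*} [CommRing A] {S : Set (Fin 2 →₀ ℕ)} {d : Fin 2 →₀ ℕ}
    (hd : d ∉ std S) (a : A) : monomial d a ∈ monI A S := by
  rw [mem_monI]
  intro e he
  rw [coeff_monomial, if_neg]
  rintro rfl
  exact hd he

theorem monI_induction {A : Type*} [CommRing A] {S : Set (Fin 2 →₀ ℕ)} {N : Ideal (P2 A)}
    (h : ∀ d ∉ std S, monomial d (1 : A) ∈ N) : monI A S ≤ N := by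
  unfold monI
  rw [Ideal.span_le]
  rintro _ ⟨d, hd, rfl⟩
  exact h d fun h' => h' ⟨d, hd, le_rfl⟩

theorem finrank_monI (k : Type*) [Field k] (S : Set (Fin 2 →₀ ℕ)) :
    Module.finrank k (P2 k ⧸ monI k S) = (std S).ncard := by
  classical
  let f : P2 k →ₗ[k] (std S →₀ k) :=
    Finsupp.lsubtypeDomain (std S) ∘ₗ (basisMonomials (Fin 2) k).repr.toLinearMap
  have hf : ∀ p d, f p d = p.coeff d.1 := fun p d => rfl
  have hs : Function.Surjective f := by
    intro g
    refine ⟨g.sum fun d a => monomial d.1 a, ?_⟩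
    ext d
    rw [hf, Finsupp.sum, coeff_sum]
    simp only [coeff_monomial]
    rw [Finset.sum_eq_single d]
    · simp
    · intro b _ hb
      rw [if_neg fun h => hb (Subtype.ext h)]
    · intro h
      simpa using h
  obtain ⟨e⟩ := quot_equiv_of_ker (monI k S) f hs (fun p => by
    rw [mem_monI]
    constructor
    · intro h
      ext d
      rw [hf, h d.1 d.2]
      rfl
    · intro h d hd
      rw [← hf p ⟨d, hd⟩, h]
      rfl)
  rw [e.finrank_eq, Module.finrank_eq_nat_card_basis Finsupp.basisSingleOne]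
  rfl

/-- exponent vector -/
noncomputable def ex (a b : ℕ) : Fin 2 →₀ ℕ := Finsupp.single 0 a + Finsupp.single 1 b

@[simp] theorem ex_zero (a b : ℕ) : ex a b 0 = a := by simp [ex]
@[simp] theorem ex_one (a b : ℕ) : ex a b 1 = b := by simp [ex]

theorem ex_eta (d : Fin 2 →₀ ℕ) : ex (d 0) (d 1) = d := fin2_ext (by simp) (by simp)

theorem le_fin2 {d e : Fin 2 →₀ ℕ} : d ≤ e ↔ d 0 ≤ e 0 ∧ d 1 ≤ e 1 := by
  rw [Finsupp.le_def, Fin.forall_fin_two]

theorem monomial_ex {A : Type*} [CommRing A] (a b : ℕ) :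
    (monomial (ex a b) (1 : A) : P2 A) = X 0 ^ a * X 1 ^ b := by
  rw [ex, X_pow_eq_monomial, X_pow_eq_monomial, monomial_mul, mul_one]

theorem degree_lt_ncard {S : Set (Fin 2 →₀ ℕ)} (hf : (std S).Finite) {d : Fin 2 →₀ ℕ}
    (hd : d ∈ std S) : d.degree < (std S).ncard := by
  let g : ℕ → (Fin 2 →₀ ℕ) := fun j => ex (min j (d 0)) (j - d 0)
  have hg : Function.Injective g := by
    intro i j h
    have h0 := congrArg (fun f => f 0) h
    have h1 := congrArg (fun f => f 1) h
    simp only [g, ex_zero, ex_one] at h0 h1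
    omega
  have hsub : g '' (Set.Iio (d.degree + 1)) ⊆ std S := by
    rintro _ ⟨j, hj, rfl⟩
    refine std_lower ?_ hd
    rw [Set.mem_Iio, degree_fin2] at hj
    rw [le_fin2]
    simp only [g, ex_zero, ex_one]
    omega
  have := Set.ncard_le_ncard hsub hf
  rw [Set.ncard_image_of_injective _ hg, Set.ncard_Iio_nat] at this
  omega

theorem pow_le_monI {A : Type*} [CommRing A] {S : Set (Fin 2 →₀ ℕ)} (hf : (std S).Finite) :
    mm A ^ (std S).ncard ≤ monI A S := by
  intro p hp
  rw [mem_pow_idealOfVars_iff'] at hp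
  rw [mem_monI]
  exact fun d hd => hp d (degree_lt_ncard hf hd)

theorem map_monI {A B : Type*} [CommRing A] [CommRing B] (f : A →+* B) (S : Set (Fin 2 →₀ ℕ))
    {p : P2 A} (hp : p ∈ monI A S) : map f p ∈ monI B S := by
  rw [mem_monI] at hp ⊢
  intro d hd
  rw [coeff_map, hp d hd, map_zero]

end Pool.Agent.MP_4403b8_ag

end MrgPart3

-- ======== part 4: formerly Pool.Agent.MP_4403b8_ag.Step0
section MrgPart4

/-!
A monomial ideal is a limit of chain ideals.
-/

set_option autoImplicit false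

namespace Pool.Agent.MP_4403b8_ag

open MvPolynomial Finset
open scoped Polynomial

theorem lemmaS {R : Type*} [CommRing R] (m : Ideal R) (Γ : ℕ → R) (κ : ℕ → ℕ → ℕ)
    (hκ : ∀ i j, κ i j = κ j i) (k : ℕ) : ∀ (s : Finset ℕ), s.card = k →
    (∀ i ∈ s, ∀ j ∈ s, 1 ≤ κ i j) →
    (∀ i ∈ s, ∀ j ∈ s, i ≠ j → ∀ N f, Γ i * f ∈ Ideal.span {Γ j} + m ^ (N + κ i j) →
      f ∈ Ideal.span {Γ j} + m ^ N) →
    ∀ nn : ℕ → ℕ, (∀ j ∈ s, ∑ i ∈ s.erase j, κ i j < nn j) →
    ∃ L : List (R × ℕ), (∀ p ∈ L, ∃ j ∈ s, p.1 = Γ j) ∧ Dec L ∧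
      (∀ b, (∀ j ∈ s, nn j ≤ b) → top L ≤ b) ∧
      2 * tot L + ∑ j ∈ s, ∑ i ∈ s.erase j, κ i j = 2 * ∑ j ∈ s, nn j ∧
      ∀ f, (∀ j ∈ s, f ∈ Ideal.span {Γ j} + m ^ nn j) → f ∈ chain m L := by
  induction k with
  | zero =>
    intro s hs _ _ nn _
    rw [card_eq_zero] at hs
    subst hs
    exact ⟨[], by simp, trivial, fun b _ => Nat.zero_le b, by simp [tot], fun f _ => by simp [chain]⟩
  | succ k ih =>
    intro s hs hpos hc nn hn
    obtain ⟨j0, hj0, hmax⟩ := s.exists_max_image nn (card_pos.1 (by omega))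
    have hsub : ∀ j ∈ s.erase j0, j ∈ s := fun j hj => mem_of_mem_erase hj
    have hsplit : ∀ j ∈ s.erase j0, ∑ i ∈ s.erase j, κ i j =
        κ j0 j + ∑ i ∈ (s.erase j0).erase j, κ i j := by
      intro j hj
      rw [erase_right_comm, add_sum_erase _ (fun i => κ i j)
        (mem_erase.2 ⟨(ne_of_mem_erase hj).symm, hj0⟩)]
    have hle : ∀ j ∈ s.erase j0, κ j0 j ≤ nn j := by
      intro j hj
      have := hn j (hsub j hj)
      rw [hsplit j hj] at this
      omega
    obtain ⟨L, hL1, hL2, hL3, hL4, hL5⟩ := ih (s.erase j0) (by rw [card_erase_of_mem hj0, hs]; rfl)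
      (fun i hi j hj => hpos i (hsub i hi) j (hsub j hj))
      (fun i hi j hj => hc i (hsub i hi) j (hsub j hj)) (fun j => nn j - κ j0 j) (by
        intro j hj
        have := hn j (hsub j hj)
        rw [hsplit j hj] at this
        omega)
    refine ⟨(Γ j0, nn j0) :: L, ?_, ⟨?_, hL2⟩, fun b hb => hb j0 hj0, ?_, fun f hf => ?_⟩
    · intro p hp
      rcases List.mem_cons.1 hp with rfl | hp
      · exact ⟨j0, hj0, rfl⟩
      · obtain ⟨j, hj, h⟩ := hL1 p hp
        exact ⟨j, hsub j hj, h⟩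
    · have h1 := hL3 (nn j0 - 1) fun j hj => by
        have := hmax j (hsub j hj)
        have := hpos j0 hj0 j (hsub j hj)
        omega
      have := hn j0 hj0
      change top L < nn j0
      omega
    · have e1 : ∑ j ∈ s.erase j0, nn j =
          ∑ j ∈ s.erase j0, (nn j - κ j0 j) + ∑ j ∈ s.erase j0, κ j0 j := by
        rw [← sum_add_distrib]
        exact sum_congr rfl fun j hj => (Nat.sub_add_cancel (hle j hj)).symm
      have e2 : ∑ i ∈ s.erase j0, κ i j0 = ∑ j ∈ s.erase j0, κ j0 j :=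
        sum_congr rfl fun j _ => hκ _ _
      rw [← add_sum_erase s _ hj0, ← add_sum_erase s nn hj0, sum_congr rfl hsplit,
        sum_add_distrib, e1, e2]
      change 2 * (nn j0 + tot L) + _ = _
      omega
    · obtain ⟨x, hx, r, hr, rfl⟩ := Submodule.mem_sup.1 (hf j0 hj0)
      obtain ⟨u, rfl⟩ := Ideal.mem_span_singleton'.1 hx
      refine Ideal.add_mem _ (Ideal.mem_sup_left ?_) (Ideal.mem_sup_right hr)
      rw [mul_comm u]
      refine Ideal.mul_mem_mul (Ideal.subset_span rfl) (hL5 u fun j hj => ?_)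
      refine hc j0 hj0 j (hsub j hj) (ne_of_mem_erase hj).symm _ _ ?_
      rw [Nat.sub_add_cancel (hle j hj)]
      have := Ideal.sub_mem _ (hf j (hsub j hj))
        (Ideal.mem_sup_right (Ideal.pow_le_pow_right (hmax j (hsub j hj)) hr))
      rwa [add_sub_cancel_right, mul_comm] at this

theorem chain_map {R R' : Type*} [CommRing R] [CommRing R'] (π : R →+* R') {m : Ideal R}
    {m' : Ideal R'} (hm : m.map π ≤ m') (L : List (R × ℕ)) :
    ∀ f ∈ chain m L, π f ∈ chain m' (L.map fun p => (π p.1, p.2)) := by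
  induction L with
  | nil => simp [chain]
  | cons p L ih =>
    intro f hf
    obtain ⟨x, hx, r, hr, rfl⟩ := Submodule.mem_sup.1 hf
    obtain ⟨z, hz, rfl⟩ := Ideal.mem_span_singleton_mul.1 hx
    rw [map_add, map_mul]
    refine Ideal.add_mem _ (Ideal.mem_sup_left (Ideal.mul_mem_mul (Ideal.subset_span rfl)
      (ih z hz))) (Ideal.mem_sup_right ?_)
    refine Ideal.pow_right_mono hm p.2 ?_
    rw [← Ideal.map_pow]
    exact Ideal.mem_map_of_mem _ hr

theorem dec_map {R R' : Type*} (π : R → R') (L : List (R × ℕ)) (h : Dec L) :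
    Dec (L.map fun p => (π p.1, p.2)) := by
  induction L with
  | nil => trivial
  | cons p L ih =>
    refine ⟨?_, ih h.2⟩
    have := h.1
    cases L <;> exact this

theorem tot_map {R R' : Type*} (π : R → R') (L : List (R × ℕ)) :
    tot (L.map fun p => (π p.1, p.2)) = tot L := by
  induction L with
  | nil => rfl
  | cons p L ih => simp [tot, ih]

section Branch

variable {K : Type*} [Field K]

/-- a smooth branch -/
noncomputable def br (e : ℕ) (c : K) : P2 K := X 0 ^ e - C c * X 1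

/-- its parametrisation -/
noncomputable def evb (e : ℕ) (c : K) : P2 K →ₐ[K] K[X] :=
  aeval ![Polynomial.X, Polynomial.C c⁻¹ * Polynomial.X ^ e]

theorem evb_br (e e' : ℕ) (c c' : K) : evb e c (br e' c') =
    Polynomial.X ^ e' - Polynomial.C (c' * c⁻¹) * Polynomial.X ^ e := by
  simp [evb, br, mul_assoc]

theorem mem_br_iff {e : ℕ} (he : 1 ≤ e) {c : K} (hc : c ≠ 0) (N : ℕ) (f : P2 K) :
    f ∈ Ideal.span {br e c} + mm K ^ N ↔ Polynomial.X ^ N ∣ evb e c f := by
  constructor
  · intro hf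
    obtain ⟨x, hx, r, hr, rfl⟩ := Submodule.mem_sup.1 hf
    obtain ⟨u, rfl⟩ := Ideal.mem_span_singleton'.1 hx
    rw [map_add, map_mul, evb_br, mul_inv_cancel₀ hc, map_one, one_mul, sub_self, mul_zero,
      zero_add, ← Ideal.mem_span_singleton, ← Ideal.span_singleton_pow]
    have h1 : (mm K).map (evb e c) ≤ Ideal.span {Polynomial.X} := by
      rw [mm_eq, Ideal.map_span, Ideal.span_le]
      rintro _ ⟨x, rfl | rfl, rfl⟩
      · simp [evb]
      · simp only [evb, aeval_X, SetLike.mem_coe, Ideal.mem_span_singleton]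
        exact Dvd.dvd.mul_left (dvd_pow_self _ (by omega)) _
    refine Ideal.pow_right_mono h1 N ?_
    rw [← Ideal.map_pow]
    exact Ideal.mem_map_of_mem _ hr
  · rintro ⟨q, hq⟩
    have h1 : (Ideal.Quotient.mkₐ K (Ideal.span {br e c})).comp
        ((Polynomial.aeval (X 0 : P2 K)).comp (evb e c)) =
        Ideal.Quotient.mkₐ K (Ideal.span {br e c}) := by
      refine algHom_ext fun i => ?_
      fin_cases i
      · simp [evb]
      · simp only [evb, AlgHom.comp_apply, aeval_X, Ideal.Quotient.mkₐ_eq_mk]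
        rw [Ideal.Quotient.eq, Ideal.mem_span_singleton']
        refine ⟨C c⁻¹, ?_⟩
        have : (C c⁻¹ : P2 K) * C c = 1 := by rw [← map_mul, inv_mul_cancel₀ hc, map_one]
        simp [br, algebraMap_eq]
        linear_combination (-X 1) * this
    have h2 := DFunLike.congr_fun h1 f
    simp only [AlgHom.comp_apply, Ideal.Quotient.mkₐ_eq_mk] at h2
    rw [eq_comm, Ideal.Quotient.eq, hq, map_mul, map_pow, Polynomial.aeval_X] at h2
    have := Ideal.add_mem _ (Ideal.mem_sup_left (T := mm K ^ N) h2) (Ideal.mem_sup_right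
      (Ideal.mul_mem_right (Polynomial.aeval (X 0 : P2 K) q) _ (Ideal.pow_mem_pow (X_mem_mm 0) N)))
    rwa [sub_add_cancel] at this

theorem evb_br_eq (e e' : ℕ) {c c' : K} (hc : c ≠ 0) (hc' : c' ≠ 0) (h : c ≠ c') :
    ∃ u, evb e c (br e' c') = Polynomial.X ^ min e' e * u ∧ ¬ Polynomial.X ∣ u := by
  refine ⟨Polynomial.X ^ (e' - min e' e) -
    Polynomial.C (c' * c⁻¹) * Polynomial.X ^ (e - min e' e), ?_, ?_⟩
  · rw [evb_br, mul_sub, ← pow_add, mul_left_comm, ← pow_add]
    congr 3 <;> omega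
  · rw [Polynomial.X_dvd_iff, Polynomial.coeff_zero_eq_eval_zero]
    simp only [Polynomial.eval_sub, Polynomial.eval_mul, Polynomial.eval_pow, Polynomial.eval_X,
      Polynomial.eval_C]
    rcases lt_trichotomy e e' with h1 | h1 | h1
    · rw [min_eq_right h1.le, Nat.sub_self, zero_pow (by omega)]
      simp [hc, hc']
    · subst h1
      simp only [min_self, Nat.sub_self, pow_zero, mul_one, sub_eq_zero]
      intro h2
      apply h
      field_simp at h2
      exact h2
    · rw [min_eq_left h1.le, Nat.sub_self, zero_pow (n := e - e') (by omega)]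
      simp

theorem br_cancel {e e' : ℕ} (he : 1 ≤ e) {c c' : K} (hc : c ≠ 0) (hc' : c' ≠ 0) (h : c ≠ c')
    (N : ℕ) (f : P2 K) (hf : br e' c' * f ∈ Ideal.span {br e c} + mm K ^ (N + min e' e)) :
    f ∈ Ideal.span {br e c} + mm K ^ N := by
  rw [mem_br_iff he hc] at hf ⊢
  obtain ⟨u, hu, hu'⟩ := evb_br_eq e e' hc hc' h
  rw [map_mul, hu, add_comm, pow_add, mul_assoc,
    mul_dvd_mul_iff_left (pow_ne_zero _ Polynomial.X_ne_zero)] at hf
  exact Polynomial.prime_X.pow_dvd_of_dvd_mul_left N hu' hf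

end Branch

theorem exists_columns {S : Set (Fin 2 →₀ ℕ)} (hf : (std S).Finite) :
    ∃ (s : Finset ℕ) (ε : ℕ → ℕ), (∀ j ∈ s, 1 ≤ ε j) ∧ (std S).ncard ≤ ∑ j ∈ s, (j + 1) * ε j ∧
      ∀ d ∉ std S, ∑ j ∈ s.filter (d 1 ≤ ·), ε j ≤ d 0 := by
  classical
  set n := (std S).ncard
  have hex : ∀ b, ∃ a, ex a b ∉ std S := fun b => ⟨n, fun h => by
    have := degree_lt_ncard hf h
    rw [degree_fin2, ex_zero] at this
    omega⟩
  let E : ℕ → ℕ := fun b => Nat.find (hex b)
  have hE1 : ∀ b, ex (E b) b ∉ std S := fun b => Nat.find_spec (hex b)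
  have hE2 : ∀ a b, ex a b ∉ std S → E b ≤ a := fun a b h => Nat.find_min' (hex b) h
  have hanti : ∀ b, E (b + 1) ≤ E b := fun b =>
    hE2 _ _ fun h => hE1 b (std_lower (le_fin2.2 (by simp)) h)
  have hzero : ∀ b, n ≤ b → E b = 0 := fun b hb => Nat.le_zero.1 (hE2 0 b fun h => by
    have := degree_lt_ncard hf h
    rw [degree_fin2, ex_one] at this
    omega)
  let ε : ℕ → ℕ := fun j => E j - E (j + 1)
  have tele : ∀ k b, ∑ j ∈ range k, (if b ≤ j then ε j else 0) + E (max b k) = E b := by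
    intro k b
    induction k with
    | zero => simp
    | succ k ih =>
      rw [sum_range_succ]
      split_ifs with h
      · rw [max_eq_right h] at ih
        rw [max_eq_right (by omega)]
        have := hanti k
        simp only [ε] at ih ⊢
        omega
      · rw [max_eq_left (by omega)] at ih
        rw [max_eq_left (by omega)]
        omega
  have tele' : ∀ b, ∑ j ∈ range n, (if b ≤ j then ε j else 0) = E b := by
    intro b
    have := tele n b
    rwa [hzero _ (le_max_right _ _), add_zero] at this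
  refine ⟨(range n).filter (ε · ≠ 0), ε, fun j hj => Nat.one_le_iff_ne_zero.2 (mem_filter.1 hj).2,
    ?_, fun d hd => ?_⟩
  · rw [sum_filter_of_ne fun j _ h => right_ne_zero_of_mul h]
    have e1 : ∑ j ∈ range n, (j + 1) * ε j = ∑ b ∈ range n, E b := by
      simp_rw [← tele']
      rw [sum_comm]
      refine sum_congr rfl fun j hj => ?_
      rw [← sum_filter, sum_const, smul_eq_mul]
      congr 1
      have : (range n).filter (· ≤ j) = range (j + 1) := by
        ext i
        simp only [mem_filter, mem_range] at hj ⊢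
        omega
      rw [this, card_range]
    rw [e1]
    have hsub : std S ⊆ ((range n).biUnion fun b => (range (E b)).image fun a => ex a b :
        Finset _) := by
      intro d hd
      simp only [coe_biUnion, coe_range, Set.mem_Iio, coe_image, Set.mem_iUnion, Set.mem_image]
      refine ⟨d 1, ?_, d 0, ?_, ex_eta d⟩
      · have := degree_lt_ncard hf hd
        rw [degree_fin2] at this
        omega
      · by_contra h
        exact hE1 (d 1) (std_lower (le_fin2.2 (by simp; omega)) hd)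
    refine (Set.ncard_le_ncard hsub (finite_toSet _)).trans ?_
    rw [Set.ncard_coe_finset]
    refine card_biUnion_le.trans (sum_le_sum fun b _ => card_image_le.trans (card_range _).le)
  · refine le_trans ?_ (hE2 (d 0) (d 1) (by rwa [ex_eta]))
    rw [← tele', ← sum_filter]
    exact sum_le_sum_of_subset (filter_subset_filter _ (filter_subset _ _))

theorem exists_chain {K : Type*} [Field K] [CharZero K] (s : Finset ℕ) (ε : ℕ → ℕ)
    (hε : ∀ j ∈ s, 1 ≤ ε j) {c : K} (hc : c ≠ 0) :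
    ∃ L : List (P2 K × ℕ), (∀ p ∈ L, ∃ j ∈ s, p.1 = br (ε j) ((j + 1 : ℕ) * c)) ∧ Dec L ∧
      tot L = ∑ j ∈ s, (j + 1) * ε j ∧
      ∀ a b : ℕ, X 1 ^ b * X 0 ^ a * ∏ j ∈ s.filter (b ≤ ·), br (ε j) ((j + 1 : ℕ) * c) ∈
        chain (mm K) L := by
  have hc' : ∀ j : ℕ, ((j + 1 : ℕ) : K) * c ≠ 0 := fun j =>
    mul_ne_zero (Nat.cast_ne_zero.2 (by omega)) hc
  have hne : ∀ i j : ℕ, i ≠ j → ((j + 1 : ℕ) : K) * c ≠ ((i + 1 : ℕ) : K) * c := by
    intro i j h h'
    have := Nat.cast_injective (R := K) (mul_right_cancel₀ hc h')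
    omega
  let κ : ℕ → ℕ → ℕ := fun i j => min (ε i) (ε j)
  let nn : ℕ → ℕ := fun j => (j + 1) * ε j + ∑ i ∈ s.filter (j < ·), κ i j
  have hsplit : ∀ j, ∑ i ∈ s.erase j, κ i j =
      ∑ i ∈ s.filter (· < j), κ i j + ∑ i ∈ s.filter (j < ·), κ i j := by
    intro j
    rw [← sum_union (disjoint_filter.2 fun x _ h1 h2 => by omega)]
    congr 1
    ext i
    simp only [mem_erase, mem_union, mem_filter]
    constructor
    · rintro ⟨h1, h2⟩
      rcases lt_or_gt_of_ne h1 with h | h
      exacts [Or.inl ⟨h2, h⟩, Or.inr ⟨h2, h⟩]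
    · rintro (⟨h1, h2⟩ | ⟨h1, h2⟩)
      exacts [⟨h2.ne, h1⟩, ⟨h2.ne', h1⟩]
  have hbound : ∀ (j : ℕ) (t u : Finset ℕ), t ⊆ u → ∑ i ∈ t, κ i j ≤ u.card * ε j := by
    intro j t u htu
    refine (sum_le_card_nsmul t _ (ε j) fun i _ => min_le_right _ _).trans ?_
    rw [smul_eq_mul]
    exact Nat.mul_le_mul_right _ (card_le_card htu)
  obtain ⟨L, hL1, hL2, -, hL4, hL5⟩ := lemmaS (mm K) (fun j => br (ε j) ((j + 1 : ℕ) * c)) κ
    (fun i j => min_comm _ _) s.card s rfl
    (fun i hi j hj => le_min (hε i hi) (hε j hj))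
    (fun i _ j hj hij N f => br_cancel (hε j hj) (hc' j) (hc' i) (hne i j hij) N f) nn (by
      intro j hj
      have h1 := hbound j (s.filter (· < j)) (range j) (by
        intro i hi
        exact mem_range.2 (mem_filter.1 hi).2)
      rw [card_range] at h1
      have := hε j hj
      rw [hsplit]
      simp only [nn]
      nlinarith)
  refine ⟨L, hL1, hL2, ?_, fun a b => hL5 _ fun j hj => ?_⟩
  · have e : ∑ j ∈ s, ∑ i ∈ s.filter (· < j), κ i j = ∑ j ∈ s, ∑ i ∈ s.filter (j < ·), κ i j := by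
      simp only [sum_filter]
      rw [sum_comm]
      refine sum_congr rfl fun j _ => sum_congr rfl fun i _ => ?_
      simp only [κ, min_comm]
    simp only [hsplit, nn, sum_add_distrib, e] at hL4
    omega
  · by_cases hb : b ≤ j
    · refine Ideal.mem_sup_left (Ideal.mul_mem_left _ _ ?_)
      rw [Ideal.mem_span_singleton]
      exact dvd_prod_of_mem (fun j => br (ε j) ((j + 1 : ℕ) * c)) (mem_filter.2 ⟨hj, hb⟩)
    · rw [mem_br_iff (hε j hj) (hc' j)]
      have h1 : nn j ≤ ε j * b + ∑ i ∈ s.filter (b ≤ ·), κ i j := by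
        have h2 : s.filter (j < ·) =
            (s.filter fun i => j < i ∧ i < b) ∪ s.filter (b ≤ ·) := by
          ext i
          simp only [mem_union, mem_filter]
          constructor
          · rintro ⟨h1, h2⟩
            by_cases h : i < b
            exacts [Or.inl ⟨h1, h2, h⟩, Or.inr ⟨h1, by omega⟩]
          · rintro (⟨h1, h2⟩ | ⟨h1, h2⟩)
            exacts [⟨h1, h2.1⟩, ⟨h1, by omega⟩]
        have h3 := hbound j (s.filter fun i => j < i ∧ i < b) (Ioo j b) (by
          intro i hi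
          exact mem_Ioo.2 (mem_filter.1 hi).2)
        rw [Nat.card_Ioo] at h3
        simp only [nn]
        rw [h2, sum_union (disjoint_filter.2 fun x _ h1 h2 => by omega)]
        obtain ⟨r, rfl⟩ : ∃ r, b = j + 1 + r := ⟨b - (j + 1), by omega⟩
        rw [show j + 1 + r - j - 1 = r by omega] at h3
        nlinarith
      refine (pow_dvd_pow _ h1).trans ?_
      rw [pow_add, map_mul, map_mul, map_prod, ← prod_pow_eq_pow_sum]
      refine mul_dvd_mul (Dvd.dvd.mul_right ?_ _) (prod_dvd_prod_of_dvd _ _ fun i hi => ?_)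
      · rw [map_pow, pow_mul]
        refine pow_dvd_pow_of_dvd ?_ _
        simp [evb]
      · have hi' : b ≤ i := (mem_filter.1 hi).2
        obtain ⟨u, hu, -⟩ := evb_br_eq (ε j) (ε i) (hc' j) (hc' i) (hne i j (by omega))
        exact ⟨u, hu⟩

theorem Cl.anti {R : Type*} [CommRing R] [TopologicalSpace R] {m J : Ideal R} {n n' : ℕ}
    (h : n ≤ n') (H : Cl m n' J) : Cl m n J := by
  intro s hs V hV
  obtain ⟨Γ, hΓ, h'⟩ := H s hs V hV
  refine ⟨Γ, hΓ, fun g hg => ?_⟩
  obtain ⟨g', h1, h2⟩ := h' g hg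
  exact ⟨g', (add_le_add le_rfl (Ideal.pow_le_pow_right h) : _ ≤ Ideal.span {Γ} + m ^ n) h1, h2⟩

theorem cl_monI {K R : Type*} [Field K] [CharZero K] [CommRing R] [Algebra K R]
    [TopologicalSpace R] [IsTopologicalRing R] {m : Ideal R} {δ : ℕ → K} (St : Setup m δ)
    (π : P2 K →ₐ[K] R) (hπ : Ideal.span {π (X 0), π (X 1)} = m) {S : Set (Fin 2 →₀ ℕ)}
    (hn : 1 ≤ (std S).ncard) : Cl m (std S).ncard ((monI K S).map π) := by
  have hf : (std S).Finite := Set.finite_of_ncard_pos hn
  obtain ⟨s, ε, hε, hsum, hd⟩ := exists_columns hf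
  choose L hL1 hL2 hL3 hL4 using fun k => exists_chain s ε hε (St.ne k)
  have hm : (mm K).map π.toRingHom ≤ m := by
    rw [mm_eq, Ideal.map_span, ← hπ, Set.image_pair]
    rfl
  refine Cl.step (J' := fun k => chain m ((L k).map fun p => (π.toRingHom p.1, p.2))) ?_
    (Filter.Eventually.of_forall fun k => ?_)
  · rw [Ideal.map_le_iff_le_comap]
    refine monI_induction fun d hdS => ?_
    obtain ⟨a, ha⟩ := Nat.exists_eq_add_of_le (hd d hdS)
    have h1 := mem_lowLim_of_cont
      (J := fun k => chain m ((L k).map fun p => (π.toRingHom p.1, p.2))) St.tend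
      (F := fun t => π (X 1) ^ d 1 * π (X 0) ^ a * ∏ j ∈ s.filter (d 1 ≤ ·),
        (π (X 0) ^ ε j - ((j + 1 : ℕ) : R) * t * π (X 1)))
      (by fun_prop) (Filter.Eventually.of_forall fun k => by
        have := chain_map π.toRingHom hm (L k) _ (hL4 k a (d 1))
        convert this using 1
        simp [br])
    rw [Ideal.mem_comap, ← ex_eta d, monomial_ex]
    convert h1 using 1
    simp only [mul_zero, zero_mul, sub_zero, prod_pow_eq_pow_sum, map_mul, map_pow]
    rw [ha]
    ring
  · have h1 := cl_chain St ((L k).map fun p => (π.toRingHom p.1, p.2)) (by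
      intro h
      have h2 := hL3 k
      rw [List.map_eq_nil_iff.1 h] at h2
      simp only [tot] at h2
      omega) (π (X 0)) (dec_map _ _ (hL2 k)) (by
      intro p hp
      obtain ⟨q, hq, rfl⟩ := List.mem_map.1 hp
      obtain ⟨j, hj, hq'⟩ := hL1 k q hq
      rw [Set.pair_comm]
      rw [Set.pair_comm] at hπ
      have hne : -(((j + 1 : ℕ) : K) * δ k) ≠ 0 :=
        neg_ne_zero.2 (mul_ne_zero (Nat.cast_ne_zero.2 (by omega)) (St.ne k))
      refine span_pair_of_unit hπ ((IsUnit.mk0 _ hne).map (algebraMap K R))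
        (η := π (X 0) ^ (ε j - 1)) ?_
      obtain ⟨r, hr⟩ := Nat.exists_eq_add_of_le' (hε j hj)
      rw [hq', hr]
      simp [br]
      ring)
    rw [tot_map, hL3] at h1
    exact h1.anti hsum

end Pool.Agent.MP_4403b8_ag

end MrgPart4

-- marker of a merged file
example : 731051 + 745112 = 731051 + 745112 := rfl
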