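import Mathlib.Algebra.DualNumber
import Mathlib.RingTheory.PicardGroup
import Mathlib.Analysis.Complex.Polynomial.Basic
import Mathlib.Analysis.CStarAlgebra.Classes
import Mathlib.RingTheory.Nullstellensatz
import Pool.Agent.MP_4403b8_ag.Step0
import Pool.Agent.MP_4403b8_ag.Defs
import Mathlib.FieldTheory.RatFunc.AsPolynomial
import Mathlib.FieldTheory.IsAlgClosed.Classification
import Mathlib.Order.CompletePartialOrder
import Mathlib.Data.Finsupp.Encodable

-- ======== part 0: formerly Pool.Agent.MP_4403b8_ag.Frame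
section MrgPart0

/-!
Framed families, base change, and the criterion for a monomorphism.
-/

set_option autoImplicit false

namespace Pool.Agent.MP_4403b8_ag

open MvPolynomial

open Polynomial in
/-- a free family of rank `n` over the affine line -/
def IsFamily (n : ℕ) (F : Ideal (MvPolynomial (Fin 2) ℂ[X])) : Prop :=
  Module.Free ℂ[X] (MvPolynomial (Fin 2) ℂ[X] ⧸ F) ∧
    Module.Finite ℂ[X] (MvPolynomial (Fin 2) ℂ[X] ⧸ F) ∧
    Module.finrank ℂ[X] (MvPolynomial (Fin 2) ℂ[X] ⧸ F) = n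

/-- coordinates on a quotient that is free of rank `n` -/
structure Frame {B : Type} [CommRing B] (n : ℕ) (F : Ideal (P2 B)) : Type where
  ρ : P2 B →ₗ[B] (Fin n → B)
  b : Fin n → P2 B
  ker : ∀ p, p ∈ F ↔ ρ p = 0
  sec : ∀ i, ρ (b i) = Pi.single i 1

section

variable {A B : Type} [CommRing A] [CommRing B] {n : ℕ} {F : Ideal (P2 B)}

theorem Frame.surj (Fr : Frame n F) : Function.Surjective Fr.ρ := by
  intro v
  refine ⟨∑ i, v i • Fr.b i, ?_⟩
  simp only [map_sum, map_smul, Fr.sec]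
  ext j
  simp [Pi.single_apply]

theorem Frame.sub_mem (Fr : Frame n F) (p : P2 B) : p - ∑ i, Fr.ρ p i • Fr.b i ∈ F := by
  rw [Fr.ker]
  simp only [map_sub, map_sum, map_smul, Fr.sec]
  ext j
  simp [Pi.single_apply]

theorem Frame.equiv (Fr : Frame n F) : Nonempty ((P2 B ⧸ F) ≃ₗ[B] (Fin n → B)) :=
  quot_equiv_of_ker F Fr.ρ Fr.surj Fr.ker

theorem Frame.finite (Fr : Frame n F) : Module.Finite B (P2 B ⧸ F) := by
  obtain ⟨e⟩ := Fr.equiv
  exact Module.Finite.equiv e.symm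

theorem Frame.finrank [Nontrivial B] (Fr : Frame n F) : Module.finrank B (P2 B ⧸ F) = n := by
  obtain ⟨e⟩ := Fr.equiv
  rw [e.finrank_eq]
  simp

theorem Frame.of_free [Nontrivial B] [Module.Free B (P2 B ⧸ F)] [Module.Finite B (P2 B ⧸ F)] :
    Nonempty (Frame (Module.finrank B (P2 B ⧸ F)) F) := by
  let e := Module.finBasis B (P2 B ⧸ F)
  choose b hb using fun i => Ideal.Quotient.mk_surjective (I := F) (e i)
  refine ⟨⟨e.equivFun.toLinearMap ∘ₗ (Ideal.Quotient.mkₐ B F).toLinearMap, b, fun p => ?_,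
    fun i => ?_⟩⟩
  · change _ ↔ e.equivFun (Ideal.Quotient.mk F p) = 0
    rw [LinearEquiv.map_eq_zero_iff, Ideal.Quotient.eq_zero_iff_mem]
  · change e.equivFun (Ideal.Quotient.mk F (b i)) = _
    rw [hb]
    ext j
    simp [Pi.single_apply, eq_comm]

theorem Frame.exists_map (Fr : Frame n F) (π : B →+* A) :
    ∃ Fr' : Frame n (F.map (map π)), ∀ p i, Fr'.ρ (map π p) i = π (Fr.ρ p i) := by
  let ρ' : P2 A →ₗ[A] (Fin n → A) :=
    (basisMonomials (Fin 2) A).constr A fun d i => π (Fr.ρ (monomial d 1) i)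
  have hm : ∀ d, ρ' (monomial d 1) = fun i => π (Fr.ρ (monomial d 1) i) := fun d =>
    (basisMonomials (Fin 2) A).constr_basis A _ d
  have hρ : ∀ p i, ρ' (map π p) i = π (Fr.ρ p i) := by
    intro p i
    induction p using MvPolynomial.induction_on' with
    | monomial d a =>
      have e1 : map π (monomial d a) = π a • (monomial d 1 : P2 A) := by
        rw [map_monomial, smul_monomial, smul_eq_mul, mul_one]
      have e2 : (monomial d a : P2 B) = a • monomial d 1 := by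
        rw [smul_monomial, smul_eq_mul, mul_one]
      rw [e1, e2, map_smul, map_smul, hm]
      simp
    | add p q hp hq => simp only [map_add, Pi.add_apply, hp, hq]
  have hsec : ∀ i, ρ' (map π (Fr.b i)) = Pi.single i 1 := by
    intro i
    ext j
    rw [hρ, Fr.sec]
    simp [Pi.single_apply, apply_ite π]
  have hsub : ∀ p : P2 A, p - ∑ i, ρ' p i • map π (Fr.b i) ∈ F.map (map π) := by
    intro p
    induction p using MvPolynomial.induction_on' with
    | monomial d a =>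
      have e2 : (monomial d a : P2 A) = a • monomial d 1 := by
        rw [smul_monomial, smul_eq_mul, mul_one]
      have h1 := Ideal.mul_mem_left _ (C a) (Ideal.mem_map_of_mem (map π) (Fr.sub_mem (monomial d 1)))
      convert h1 using 1
      rw [e2, map_smul, hm]
      simp only [map_sub, map_sum, map_monomial, map_one, smul_eq_C_mul, map_mul, map_C, mul_sub,
        Finset.mul_sum, Pi.smul_apply, smul_eq_mul, mul_assoc]
    | add p q hp hq =>
      convert Ideal.add_mem _ hp hq using 1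
      simp only [map_add, Pi.add_apply, add_smul, Finset.sum_add_distrib]
      ring
  refine ⟨⟨ρ', fun i => map π (Fr.b i), fun p => ⟨fun hp => ?_, fun hp => ?_⟩, hsec⟩, hρ⟩
  · have key : ∀ g ∈ F, ∀ q : P2 A, ρ' (q * map π g) = 0 := by
      intro g hg q
      induction q using MvPolynomial.induction_on' with
      | monomial d a =>
        have e : monomial d a * map π g = a • map π (monomial d 1 * g) := by
          rw [map_mul, map_monomial, map_one, ← smul_mul_assoc, smul_monomial, smul_eq_mul, mul_one]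
        rw [e, map_smul]
        ext i
        rw [Pi.smul_apply, hρ, (Fr.ker _).1 (F.mul_mem_left _ hg)]
        simp
      | add p q hp hq => rw [add_mul, map_add, hp, hq, add_zero]
    have : ∀ q, ρ' (q * p) = 0 := by
      refine Submodule.span_induction (p := fun p _ => ∀ q, ρ' (q * p) = 0) ?_ ?_ ?_ ?_ hp
      · rintro _ ⟨g, hg, rfl⟩ q
        exact key g hg q
      · intro q
        simp
      · intro x y _ _ hx hy q
        rw [mul_add, map_add, hx, hy, add_zero]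
      · intro a x _ hx q
        rw [smul_eq_mul, ← mul_assoc, hx]
    simpa using this 1
  · have := hsub p
    simpa [hp] using this

end

section Mono

open Polynomial in
theorem map_fib (F : Ideal (P2 ℂ[X])) {A B : Type} [CommRing A] [Algebra ℂ A] [CommRing B]
    [Algebra ℂ B] (π : B →ₐ[ℂ] A) (s : B) :
    (fib F s).map (MvPolynomial.map π.toRingHom) = fib F (π s) := by
  unfold fib
  rw [Ideal.map_map]
  congr 1
  refine RingHom.ext fun p => ?_
  rw [RingHom.comp_apply, MvPolynomial.map_map]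
  congr 2
  refine RingHom.ext fun q => ?_
  exact (Polynomial.aeval_algHom_apply π s q).symm

open Polynomial in
theorem fib_le_iff {G : Ideal (P2 ℂ[X])} {A : Type} [CommRing A] [Algebra ℂ A] {b : A}
    {N : Ideal (P2 A)} :
    fib G b ≤ N ↔ ∀ g ∈ G, MvPolynomial.map (Polynomial.aeval b).toRingHom g ∈ N :=
  Ideal.map_le_iff_le_comap

open Polynomial in
theorem mem_fib {G : Ideal (P2 ℂ[X])} {A : Type} [CommRing A] [Algebra ℂ A] (b : A)
    {g : P2 ℂ[X]} (hg : g ∈ G) : MvPolynomial.map (Polynomial.aeval b).toRingHom g ∈ fib G b :=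
  Ideal.mem_map_of_mem _ hg

open Polynomial in
/-- the derivative of `g` at `b` in the parameter direction is `g1` -/
def IsDer (g : P2 ℂ[X]) (b : ℂ) (g1 : P2 ℂ) : Prop :=
  ∀ d, g1.coeff d = (derivative (g.coeff d)).eval b

open Polynomial TrivSqZeroExt DualNumber in
theorem mono_of {n : ℕ} {F G : Ideal (P2 ℂ[X])} (Fr : Frame n F) (h : P2 ℂ)
    (hglue : ∀ (A : Type) [CommRing A] [Algebra ℂ A] (a b : A),
      MvPolynomial.aeval ![a, b] h = 0 → fib G b ≤ fib F a)
    (hpt : ∀ a b : ℂ, fib G b ≤ fib F a → MvPolynomial.aeval ![a, b] h = 0)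
    (htan : ∀ a b : ℂ, MvPolynomial.aeval ![a, b] h = 0 →
      ∃ g ∈ G, ∃ g1 ∉ fib F a, IsDer g b g1)
    (A : Type) [CommRing A] [Algebra ℂ A] (a b : A) (hab : fib G b ≤ fib F a) :
    MvPolynomial.aeval ![a, b] h = 0 := by
  obtain ⟨FrB, -⟩ := Fr.exists_map (Polynomial.aeval (MvPolynomial.X 0 : P2 ℂ)).toRingHom
  let E : Ideal (P2 ℂ) := Ideal.span {e | ∃ g ∈ G, ∃ i,
    e = FrB.ρ (MvPolynomial.map (Polynomial.aeval (MvPolynomial.X 1 : P2 ℂ)).toRingHom g) i}
  have char : ∀ (A : Type) [CommRing A] [Algebra ℂ A] (a b : A),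
      fib G b ≤ fib F a ↔ ∀ e ∈ E, MvPolynomial.aeval ![a, b] e = 0 := by
    intro A _ _ a b
    let π : P2 ℂ →ₐ[ℂ] A := MvPolynomial.aeval ![a, b]
    obtain ⟨Fr', hFr'⟩ := FrB.exists_map π.toRingHom
    have e1 : fib F a = (fib F (MvPolynomial.X 0 : P2 ℂ)).map (MvPolynomial.map π.toRingHom) := by
      rw [map_fib]
      simp [π]
    have e2 : ∀ g : P2 ℂ[X], MvPolynomial.map (Polynomial.aeval b).toRingHom g =
        MvPolynomial.map π.toRingHom
          (MvPolynomial.map (Polynomial.aeval (MvPolynomial.X 1 : P2 ℂ)).toRingHom g) := by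
      intro g
      rw [MvPolynomial.map_map]
      congr 2
      refine RingHom.ext fun q => ?_
      have := Polynomial.aeval_algHom_apply π (MvPolynomial.X 1) q
      simp only [π, MvPolynomial.aeval_X] at this
      exact this
    rw [fib_le_iff, e1]
    constructor
    · intro H e he
      have : E ≤ RingHom.ker π.toRingHom := by
        rw [Ideal.span_le]
        rintro _ ⟨g, hg, i, rfl⟩
        have h1 := H g hg
        rw [e2] at h1
        have h2 := congrFun ((Fr'.ker _).1 h1) i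
        rw [hFr'] at h2
        exact h2
      exact this he
    · intro H g hg
      rw [e2]
      refine (Fr'.ker _).2 (funext fun i => ?_)
      rw [hFr']
      exact H _ (Ideal.subset_span ⟨g, hg, i, rfl⟩)
  have hE : E ≤ Ideal.span {h} := by
    intro e he
    have hq : ∀ p : P2 ℂ, MvPolynomial.aeval ![Ideal.Quotient.mk (Ideal.span {h}) (MvPolynomial.X 0),
        Ideal.Quotient.mk (Ideal.span {h}) (MvPolynomial.X 1)] p =
        Ideal.Quotient.mk (Ideal.span {h}) p := by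
      intro p
      have : (MvPolynomial.aeval ![Ideal.Quotient.mk (Ideal.span {h}) (MvPolynomial.X 0),
        Ideal.Quotient.mk (Ideal.span {h}) (MvPolynomial.X 1)] : P2 ℂ →ₐ[ℂ] _) =
          Ideal.Quotient.mkₐ ℂ (Ideal.span {h}) := by
        refine MvPolynomial.algHom_ext fun i => ?_
        fin_cases i <;> simp
      rw [this]
      rfl
    have h1 := (char _ _ _).1 (hglue (P2 ℂ ⧸ Ideal.span {h})
      (Ideal.Quotient.mk _ (MvPolynomial.X 0)) (Ideal.Quotient.mk _ (MvPolynomial.X 1))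
      (by rw [hq, Ideal.Quotient.eq_zero_iff_mem]; exact Ideal.subset_span rfl)) e he
    rwa [hq, Ideal.Quotient.eq_zero_iff_mem] at h1
  by_contra hne
  have hhE : h ∉ E := fun hh => hne ((char A a b).1 hab h hh)
  let E' : Ideal (P2 ℂ) := Submodule.comap (LinearMap.mulRight (P2 ℂ) h) E
  have hE' : E' ≠ ⊤ := by
    intro htop
    have : (1 : P2 ℂ) ∈ E' := htop ▸ Submodule.mem_top
    exact hhE (by simpa [E'] using this)
  obtain ⟨M, hM, hEM⟩ := Ideal.exists_le_maximal E' hE'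
  obtain ⟨x, rfl⟩ := (MvPolynomial.isMaximal_iff_eq_vanishingIdeal_singleton).1 hM
  have hx : ![x 0, x 1] = x := by
    ext i
    fin_cases i <;> rfl
  have hfac : ∀ e ∈ E, ∃ q, e = q * h ∧ MvPolynomial.aeval ![x 0, x 1] q = 0 := by
    intro e he
    obtain ⟨q, rfl⟩ := Ideal.mem_span_singleton'.1 (hE he)
    refine ⟨q, rfl, ?_⟩
    rw [hx]
    exact (MvPolynomial.mem_vanishingIdeal_singleton_iff x q).1 (hEM he)
  have hle : fib G (x 1) ≤ fib F (x 0) := by
    rw [char]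
    intro e he
    obtain ⟨q, rfl, hq⟩ := hfac e he
    rw [map_mul, hq, zero_mul]
  have hh0 := hpt _ _ hle
  obtain ⟨g, hg, g1, hg1, hder⟩ := htan _ _ hh0
  let ι : ℂ →ₐ[ℂ] ℂ[ε] := Algebra.ofId ℂ ℂ[ε]
  have hfst : ∀ p : P2 ℂ, fst (MvPolynomial.aeval ![ι (x 0), ι (x 1) + ε] p) =
      MvPolynomial.aeval ![x 0, x 1] p := by
    intro p
    have : (fstHom ℂ ℂ ℂ).comp (MvPolynomial.aeval ![ι (x 0), ι (x 1) + ε]) =
        MvPolynomial.aeval ![x 0, x 1] := by
      refine MvPolynomial.algHom_ext fun i => ?_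
      fin_cases i <;> simp [ι, Algebra.ofId_apply, TrivSqZeroExt.algebraMap_eq_inl]
    exact DFunLike.congr_fun this p
  have hle' : fib G (ι (x 1) + ε) ≤ fib F (ι (x 0)) := by
    rw [char]
    intro e he
    obtain ⟨q, rfl, hq⟩ := hfac e he
    rw [map_mul]
    ext
    · rw [fst_mul, hfst, hq, zero_mul, fst_zero]
    · rw [DualNumber.snd_mul, hfst, hfst, hq, hh0]
      simp
  obtain ⟨Fa, -⟩ := Fr.exists_map (Polynomial.aeval (x 0)).toRingHom
  obtain ⟨Fe, hFe⟩ := Fa.exists_map ι.toRingHom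
  have h1 := hle' (mem_fib _ hg)
  have h2 : MvPolynomial.map ι.toRingHom (MvPolynomial.map (Polynomial.aeval (x 1)).toRingHom g) ∈
      fib F (ι (x 0)) := by
    rw [← map_fib]
    exact Ideal.mem_map_of_mem _ (hle (mem_fib _ hg))
  have h3 := Ideal.sub_mem _ h1 h2
  have e : MvPolynomial.map (Polynomial.aeval (ι (x 1) + ε)).toRingHom g -
      MvPolynomial.map ι.toRingHom (MvPolynomial.map (Polynomial.aeval (x 1)).toRingHom g) =
      (ε : ℂ[ε]) • MvPolynomial.map ι.toRingHom g1 := by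
    ext1 d
    simp only [MvPolynomial.coeff_sub, MvPolynomial.coeff_map, MvPolynomial.coeff_smul, hder d]
    change Polynomial.aeval _ _ - ι (Polynomial.aeval _ _) = ε * ι _
    rw [Polynomial.aeval_add_of_sq_eq_zero _ _ _ (by rw [sq, eps_mul_eps]),
      Polynomial.aeval_algHom_apply, Polynomial.aeval_algHom_apply, Polynomial.coe_aeval_eq_eval]
    ring
  rw [e, ← map_fib] at h3
  have h4 := (Fe.ker _).1 h3
  refine hg1 ((Fa.ker _).2 (funext fun i => ?_))
  have h5 := congrFun h4 i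
  rw [map_smul, Pi.smul_apply, hFe] at h5
  have h6 := congrArg snd h5
  simpa [ι, Algebra.ofId_apply, TrivSqZeroExt.algebraMap_eq_inl] using h6

end Mono

end Pool.Agent.MP_4403b8_ag

end MrgPart0

-- ======== part 1: formerly Pool.Agent.MP_4403b8_ag.Family
section MrgPart1

/-!
From a pair of polynomial arcs to an embedded projective line.
-/

set_option autoImplicit false

namespace Pool.Agent.MP_4403b8_ag

open MvPolynomial
open scoped Polynomial

/-- evaluation of the parameter -/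
noncomputable abbrev ev {A : Type} [CommRing A] [Algebra ℂ A] (a : A) : P2 ℂ[X] →+* P2 A :=
  MvPolynomial.map (Polynomial.aeval a).toRingHom

/-- constant family -/
noncomputable abbrev cst : P2 ℂ →+* P2 ℂ[X] := MvPolynomial.map Polynomial.C

/-- the parameter -/
noncomputable abbrev tt : P2 ℂ[X] := C Polynomial.X

theorem ev_tt {A : Type} [CommRing A] [Algebra ℂ A] (a : A) : ev a tt = C a := by
  simp [ev, tt]

theorem coeff_ev (a : ℂ) (g : P2 ℂ[X]) (d : Fin 2 →₀ ℕ) :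
    (ev a g).coeff d = (g.coeff d).eval a := by
  rw [coeff_map]
  exact Polynomial.coe_aeval_eq_eval a ▸ rfl

theorem ev_cst (a : ℂ) (g : P2 ℂ) : ev a (cst g) = g := by
  ext d
  rw [coeff_ev, coeff_map, Polynomial.eval_C]

theorem exists_isDer (g : P2 ℂ[X]) (b : ℂ) : ∃ g1, IsDer g b g1 := by
  classical
  refine ⟨∑ d ∈ g.support, monomial d ((Polynomial.derivative (g.coeff d)).eval b), fun d => ?_⟩
  rw [coeff_sum]
  simp only [coeff_monomial]
  rw [Finset.sum_ite_eq']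
  split_ifs with h
  · rfl
  · rw [notMem_support_iff.1 h]
    simp

theorem isDer_zero (g0 g1 : P2 ℂ) (ρ : P2 ℂ[X]) :
    IsDer (cst g0 + tt * cst g1 + tt ^ 2 * ρ) 0 g1 := by
  intro d
  rw [tt, ← map_pow]
  simp only [coeff_add, coeff_C_mul, coeff_map]
  simp

/-- reversal of the parameter -/
def Rev (h h' : P2 ℂ[X]) (D : ℕ) : Prop :=
  ∀ (A : Type) [CommRing A] [Algebra ℂ A] (a b : A), a * b = 1 → ev b h' = C (b ^ D) * ev a h

theorem exists_rev (h : P2 ℂ[X]) : ∃ h' D, Rev h h' D := by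
  have hadd : ∀ p q : P2 ℂ[X], (∃ h' D, Rev p h' D) → (∃ h' D, Rev q h' D) →
      ∃ h' D, Rev (p + q) h' D := by
    rintro p q ⟨p', D, hp⟩ ⟨q', E, hq⟩
    refine ⟨tt ^ E * p' + tt ^ D * q', D + E, fun A _ _ a b hab => ?_⟩
    simp only [map_add, map_mul, map_pow, ev_tt, hp A a b hab, hq A a b hab]
    ring
  have hmul : ∀ p q : P2 ℂ[X], (∃ h' D, Rev p h' D) → (∃ h' D, Rev q h' D) →
      ∃ h' D, Rev (p * q) h' D := by
    rintro p q ⟨p', D, hp⟩ ⟨q', E, hq⟩
    refine ⟨p' * q', D + E, fun A _ _ a b hab => ?_⟩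
    simp only [map_mul, map_pow, hp A a b hab, hq A a b hab]
    ring
  have ht : ∃ h' D, Rev tt h' D := ⟨1, 1, fun A _ _ a b hab => by
    rw [ev_tt, ← map_mul, pow_one, mul_comm, hab, map_one, map_one]⟩
  induction h using MvPolynomial.induction_on with
  | C p =>
    induction p using Polynomial.induction_on with
    | C c => exact ⟨C (Polynomial.C c), 0, fun A _ _ a b _ => by simp [ev]⟩
    | add p q hp hq =>
      rw [map_add]
      exact hadd _ _ hp hq
    | monomial n c ih =>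
      rw [pow_succ, ← mul_assoc, map_mul]
      exact hmul _ _ ih ht
  | add p q hp hq => exact hadd _ _ hp hq
  | mul_X p i hp => exact hmul _ _ hp ⟨X i, 0, fun A _ _ a b _ => by simp [ev]⟩

section Sat

variable {K : Type} [Field K] [Algebra ℂ K]

theorem glue_le {κ κ' : K} (hκ : κ' * κ = 1) (N : Ideal (P2 K)) {A : Type} [CommRing A]
    [Algebra ℂ A] {a b : A} (hab : a * b = 1) :
    fib (N.comap (ev κ')) b ≤ fib (N.comap (ev κ)) a := by
  rw [fib_le_iff]
  intro g hg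
  obtain ⟨g', D, hr⟩ := exists_rev g
  have h1 : g' ∈ N.comap (ev κ) := by
    rw [Ideal.mem_comap, hr K κ' κ hκ]
    exact Ideal.mul_mem_left _ _ hg
  have h2 := Ideal.mul_mem_left _ (C (b ^ D)) (mem_fib a h1)
  change C (b ^ D) * ev a g' ∈ _ at h2
  rw [hr A b a (by rw [mul_comm, hab]), ← mul_assoc, ← map_mul, ← mul_pow, mul_comm b a, hab,
    one_pow, map_one, one_mul] at h2
  exact h2

theorem family_sat {κ : K} (hκ : Transcendental ℂ κ) {n : ℕ} {Γ : P2 ℂ[X]} (hΓ : Γ ∈ mm ℂ[X])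
    (hs : ∃ i : Fin 2, Γ.coeff (Finsupp.single i 1) ≠ 0) {F : Ideal (P2 ℂ[X])}
    (hF : F = (Ideal.span {ev κ Γ} + mm K ^ n).comap (ev κ)) :
    IsFamily n F ∧ Nonempty (Frame n F) := by
  have hinj : Function.Injective (Polynomial.aeval κ : ℂ[X] →ₐ[ℂ] K) :=
    transcendental_iff_injective.1 hκ
  have hm : mm ℂ[X] ^ n ≤ F := fun p hp => hF ▸ Ideal.mem_sup_right (map_mem_pow _ hp)
  have hfin : Module.Finite ℂ[X] (P2 ℂ[X] ⧸ F) := finite_quot hm
  have htf : Module.IsTorsionFree ℂ[X] (P2 ℂ[X] ⧸ F) := by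
    refine .of_smul_eq_zero fun r x hx => ?_
    obtain ⟨p, rfl⟩ := Ideal.Quotient.mk_surjective x
    rw [← mk_smul, Ideal.Quotient.eq_zero_iff_mem, hF, Ideal.mem_comap, smul_eq_C_mul, map_mul,
      map_C] at hx
    by_cases hr : r = 0
    · exact Or.inl hr
    · right
      rw [Ideal.Quotient.eq_zero_iff_mem, hF, Ideal.mem_comap]
      refine (Ideal.unit_mul_mem_iff_mem _ (IsUnit.map C (IsUnit.mk0 _ ?_))).1 hx
      exact fun h => hr (hinj (h.trans (map_zero _).symm))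
  have hfree : Module.Free ℂ[X] (P2 ℂ[X] ⧸ F) := inferInstance
  obtain ⟨Fr⟩ := Frame.of_free (F := F)
  obtain ⟨FrK, -⟩ := Fr.exists_map (Polynomial.aeval κ).toRingHom
  have hFK : F.map (ev κ) = Ideal.span {ev κ Γ} + mm K ^ n := by
    refine le_antisymm (hF ▸ Ideal.map_comap_le) (sup_le ?_ ?_)
    · rw [Ideal.span_singleton_le_iff_mem]
      exact Ideal.mem_map_of_mem _ (hF ▸ Ideal.mem_sup_left (Ideal.subset_span rfl))
    · exact (pow_le_map_pow _ n).trans (Ideal.map_mono hm)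
  have h1 := FrK.finrank
  rw [hFK] at h1
  have h2 := le_colen_curv (map_mem_mm (Polynomial.aeval κ).toRingHom hΓ) n
  have h3 := colen_curv_le (map_mem_mm (Polynomial.aeval κ).toRingHom hΓ) (by
    obtain ⟨i, hi⟩ := hs
    refine ⟨i, ?_⟩
    rw [coeff_map]
    exact fun h => hi (hinj (h.trans (map_zero _).symm))) n
  have h4 : Module.finrank ℂ[X] (P2 ℂ[X] ⧸ F) = n := by
    rw [← h1]
    exact le_antisymm h3 h2
  exact ⟨⟨hfree, hfin, h4⟩, ⟨h4 ▸ Fr⟩⟩

end Sat

theorem Frame.fib_finrank {n : ℕ} {F : Ideal (P2 ℂ[X])} (Fr : Frame n F) (a : ℂ) :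
    Module.Finite ℂ (P2 ℂ ⧸ fib F a) ∧ Module.finrank ℂ (P2 ℂ ⧸ fib F a) = n := by
  obtain ⟨Fa, -⟩ := Fr.exists_map (Polynomial.aeval a).toRingHom
  exact ⟨Fa.finite, Fa.finrank⟩

/-- an arc of curvilinear ideals tending to `I` with a nonzero tangent vector -/
structure GoodArc (n : ℕ) (I : Ideal (P2 ℂ)) (Γ : P2 ℂ[X]) (e : ℕ) : Prop where
  mem : Γ ∈ mm ℂ[X]
  lim : ∀ g ∈ I, ∃ ρ, tt ^ e * (cst g + tt * ρ) ∈ Ideal.span {Γ} + mm ℂ[X] ^ n
  tan : ∃ g0 g1 ρ, g1 ∉ I ∧
    tt ^ e * (cst g0 + tt * cst g1 + tt ^ 2 * ρ) ∈ Ideal.span {Γ} + mm ℂ[X] ^ n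

/-- one chart of the curve -/
structure Chart (n : ℕ) (I : Ideal (P2 ℂ)) (Γ : P2 ℂ[X]) : Prop where
  arc : ∃ e, GoodArc n I Γ e
  smooth : ∀ a : ℂ, a ≠ 0 → ∃ i : Fin 2, (ev a Γ).coeff (Finsupp.single i 1) ≠ 0
  inj : ∀ a b : ℂ, a ≠ 0 → b ≠ 0 → ev b Γ ∈ Ideal.span {ev a Γ} + mm ℂ ^ n → a = b
  imm : ∀ a : ℂ, a ≠ 0 → ∀ g1, IsDer Γ a g1 → g1 ∉ Ideal.span {ev a Γ} + mm ℂ ^ n
  nI : ∀ a : ℂ, a ≠ 0 → ev a Γ ∉ I

theorem Chart.family {K : Type} [Field K] [Algebra ℂ K] {κ : K} (hκ : Transcendental ℂ κ)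
    {n : ℕ} {I : Ideal (P2 ℂ)} [Module.Finite ℂ (P2 ℂ ⧸ I)]
    (hI : Module.finrank ℂ (P2 ℂ ⧸ I) = n) {Γ : P2 ℂ[X]} (C : Chart n I Γ)
    {F : Ideal (P2 ℂ[X])} (hF : F = (Ideal.span {ev κ Γ} + mm K ^ n).comap (ev κ)) :
    IsFamily n F ∧ Nonempty (Frame n F) ∧ Γ ∈ F ∧ fib F (0 : ℂ) = I ∧
      (∀ a b : ℂ, fib F b ≤ fib F a → a = b) ∧
      ∀ a : ℂ, ∃ g ∈ F, ∃ g1 ∉ fib F a, IsDer g a g1 := by
  obtain ⟨e, G⟩ := C.arc
  have hinj : Function.Injective (Polynomial.aeval κ : ℂ[X] →ₐ[ℂ] K) :=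
    transcendental_iff_injective.1 hκ
  have hκ0 : κ ≠ 0 := by
    rintro rfl
    exact hκ isAlgebraic_zero
  obtain ⟨hfam, ⟨Fr⟩⟩ := family_sat hκ G.mem (by
    obtain ⟨i, hi⟩ := C.smooth 1 one_ne_zero
    refine ⟨i, fun h => hi ?_⟩
    rw [coeff_ev, h, Polynomial.eval_zero]) hF
  have hΓF : Γ ∈ F := hF ▸ Ideal.mem_sup_left (Ideal.subset_span rfl)
  have hm : mm ℂ[X] ^ n ≤ F := fun p hp => hF ▸ Ideal.mem_sup_right (map_mem_pow _ hp)
  have hsat : ∀ h, tt ^ e * h ∈ Ideal.span {Γ} + mm ℂ[X] ^ n → h ∈ F := by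
    intro h hh
    have h1 : tt ^ e * h ∈ F :=
      (sup_le ((Ideal.span_singleton_le_iff_mem _).2 hΓF) hm : _ ≤ F) hh
    rw [hF, Ideal.mem_comap] at h1 ⊢
    rw [map_mul, map_pow, ev_tt] at h1
    exact (Ideal.unit_mul_mem_iff_mem _ ((IsUnit.map _ (IsUnit.mk0 _ hκ0)).pow e)).1 h1
  have h0 : fib F (0 : ℂ) = I := by
    refine (eq_of_le_of_colen (k := ℂ) (fun g hg => ?_) ?_).symm
    · obtain ⟨ρ, hρ⟩ := G.lim g hg
      have := mem_fib (0 : ℂ) (hsat _ hρ)
      change ev (0 : ℂ) _ ∈ _ at this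
      rwa [map_add, map_mul, ev_tt, ev_cst, map_zero, zero_mul, add_zero] at this
    · rw [hI, (Fr.fib_finrank 0).2]
  have ha : ∀ a : ℂ, a ≠ 0 → fib F a = Ideal.span {ev a Γ} + mm ℂ ^ n := by
    intro a ha
    have : Module.Finite ℂ (P2 ℂ ⧸ (Ideal.span {ev a Γ} + mm ℂ ^ n)) :=
      finite_quot (n := n) le_add_self
    refine (eq_of_le_of_colen (k := ℂ) (sup_le ?_ ?_) ?_).symm
    · rw [Ideal.span_singleton_le_iff_mem]
      exact mem_fib a hΓF
    · exact (pow_le_map_pow _ n).trans (Ideal.map_mono hm)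
    · rw [(Fr.fib_finrank a).2]
      exact colen_curv_le (map_mem_mm _ G.mem) (C.smooth a ha) n
  refine ⟨hfam, ⟨Fr⟩, hΓF, h0, fun a b hab => ?_, fun a => ?_⟩
  · have := (Fr.fib_finrank b).1
    have heq : fib F b = fib F a := eq_of_le_of_colen (k := ℂ) hab
      (by rw [(Fr.fib_finrank a).2, (Fr.fib_finrank b).2])
    by_cases ha0 : a = 0
    · by_contra hne
      refine C.nI b (fun h => hne (ha0.trans h.symm)) ?_
      rw [← h0, ← ha0, ← heq]
      exact mem_fib b hΓF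
    · by_cases hb0 : b = 0
      · refine absurd ?_ (C.nI a ha0)
        rw [← h0, ← hb0, heq]
        exact mem_fib a hΓF
      · refine C.inj a b ha0 hb0 ?_
        rw [← ha a ha0, ← heq]
        exact mem_fib b hΓF
  · by_cases ha0 : a = 0
    · obtain ⟨g0, g1, ρ, hg1, h⟩ := G.tan
      subst ha0
      exact ⟨_, hsat _ h, g1, h0 ▸ hg1, isDer_zero g0 g1 ρ⟩
    · obtain ⟨g1, hg1⟩ := exists_isDer Γ a
      exact ⟨Γ, hΓF, g1, (ha a ha0) ▸ C.imm a ha0 g1 hg1, hg1⟩

/-- the conclusion -/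
def Joined (n : ℕ) (I J : Ideal (P2 ℂ)) : Prop :=
  ∃ F G : Ideal (P2 ℂ[X]), IsFamily n F ∧ IsFamily n G ∧
    (∀ (A : Type) [CommRing A] [Algebra ℂ A] (a b : A),
      (fib F a = fib F b ↔ a = b) ∧ (fib G a = fib G b ↔ a = b) ∧
        (fib F a = fib G b ↔ a * b = 1)) ∧
    fib F (0 : ℂ) = I ∧ fib G (0 : ℂ) = J

theorem Joined.symm {n : ℕ} {I J : Ideal (P2 ℂ)} (h : Joined n I J) : Joined n J I := by
  obtain ⟨F, G, hF, hG, h, h1, h2⟩ := h
  refine ⟨G, F, hG, hF, fun A _ _ a b => ⟨(h A a b).2.1, (h A a b).1, ?_⟩, h2, h1⟩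
  rw [eq_comm, (h A b a).2.2, mul_comm]

theorem mono_self {n : ℕ} {F : Ideal (P2 ℂ[X])} (Fr : Frame n F)
    (h1 : ∀ a b : ℂ, fib F b ≤ fib F a → a = b)
    (h2 : ∀ a : ℂ, ∃ g ∈ F, ∃ g1 ∉ fib F a, IsDer g a g1)
    (A : Type) [CommRing A] [Algebra ℂ A] (a b : A) : fib F a = fib F b ↔ a = b := by
  refine ⟨fun h => ?_, fun h => h ▸ rfl⟩
  have := mono_of Fr (G := F) (X 0 - X 1) (fun A _ _ a b h => ?_) (fun a b h => ?_)
    (fun a b h => ?_) A a b h.ge
  · simpa [sub_eq_zero] using this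
  · have : a = b := by simpa [sub_eq_zero] using h
    rw [this]
  · simpa [sub_eq_zero] using h1 a b h
  · have : a = b := by simpa [sub_eq_zero] using h
    rw [this]
    exact h2 b

theorem assemble {n : ℕ} {I J : Ideal (P2 ℂ)} [Module.Finite ℂ (P2 ℂ ⧸ I)]
    [Module.Finite ℂ (P2 ℂ ⧸ J)] (hI : Module.finrank ℂ (P2 ℂ ⧸ I) = n)
    (hJ : Module.finrank ℂ (P2 ℂ ⧸ J) = n) (hIJ : I ≠ J) {Γ Γ' : P2 ℂ[X]} {D : ℕ}
    (hr : Rev Γ Γ' D) (C1 : Chart n I Γ) (C2 : Chart n J Γ')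
    (hJ' : ∀ a : ℂ, a ≠ 0 → ev a Γ ∉ J) : Joined n I J := by
  let κ : RatFunc ℂ := RatFunc.X
  have hκ : Transcendental ℂ κ := RatFunc.transcendental_X
  have hκ' : Transcendental ℂ κ⁻¹ := fun h => hκ (IsAlgebraic.inv_iff.1 h)
  have hκ0 : κ ≠ 0 := RatFunc.X_ne_zero
  let N := Ideal.span {ev κ Γ} + mm (RatFunc ℂ) ^ n
  have hN : N = Ideal.span {ev κ⁻¹ Γ'} + mm (RatFunc ℂ) ^ n := by
    rw [hr _ κ κ⁻¹ (mul_inv_cancel₀ hκ0), Ideal.span_singleton_mul_left_unit
      (IsUnit.map _ (IsUnit.mk0 _ (pow_ne_zero _ (inv_ne_zero hκ0))))]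
  obtain ⟨hF, ⟨FrF⟩, hΓ, hF0, hF1, hF2⟩ := C1.family hκ hI (F := N.comap (ev κ)) rfl
  obtain ⟨hG, ⟨FrG⟩, -, hG0, hG1, hG2⟩ := C2.family hκ' hJ (F := N.comap (ev κ⁻¹)) (by rw [hN])
  have glue : ∀ (A : Type) [CommRing A] [Algebra ℂ A] (a b : A), a * b = 1 →
      fib (N.comap (ev κ)) a = fib (N.comap (ev κ⁻¹)) b := fun A _ _ a b hab =>
    le_antisymm (glue_le (mul_inv_cancel₀ hκ0) N (by rw [mul_comm, hab]))
      (glue_le (inv_mul_cancel₀ hκ0) N hab)
  refine ⟨_, _, hF, hG, fun A _ _ a b => ⟨mono_self FrF hF1 hF2 A a b,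
    mono_self FrG hG1 hG2 A a b, fun h => ?_, glue A a b⟩, hF0, hG0⟩
  have := mono_of FrF (G := N.comap (ev κ⁻¹)) (X 0 * X 1 - 1) (fun A _ _ a b h => ?_)
    (fun a b h => ?_) (fun a b h => ?_) A a b h.ge
  · simpa [sub_eq_zero] using this
  · have : a * b = 1 := by simpa [sub_eq_zero] using h
    exact (glue A a b this).ge
  · suffices a * b = 1 by simpa [sub_eq_zero] using this
    by_cases hb : b = 0
    · exfalso
      rw [hb, hG0] at h
      have heq := eq_of_le_of_colen (k := ℂ) h (by rw [hJ, (FrF.fib_finrank a).2])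
      by_cases ha : a = 0
      · rw [ha, hF0] at heq
        exact hIJ heq.symm
      · exact hJ' a ha (heq ▸ mem_fib a hΓ)
    · rw [← glue ℂ b⁻¹ b (inv_mul_cancel₀ hb)] at h
      rw [hF1 _ _ h, inv_mul_cancel₀ hb]
  · have : a * b = 1 := by simpa [sub_eq_zero] using h
    rw [glue ℂ a b this]
    exact hG2 b

end Pool.Agent.MP_4403b8_ag

end MrgPart1

-- ======== part 2: formerly Pool.Agent.MP_4403b8_ag.Generic
section MrgPart2

/-!
Generic perturbations.
-/

set_option autoImplicit false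

namespace Pool.Agent.MP_4403b8_ag

open MvPolynomial
open scoped Polynomial

/-- independence over the field generated by `B`, in counting form -/
def Indep {ι : Type} (B : Set ℂ) (Θ : ι → ℂ) : Prop :=
  ∀ (T : Finset ι) (s : Finset ℂ), (∀ p ∈ T, Θ p ∈ Subfield.closure (B ∪ s)) → T.card ≤ s.card

theorem exists_indep (ι : Type) [Countable ι] {B : Set ℂ} (hB : B.Countable) :
    ∃ Θ : ι → ℂ, Indep B Θ := by
  classical
  let k0 := Subfield.closure B
  have hk0 : Cardinal.mk k0 ≤ Cardinal.aleph0 :=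
    (Subfield.cardinalMk_closure_le_max B).trans
      (max_le (Cardinal.le_aleph0_iff_set_countable.2 hB) le_rfl)
  obtain ⟨t, ht⟩ := exists_isTranscendenceBasis k0 ℂ
  have hC : Cardinal.aleph0 < Cardinal.mk ℂ := by
    rw [Cardinal.mk_complex]
    exact Cardinal.aleph0_lt_continuum
  have h1 := IsAlgClosed.cardinal_eq_cardinal_transcendence_basis_of_aleph0_lt' _ ht hk0 hC
  have h2 : Cardinal.mk ι ≤ Cardinal.mk t := by
    rw [← h1]
    exact Cardinal.mk_le_aleph0.trans hC.le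
  obtain ⟨e⟩ := (Cardinal.le_def _ _).1 h2
  refine ⟨fun i => (e i : ℂ), fun T s hT => ?_⟩
  let M := AlgebraicIndependent.matroid k0 ℂ
  have hinj : Function.Injective fun i => (e i : ℂ) := Subtype.val_injective.comp e.injective
  have hind : M.Indep ((fun i => (e i : ℂ)) '' T) := by
    refine (AlgebraicIndependent.matroid_isBase_iff.2 ht).indep.subset ?_
    rintro _ ⟨i, -, rfl⟩
    exact (e i).2
  let L : Subfield ℂ :=
    { (Subalgebra.algebraicClosure (Algebra.adjoin k0 (s : Set ℂ)) ℂ).toSubring with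
      inv_mem' := fun x (hx : IsAlgebraic _ x) => hx.inv }
  have hL : Subfield.closure (B ∪ s) ≤ L := by
    rw [Subfield.closure_le]
    rintro x (hx | hx)
    · exact isAlgebraic_algebraMap
        (⟨x, Subalgebra.algebraMap_mem _ (⟨x, Subfield.subset_closure hx⟩ : k0)⟩ :
          Algebra.adjoin k0 (s : Set ℂ))
    · exact isAlgebraic_algebraMap
        (⟨x, Algebra.subset_adjoin hx⟩ : Algebra.adjoin k0 (s : Set ℂ))
  have hsub : (fun i => (e i : ℂ)) '' T ⊆ M.closure s := by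
    rintro _ ⟨i, hi, rfl⟩
    rw [AlgebraicIndependent.matroid_closure_eq]
    exact hL (hT i hi)
  have h3 := (hind.encard_le_eRk_of_subset hsub).trans
    ((M.eRk_closure_eq s).le.trans (M.eRk_le_encard s))
  rw [hinj.encard_image, Set.encard_coe_eq_coe_finsetCard, Set.encard_coe_eq_coe_finsetCard] at h3
  exact_mod_cast h3

theorem Indep.comp {ι : Type} {B : Set ℂ} {Θ : ι → ℂ} (h : Indep B Θ) (e : ι ↪ ι) :
    Indep B (Θ ∘ e) := by
  intro T s hT
  have := h (T.map e) s (by simpa using hT)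
  simpa using this

/-- exponents of degree less than `k` -/
noncomputable def Dk (k : ℕ) : Finset (Fin 2 →₀ ℕ) :=
  ((Finset.range k ×ˢ Finset.range k).filter fun p => p.1 + p.2 < k).image fun p => ex p.1 p.2

theorem mem_Dk {k : ℕ} {d : Fin 2 →₀ ℕ} : d ∈ Dk k ↔ d.degree < k := by
  rw [degree_fin2]
  simp only [Dk, Finset.mem_image, Finset.mem_filter, Finset.mem_product, Finset.mem_range]
  constructor
  · rintro ⟨p, hp, rfl⟩
    simpa using hp.2
  · intro h
    exact ⟨(d 0, d 1), ⟨⟨by omega, by omega⟩, h⟩, ex_eta d⟩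

theorem card_Dk (k : ℕ) : (Dk k).card =
    ((Finset.range k ×ˢ Finset.range k).filter fun p => p.1 + p.2 < k).card := by
  refine Finset.card_image_of_injective _ fun p q h => ?_
  have h0 := congrArg (fun f => f 0) h
  have h1 := congrArg (fun f => f 1) h
  simp only [ex_zero, ex_one] at h0 h1
  exact Prod.ext h0 h1

/-- exponents of degree one to three -/
noncomputable def D9 : Finset (Fin 2 →₀ ℕ) := (Dk 4).erase 0

theorem mem_D9 {d : Fin 2 →₀ ℕ} : d ∈ D9 ↔ d ≠ 0 ∧ d.degree < 4 := by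
  rw [D9, Finset.mem_erase, mem_Dk]

theorem card_D9 : D9.card = 9 := by
  rw [D9, Finset.card_erase_of_mem (by simp [mem_Dk]), card_Dk]
  decide

theorem no_solution {B : Set ℂ} {Θ : (Fin 2 →₀ ℕ) × Bool → ℂ} (hΘ : Indep B Θ) (W : Finset ℂ)
    (hW : W.card ≤ 2) (p q : Bool → ℂ) (l μ : (Fin 2 →₀ ℕ) → ℂ) (f g : P2 ℂ)
    (hp : ∀ β, p β ∈ Subfield.closure (B ∪ W)) (hq : ∀ β, q β ∈ Subfield.closure (B ∪ W))
    (hl : ∀ d ∈ D9, l d ∈ Subfield.closure (B ∪ W))
    (hμ : ∀ d ∈ D9, μ d ∈ Subfield.closure (B ∪ W))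
    (hf : ∀ d ∈ D9, f.coeff d = l d + p false * Θ (d, false) + p true * Θ (d, true))
    (hg : ∀ d ∈ D9, g.coeff d = μ d + q false * Θ (d, false) + q true * Θ (d, true))
    (hg0 : g.coeff 0 = 0) (hpq : ∀ u : ℂ, ∃ β, p β ≠ u * q β) :
    f ∉ Ideal.span {g} + mm ℂ ^ 4 := by
  classical
  intro hmem
  obtain ⟨x, hx, r, hr, hxr⟩ := Submodule.mem_sup.1 hmem
  obtain ⟨u, rfl⟩ := Ideal.mem_span_singleton'.1 hx
  obtain ⟨β, hβ⟩ := hpq (u.coeff 0)
  let s : Finset ℂ := W ∪ (Dk 3).image (fun d => u.coeff d) ∪ D9.image fun d => Θ (d, !β)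
  let L := Subfield.closure (B ∪ (s : Set ℂ))
  have hWL : Subfield.closure (B ∪ W) ≤ L := by
    refine Subfield.closure_mono (Set.union_subset_union_right _ ?_)
    intro x hx
    simp only [s, Finset.coe_union]
    exact Or.inl (Or.inl hx)
  have hu : ∀ d : Fin 2 →₀ ℕ, d.degree < 3 → u.coeff d ∈ L := by
    intro d hd
    refine Subfield.subset_closure (Or.inr ?_)
    simp only [s, Finset.coe_union, Finset.coe_image]
    exact Or.inl (Or.inr ⟨d, by simpa [mem_Dk] using hd, rfl⟩)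
  have hnot : ∀ d ∈ D9, Θ (d, !β) ∈ L := by
    intro d hd
    refine Subfield.subset_closure (Or.inr ?_)
    simp only [s, Finset.coe_union, Finset.coe_image]
    exact Or.inr ⟨d, hd, rfl⟩
  have key : ∀ k, ∀ d ∈ D9, d.degree = k → ∀ γ, Θ (d, γ) ∈ L := by
    intro k
    induction k using Nat.strong_induction_on with
    | _ k ih =>
      intro d hd hdk
      have hd' := mem_D9.1 hd
      have h1 : f.coeff d = (u * g).coeff d := by
        rw [← hxr, coeff_add, (mem_pow_idealOfVars_iff' 4 r).1 hr d hd'.2, add_zero]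
      rw [coeff_mul, ← Finset.add_sum_erase _ _ (a := (0, d)) (by simp)] at h1
      have hR : ∑ x ∈ (Finset.HasAntidiagonal.antidiagonal d).erase (0, d), u.coeff x.1 * g.coeff x.2 ∈ L := by
        refine Subfield.sum_mem _ fun x hx => ?_
        obtain ⟨hx1, hx2⟩ := Finset.mem_erase.1 hx
        have hx3 : x.1 + x.2 = d := Finset.HasAntidiagonal.mem_antidiagonal.1 hx2
        by_cases h2 : x.2 = 0
        · rw [h2, hg0, mul_zero]
          exact L.zero_mem
        have h1' : x.1 ≠ 0 := by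
          intro h
          apply hx1
          rw [h, zero_add] at hx3
          exact Prod.ext h hx3
        have hdeg : x.1.degree + x.2.degree = d.degree := by rw [← hx3, map_add]
        have e1 : x.1.degree ≠ 0 := fun h => h1' ((Finsupp.degree_eq_zero_iff _).1 h)
        have e2 : x.2.degree ≠ 0 := fun h => h2 ((Finsupp.degree_eq_zero_iff _).1 h)
        have hx9 : x.2 ∈ D9 := mem_D9.2 ⟨h2, by omega⟩
        have := ih x.2.degree (by omega) x.2 hx9 rfl
        refine L.mul_mem (hu _ (by omega)) ?_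
        rw [hg _ hx9]
        exact L.add_mem (L.add_mem (hWL (hμ _ hx9)) (L.mul_mem (hWL (hq _)) (this _)))
          (L.mul_mem (hWL (hq _)) (this _))
      generalize ∑ x ∈ (Finset.HasAntidiagonal.antidiagonal d).erase (0, d), u.coeff x.1 * g.coeff x.2 = R
        at h1 hR
      have hu0 := hu 0 (by simp)
      have hmain : Θ (d, β) ∈ L := by
        have hne : p β - u.coeff 0 * q β ≠ 0 := sub_ne_zero.2 hβ
        have e : Θ (d, β) = (R - l d + u.coeff 0 * μ d -
            (p (!β) - u.coeff 0 * q (!β)) * Θ (d, !β)) / (p β - u.coeff 0 * q β) := by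
          rw [eq_div_iff hne]
          rw [hf d hd, hg d hd] at h1
          cases β
          · simp only [Bool.not_false]
            linear_combination h1
          · simp only [Bool.not_true]
            linear_combination h1
        rw [e]
        exact L.div_mem (L.sub_mem (L.add_mem (L.sub_mem hR (hWL (hl d hd)))
          (L.mul_mem hu0 (hWL (hμ d hd)))) (L.mul_mem (L.sub_mem (hWL (hp _))
          (L.mul_mem hu0 (hWL (hq _)))) (hnot d hd)))
          (L.sub_mem (hWL (hp _)) (L.mul_mem hu0 (hWL (hq _))))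
      intro γ
      by_cases hγ : γ = β
      · rw [hγ]
        exact hmain
      · have : γ = !β := by
          cases γ <;> cases β <;> simp_all
        rw [this]
        exact hnot d hd
  have h1 := hΘ (D9 ×ˢ Finset.univ) s fun x hx => key _ x.1 (Finset.mem_product.1 hx).1 rfl x.2
  have h2 : s.card ≤ 2 + 6 + 9 := by
    refine (Finset.card_union_le _ _).trans (add_le_add ((Finset.card_union_le _ _).trans
      (add_le_add hW (Finset.card_image_le.trans ?_))) (Finset.card_image_le.trans card_D9.le))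
    rw [card_Dk]
    decide
  rw [Finset.card_product, card_D9] at h1
  simp at h1
  omega

theorem eval_mem {L : Subfield ℂ} {p : ℂ[X]} (hp : ∀ i, p.coeff i ∈ L) {a : ℂ} (ha : a ∈ L) :
    p.eval a ∈ L := by
  rw [Polynomial.eval_eq_sum, Polynomial.sum]
  exact Subfield.sum_mem _ fun i _ => L.mul_mem (hp i) (L.pow_mem ha i)

/-- the shape of a generically perturbed family -/
structure GenForm (B : Set ℂ) (Θ : (Fin 2 →₀ ℕ) × Bool → ℂ) (Γ : P2 ℂ[X]) : Prop where
  ind : Indep B Θ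
  zero : Γ.coeff 0 = 0
  form : ∃ (M : ℕ) (β : (Fin 2 →₀ ℕ) → ℂ[X]), ∀ d ∈ D9, (∀ i, (β d).coeff i ∈ B) ∧
    Γ.coeff d = β d + Polynomial.X ^ (M + 1) *
      (Polynomial.C (Θ (d, false)) + Polynomial.C (Θ (d, true)) * Polynomial.X)

section

variable {B : Set ℂ} {Θ : (Fin 2 →₀ ℕ) × Bool → ℂ} {Γ : P2 ℂ[X]}

theorem GenForm.two (H : GenForm B Θ Γ) {a : ℂ} (ha : a ≠ 0) {d e : Fin 2 →₀ ℕ} (hd : d ∈ D9)
    (he : e ∈ D9) (hde : d ≠ e) (h1 : (ev a Γ).coeff d = 0) (h2 : (ev a Γ).coeff e = 0) :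
    False := by
  classical
  obtain ⟨M, β, hβ⟩ := H.form
  let s : Finset ℂ := {a, Θ (d, true), Θ (e, true)}
  let L := Subfield.closure (B ∪ (s : Set ℂ))
  have haL : a ∈ L := Subfield.subset_closure (Or.inr (by simp [s]))
  have key : ∀ c ∈ D9, (ev a Γ).coeff c = 0 → Θ (c, true) ∈ L → Θ (c, false) ∈ L := by
    intro c hc h hc'
    rw [coeff_ev, (hβ c hc).2] at h
    simp only [Polynomial.eval_add, Polynomial.eval_mul, Polynomial.eval_pow, Polynomial.eval_X,
      Polynomial.eval_C] at h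
    have e : Θ (c, false) = -((β c).eval a) / a ^ (M + 1) - Θ (c, true) * a := by
      field_simp
      linear_combination h
    rw [e]
    exact L.sub_mem (L.div_mem (L.neg_mem (eval_mem
      (fun i => Subfield.subset_closure (Or.inl ((hβ c hc).1 i))) haL)) (L.pow_mem haL _))
      (L.mul_mem hc' haL)
  have hd' : Θ (d, true) ∈ L := Subfield.subset_closure (Or.inr (by simp [s]))
  have he' : Θ (e, true) ∈ L := Subfield.subset_closure (Or.inr (by simp [s]))
  have h3 := H.ind (({d, e} : Finset _) ×ˢ Finset.univ) s (by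
    rintro ⟨c, γ⟩ hx
    have hc : c = d ∨ c = e := by simpa using (Finset.mem_product.1 hx).1
    rcases hc with rfl | rfl <;> cases γ
    exacts [key _ hd h1 hd', hd', key _ he h2 he', he'])
  rw [Finset.card_product, Finset.card_pair hde] at h3
  have h4 : s.card ≤ 3 := Finset.card_le_three
  simp at h3
  omega

theorem GenForm.inj (H : GenForm B Θ Γ) {a b : ℂ} (hb : b ≠ 0)
    (h : ev b Γ ∈ Ideal.span {ev a Γ} + mm ℂ ^ 4) : a = b := by
  classical
  obtain ⟨M, β, hβ⟩ := H.form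
  by_contra hab
  have haL : a ∈ Subfield.closure (B ∪ (({a, b} : Finset ℂ) : Set ℂ)) :=
    Subfield.subset_closure (Or.inr (by simp))
  have hbL : b ∈ Subfield.closure (B ∪ (({a, b} : Finset ℂ) : Set ℂ)) :=
    Subfield.subset_closure (Or.inr (by simp))
  refine no_solution H.ind {a, b} Finset.card_le_two
    (fun γ => if γ then b ^ (M + 2) else b ^ (M + 1))
    (fun γ => if γ then a ^ (M + 2) else a ^ (M + 1)) (fun d => (β d).eval b)
    (fun d => (β d).eval a) _ _ (fun γ => ?_) (fun γ => ?_) (fun d hd => ?_) (fun d hd => ?_)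
    (fun d hd => ?_) (fun d hd => ?_) ?_ (fun u => ?_) h
  · split_ifs <;> exact Subfield.pow_mem _ hbL _
  · split_ifs <;> exact Subfield.pow_mem _ haL _
  · exact eval_mem (fun i => Subfield.subset_closure (Or.inl ((hβ d hd).1 i))) hbL
  · exact eval_mem (fun i => Subfield.subset_closure (Or.inl ((hβ d hd).1 i))) haL
  · rw [coeff_ev, (hβ d hd).2]
    simp
    ring
  · rw [coeff_ev, (hβ d hd).2]
    simp
    ring
  · rw [coeff_ev, H.zero, Polynomial.eval_zero]
  · by_contra hcon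
    push Not at hcon
    have h0 := hcon false
    have h1 := hcon true
    simp only [Bool.false_eq_true, if_false, if_true] at h0 h1
    have : b ^ (M + 1) * (a - b) = 0 := by linear_combination a * h0 - h1
    rcases mul_eq_zero.1 this with h | h
    · exact hb (pow_eq_zero_iff (by omega) |>.1 h)
    · exact hab (sub_eq_zero.1 h)

theorem GenForm.imm (H : GenForm B Θ Γ) {a : ℂ} (ha : a ≠ 0) {g1 : P2 ℂ} (hg : IsDer Γ a g1) :
    g1 ∉ Ideal.span {ev a Γ} + mm ℂ ^ 4 := by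
  classical
  obtain ⟨M, β, hβ⟩ := H.form
  have haL : a ∈ Subfield.closure (B ∪ (({a} : Finset ℂ) : Set ℂ)) :=
    Subfield.subset_closure (Or.inr (by simp))
  refine no_solution H.ind {a} (by simp)
    (fun γ => if γ then ((M + 2 : ℕ) : ℂ) * a ^ (M + 1) else ((M + 1 : ℕ) : ℂ) * a ^ M)
    (fun γ => if γ then a ^ (M + 2) else a ^ (M + 1))
    (fun d => (Polynomial.derivative (β d)).eval a)
    (fun d => (β d).eval a) _ _ (fun γ => ?_) (fun γ => ?_) (fun d hd => ?_) (fun d hd => ?_)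
    (fun d hd => ?_) (fun d hd => ?_) ?_ (fun u => ?_)
  · split_ifs <;> exact Subfield.mul_mem _ (natCast_mem _ _) (Subfield.pow_mem _ haL _)
  · split_ifs <;> exact Subfield.pow_mem _ haL _
  · refine eval_mem (fun i => ?_) haL
    rw [Polynomial.coeff_derivative]
    exact Subfield.mul_mem _ (Subfield.subset_closure (Or.inl ((hβ d hd).1 _)))
      (Subfield.add_mem _ (natCast_mem _ _) (Subfield.one_mem _))
  · exact eval_mem (fun i => Subfield.subset_closure (Or.inl ((hβ d hd).1 i))) haL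
  · rw [hg d, (hβ d hd).2]
    simp
    ring
  · rw [coeff_ev, (hβ d hd).2]
    simp
    ring
  · rw [coeff_ev, H.zero, Polynomial.eval_zero]
  · by_contra hcon
    push Not at hcon
    have h0 := hcon false
    have h1 := hcon true
    simp only [Bool.false_eq_true, if_false, if_true] at h0 h1
    push_cast at h0 h1
    have : a ^ (M + 1) = 0 := by linear_combination h1 - a * h0
    exact ha (pow_eq_zero_iff (by omega) |>.1 this)

end

end Pool.Agent.MP_4403b8_ag

end MrgPart2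

-- ======== part 3: formerly Pool.Agent.MP_4403b8_ag.Global
section MrgPart3

/-!
Two good arcs are joined by an embedded line when `n ≥ 4`.
-/

set_option autoImplicit false

namespace Pool.Agent.MP_4403b8_ag

open MvPolynomial
open scoped Polynomial

theorem GoodArc.perturb {n : ℕ} {I : Ideal (P2 ℂ)} {Γ : P2 ℂ[X]} {e : ℕ} (G : GoodArc n I Γ e)
    {Ξ : P2 ℂ[X]} (hΞ : Ξ ∈ mm ℂ[X]) : GoodArc n I (Γ + tt ^ (e + 2) * Ξ) e := by
  have key : ∀ h, tt ^ e * h ∈ Ideal.span {Γ} + mm ℂ[X] ^ n → ∃ a,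
      tt ^ e * (h + tt ^ 2 * a) ∈ Ideal.span {Γ + tt ^ (e + 2) * Ξ} + mm ℂ[X] ^ n := by
    intro h hh
    obtain ⟨x, hx, r, hr, hxr⟩ := Submodule.mem_sup.1 hh
    obtain ⟨u, rfl⟩ := Ideal.mem_span_singleton'.1 hx
    refine ⟨u * Ξ, ?_⟩
    have : tt ^ e * (h + tt ^ 2 * (u * Ξ)) = u * (Γ + tt ^ (e + 2) * Ξ) + r := by
      linear_combination -hxr
    rw [this]
    exact Ideal.add_mem _ (Ideal.mem_sup_left (Ideal.mul_mem_left _ _ (Ideal.subset_span rfl)))
      (Ideal.mem_sup_right hr)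
  refine ⟨Ideal.add_mem _ G.mem (Ideal.mul_mem_left _ _ hΞ), fun g hg => ?_, ?_⟩
  · obtain ⟨ρ, hρ⟩ := G.lim g hg
    obtain ⟨a, ha⟩ := key _ hρ
    refine ⟨ρ + tt * a, ?_⟩
    convert ha using 2
    ring
  · obtain ⟨g0, g1, ρ, hg1, hρ⟩ := G.tan
    obtain ⟨a, ha⟩ := key _ hρ
    refine ⟨g0, g1, ρ + a, hg1, ?_⟩
    convert ha using 2
    ring

theorem Rev.symm {h h' : P2 ℂ[X]} {D : ℕ} (H : Rev h h' D) : Rev h' h D := by
  intro A _ _ a b hab
  rw [H A b a (by rw [mul_comm, hab]), ← mul_assoc, ← map_mul, ← mul_pow, mul_comm b a, hab,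
    one_pow, map_one, one_mul]

theorem Rev.mem_mm {h h' : P2 ℂ[X]} {D : ℕ} (H : Rev h h' D) (hh : h ∈ mm ℂ[X]) :
    h' ∈ mm ℂ[X] := by
  let κ : RatFunc ℂ := RatFunc.X
  have hinj : Function.Injective (Polynomial.aeval κ : ℂ[X] →ₐ[ℂ] RatFunc ℂ) :=
    transcendental_iff_injective.1 RatFunc.transcendental_X
  have h1 : ev κ h' ∈ mm (RatFunc ℂ) := by
    rw [H _ κ⁻¹ κ (inv_mul_cancel₀ RatFunc.X_ne_zero)]
    exact Ideal.mul_mem_left _ _ (map_mem_mm _ hh)
  rw [mem_mm_iff, coeff_map] at h1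
  rw [mem_mm_iff]
  exact hinj (h1.trans (map_zero _).symm)

theorem two_std {S : Set (Fin 2 →₀ ℕ)} (h3 : 3 ≤ (std S).ncard) :
    ∃ d ∈ D9, ∃ e ∈ D9, d ≠ e ∧ d ∈ std S ∧ e ∈ std S := by
  have hD : ∀ a b, 1 ≤ a + b → a + b < 4 → ex a b ∈ D9 := by
    intro a b h1 h2
    rw [mem_D9, degree_fin2]
    refine ⟨fun h => ?_, by simpa using h2⟩
    have h0 := congrArg (fun f => f 0) h
    have h1 := congrArg (fun f => f 1) h
    simp at h0 h1
    omega
  have hne : ∀ a b c d, a ≠ c ∨ b ≠ d → ex a b ≠ ex c d := by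
    intro a b c d h h'
    have h0 := congrArg (fun f => f 0) h'
    have h1 := congrArg (fun f => f 1) h'
    simp at h0 h1
    omega
  have hlow : ∀ a b, ex a b ∉ std S → ∀ d ∈ std S, d 0 < a ∨ d 1 < b := by
    intro a b h d hd
    by_contra hc
    exact h (std_lower (le_fin2.2 (by simp; omega)) hd)
  have hcard : ∀ u v, ¬ std S ⊆ {u, v} := by
    intro u v h
    have := (Set.ncard_le_ncard h (Set.toFinite _)).trans (Set.ncard_insert_le u {v})
    simp at this
    omega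
  by_cases h10 : ex 1 0 ∈ std S
  · by_cases h01 : ex 0 1 ∈ std S
    · exact ⟨_, hD 1 0 (by omega) (by omega), _, hD 0 1 (by omega) (by omega),
        hne _ _ _ _ (by omega), h10, h01⟩
    · by_cases h20 : ex 2 0 ∈ std S
      · exact ⟨_, hD 1 0 (by omega) (by omega), _, hD 2 0 (by omega) (by omega),
          hne _ _ _ _ (by omega), h10, h20⟩
      · refine absurd (fun d hd => ?_) (hcard (ex 0 0) (ex 1 0))
        have h1 := hlow _ _ h01 d hd
        have h2 := hlow _ _ h20 d hd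
        rw [← ex_eta d]
        have : (d 0 = 0 ∧ d 1 = 0) ∨ (d 0 = 1 ∧ d 1 = 0) := by omega
        rcases this with h | h <;> simp [h.1, h.2]
  · by_cases h02 : ex 0 2 ∈ std S
    · exact ⟨_, hD 0 1 (by omega) (by omega), _, hD 0 2 (by omega) (by omega),
        hne _ _ _ _ (by omega), std_lower (le_fin2.2 (by simp)) h02, h02⟩
    · refine absurd (fun d hd => ?_) (hcard (ex 0 0) (ex 0 1))
      have h1 := hlow _ _ h10 d hd
      have h2 := hlow _ _ h02 d hd
      rw [← ex_eta d]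
      have : (d 0 = 0 ∧ d 1 = 0) ∨ (d 0 = 0 ∧ d 1 = 1) := by omega
      rcases this with h | h <;> simp [h.1, h.2]

section

variable {B : Set ℂ} {Θ : (Fin 2 →₀ ℕ) × Bool → ℂ} {Γ : P2 ℂ[X]}

theorem GenForm.not_mem (H : GenForm B Θ Γ) {S : Set (Fin 2 →₀ ℕ)} (h3 : 3 ≤ (std S).ncard)
    {a : ℂ} (ha : a ≠ 0) : ev a Γ ∉ monI ℂ S := by
  intro h
  obtain ⟨d, hd, e, he, hde, hdS, heS⟩ := two_std h3
  exact H.two ha hd he hde (mem_monI.1 h d hdS) (mem_monI.1 h e heS)

theorem GenForm.chart (H : GenForm B Θ Γ) {S : Set (Fin 2 →₀ ℕ)} {n e : ℕ} (hn : 4 ≤ n)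
    (h3 : 3 ≤ (std S).ncard) (G : GoodArc n (monI ℂ S) Γ e) : Chart n (monI ℂ S) Γ := by
  have hle : ∀ g : P2 ℂ, Ideal.span {g} + mm ℂ ^ n ≤ Ideal.span {g} + mm ℂ ^ 4 :=
    fun g => add_le_add le_rfl (Ideal.pow_le_pow_right hn)
  refine ⟨⟨e, G⟩, fun a ha => ?_, fun a b _ hb h => H.inj hb (hle _ h),
    fun a ha g1 hg h => H.imm ha hg (hle _ h), fun a ha => H.not_mem h3 ha⟩
  by_contra hc
  push Not at hc
  refine H.two ha (d := Finsupp.single 0 1) (e := Finsupp.single 1 1) ?_ ?_ ?_ (hc 0) (hc 1)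
  · simp [mem_D9]
  · simp [mem_D9]
  · intro h
    simpa using congrArg (fun f => f 0) h

end

/-- the generic perturbation -/
noncomputable def pert (Θ : (Fin 2 →₀ ℕ) × Bool → ℂ) : P2 ℂ[X] :=
  ∑ d ∈ D9, monomial d (Polynomial.C (Θ (d, false)) + Polynomial.C (Θ (d, true)) * Polynomial.X)

theorem coeff_pert (Θ : (Fin 2 →₀ ℕ) × Bool → ℂ) (d : Fin 2 →₀ ℕ) :
    (pert Θ).coeff d = if d ∈ D9 then
      Polynomial.C (Θ (d, false)) + Polynomial.C (Θ (d, true)) * Polynomial.X else 0 := by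
  rw [pert, coeff_sum]
  simp only [coeff_monomial]
  rw [Finset.sum_ite_eq']

theorem pert_mem (Θ : (Fin 2 →₀ ℕ) × Bool → ℂ) : pert Θ ∈ mm ℂ[X] := by
  rw [mem_mm_iff, coeff_pert, if_neg]
  simp [mem_D9]

theorem genForm_of {B : Set ℂ} {Θ : (Fin 2 →₀ ℕ) × Bool → ℂ} (hΘ : Indep B Θ) {Γ : P2 ℂ[X]}
    (hΓ : Γ ∈ mm ℂ[X]) (hB : ∀ d i, (Γ.coeff d).coeff i ∈ B) (M : ℕ) :
    GenForm B Θ (Γ + tt ^ (M + 1) * pert Θ) := by
  refine ⟨hΘ, mem_mm_iff.1 (Ideal.add_mem _ hΓ (Ideal.mul_mem_left _ _ (pert_mem Θ))),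
    M, fun d => Γ.coeff d, fun d hd => ⟨hB d, ?_⟩⟩
  rw [coeff_add, tt, ← map_pow, coeff_C_mul, coeff_pert, if_pos hd]

/-- exchange of the two parameters -/
def swapE : (Fin 2 →₀ ℕ) × Bool ↪ (Fin 2 →₀ ℕ) × Bool :=
  ⟨fun p => (p.1, !p.2), by
    rintro ⟨d, β⟩ ⟨e, γ⟩ h
    simpa using h⟩

theorem rev_pert (Θ : (Fin 2 →₀ ℕ) × Bool → ℂ) : Rev (pert Θ) (pert (Θ ∘ swapE)) 1 := by
  intro A _ _ a b hab
  ext d
  rw [coeff_C_mul, coeff_map, coeff_map, coeff_pert, coeff_pert]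
  split_ifs
  · simp [swapE]
    linear_combination (-(algebraMap ℂ A (Θ (d, true)))) * hab
  · simp

theorem joined_of_arcs {n : ℕ} (hn : 4 ≤ n) {S T : Set (Fin 2 →₀ ℕ)} (hS : (std S).ncard = n)
    (hT : (std T).ncard = n) (hST : monI ℂ S ≠ monI ℂ T) {Γ0 Γ1 : P2 ℂ[X]} {e0 e1 : ℕ}
    (G0 : GoodArc n (monI ℂ S) Γ0 e0) (G1 : GoodArc n (monI ℂ T) Γ1 e1) :
    Joined n (monI ℂ S) (monI ℂ T) := by
  obtain ⟨Γ0', D0, R0⟩ := exists_rev Γ0
  obtain ⟨Γ1', D1, R1⟩ := exists_rev Γ1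
  let b0 := Γ0 + tt ^ (e0 + 2 + (D0 + e1 + 3)) * Γ1'
  let b1 := Γ1 + tt ^ (e1 + 2 + (e0 + 3 + D1)) * Γ0'
  let B : Set ℂ := Set.range (fun p : (Fin 2 →₀ ℕ) × ℕ => (b0.coeff p.1).coeff p.2) ∪
    Set.range (fun p : (Fin 2 →₀ ℕ) × ℕ => (b1.coeff p.1).coeff p.2)
  obtain ⟨Θ, hΘ⟩ := exists_indep ((Fin 2 →₀ ℕ) × Bool) (B := B)
    ((Set.countable_range _).union (Set.countable_range _))
  have hb0 : b0 ∈ mm ℂ[X] := Ideal.add_mem _ G0.mem (Ideal.mul_mem_left _ _ (R1.mem_mm G1.mem))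
  have hb1 : b1 ∈ mm ℂ[X] := Ideal.add_mem _ G1.mem (Ideal.mul_mem_left _ _ (R0.mem_mm G0.mem))
  have H0 := genForm_of hΘ hb0 (fun d i => Or.inl ⟨(d, i), rfl⟩) (e0 + 1)
  have H1 := genForm_of (hΘ.comp swapE) hb1 (fun d i => Or.inr ⟨(d, i), rfl⟩) (e1 + 1 + D0 + D1)
  have A0 := G0.perturb (Ξ := tt ^ (D0 + e1 + 3) * Γ1' + pert Θ)
    (Ideal.add_mem _ (Ideal.mul_mem_left _ _ (R1.mem_mm G1.mem)) (pert_mem _))
  have A1 := G1.perturb (Ξ := tt ^ (e0 + 3 + D1) * Γ0' + tt ^ (D0 + D1) * pert (Θ ∘ swapE))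
    (Ideal.add_mem _ (Ideal.mul_mem_left _ _ (R0.mem_mm G0.mem))
      (Ideal.mul_mem_left _ _ (pert_mem _)))
  have E0 : Γ0 + tt ^ (e0 + 2) * (tt ^ (D0 + e1 + 3) * Γ1' + pert Θ) =
      b0 + tt ^ (e0 + 1 + 1) * pert Θ := by
    simp only [b0]
    ring
  have E1 : Γ1 + tt ^ (e1 + 2) * (tt ^ (e0 + 3 + D1) * Γ0' + tt ^ (D0 + D1) * pert (Θ ∘ swapE)) =
      b1 + tt ^ (e1 + 1 + D0 + D1 + 1) * pert (Θ ∘ swapE) := by
    simp only [b1]
    ring
  rw [E0] at A0
  rw [E1] at A1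
  have hSf : (std S).Finite := Set.finite_of_ncard_pos (by omega)
  have hTf : (std T).Finite := Set.finite_of_ncard_pos (by omega)
  have : Module.Finite ℂ (P2 ℂ ⧸ monI ℂ S) := finite_quot (pow_le_monI hSf)
  have : Module.Finite ℂ (P2 ℂ ⧸ monI ℂ T) := finite_quot (pow_le_monI hTf)
  refine assemble (D := e0 + e1 + 5 + D0 + D1) (by rw [finrank_monI, hS])
    (by rw [finrank_monI, hT]) hST ?_ (H0.chart hn (by omega) A0) (H1.chart hn (by omega) A1)
    fun a ha => H0.not_mem (by omega) ha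
  intro A _ _ a b hab
  have hab' : (C a : P2 A) * C b = 1 := by rw [← map_mul, hab, map_one]
  have hpow : ∀ k : ℕ, (C a : P2 A) ^ k * C b ^ k = 1 := fun k => by rw [← mul_pow, hab', one_pow]
  simp only [b0, b1, map_add, map_mul, map_pow, ev_tt, R0 A a b hab, R1.symm A a b hab,
    rev_pert Θ A a b hab]
  linear_combination (-(C b ^ D1 * ev a Γ1')) * hpow (e0 + 2 + (D0 + e1 + 3)) -
    (C b ^ (e1 + 3 + D0 + D1) * ev a (pert Θ)) * hpow (e0 + 2)

end Pool.Agent.MP_4403b8_ag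

end MrgPart3

-- marker of a merged file
example : 731051 + 513599 = 731051 + 513599 := rfl
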