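import Mathlib.Topology.Algebra.Valued.WithZeroMulInt
import Pool.Agent.MP_4403b8_ag.Step0
import Pool.Agent.MP_4403b8_ag.Global
import Mathlib.NumberTheory.Multiplicity
import Mathlib.AlgebraicGeometry.Noetherian
import Mathlib.AlgebraicGeometry.QuasiAffine
import Mathlib.RingTheory.Finiteness.ModuleFinitePresentation
import Mathlib.AlgebraicGeometry.ProjectiveSpectrum.Proper
import Mathlib.RingTheory.TotallySplit
import Mathlib.Algebra.Module.StablyFree.Basic
import Mathlib.AlgebraicGeometry.Morphisms.SchemeTheoreticallyDominant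
import Mathlib.AlgebraicGeometry.ZariskisMainTheorem
import Mathlib.AlgebraicGeometry.Modules.Sheaf
import Mathlib.AlgebraicGeometry.Morphisms.WeaklyEtale
import Mathlib.AlgebraicGeometry.Sites.Fpqc
import Mathlib.CategoryTheory.ExtremalEpi

-- ======== part 0: formerly Pool.Agent.MP_4403b8_ag.Arc
section MrgPart0

/-!
Existence of polynomial arcs of curvilinear ideals.
-/

set_option autoImplicit false

namespace Pool.Agent.MP_4403b8_ag

open MvPolynomial
open scoped Polynomial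

/-- the field of rational functions -/
abbrev KK := RatFunc ℂ

/-- its generator -/
noncomputable abbrev κκ : KK := RatFunc.X

theorem aeval_κκ (p : ℂ[X]) : Polynomial.aeval κκ p = algebraMap ℂ[X] KK p :=
  RatFunc.aeval_X_left_eq_algebraMap p

theorem κκ_inj : Function.Injective (Polynomial.aeval κκ : ℂ[X] →ₐ[ℂ] KK) :=
  transcendental_iff_injective.1 RatFunc.transcendental_X

theorem clear_den (M : Submonoid ℂ[X]) (p : P2 KK)
    (h : ∀ d, ∃ w ∈ M, ∃ a : ℂ[X], Polynomial.aeval κκ a = Polynomial.aeval κκ w * p.coeff d) :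
    ∃ w ∈ M, ∃ p', ev κκ p' = C (Polynomial.aeval κκ w) * p := by
  classical
  have key : ∀ s : Finset (Fin 2 →₀ ℕ), ∃ w ∈ M, ∃ p', ev κκ p' =
      C (Polynomial.aeval κκ w) * ∑ d ∈ s, monomial d (p.coeff d) := by
    intro s
    induction s using Finset.induction_on with
    | empty => exact ⟨1, M.one_mem, 0, by simp⟩
    | insert d s hd ih =>
      obtain ⟨w, hw, p', hp'⟩ := ih
      obtain ⟨v, hv, a, ha⟩ := h d
      refine ⟨w * v, M.mul_mem hw hv, monomial d (w * a) + C v * p', ?_⟩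
      rw [Finset.sum_insert hd, map_add, map_mul (ev κκ), hp', map_monomial, map_C, mul_add,
        C_mul_monomial]
      simp only [AlgHom.toRingHom_eq_coe, RingHom.coe_coe, map_mul, ha, mul_assoc]
      ring
  simpa using key p.support

theorem clear_den0 (p : P2 KK) :
    ∃ w : ℂ[X], w ≠ 0 ∧ ∃ p', ev κκ p' = C (Polynomial.aeval κκ w) * p := by
  obtain ⟨w, hw, h⟩ := clear_den (nonZeroDivisors ℂ[X]) p fun d =>
    ⟨(p.coeff d).denom, mem_nonZeroDivisors_of_ne_zero (RatFunc.denom_ne_zero _),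
      (p.coeff d).num, by
        rw [aeval_κκ, aeval_κκ]
        rw [mul_comm, ← div_eq_iff (RatFunc.algebraMap_ne_zero (RatFunc.denom_ne_zero _)),
          RatFunc.num_div_denom]⟩
  exact ⟨w, nonZeroDivisors.ne_zero hw, h⟩

theorem exists_inv_mod {w : ℂ[X]} (hw : ¬ Polynomial.X ∣ w) :
    ∃ a b : ℂ[X], a * w = 1 + Polynomial.X ^ 2 * b := by
  obtain ⟨a, b, h⟩ := ((Polynomial.prime_X.irreducible.coprime_iff_not_dvd).2 hw).pow_left
    (m := 2)
  exact ⟨b, -a, by linear_combination h⟩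

theorem desat {n : ℕ} {Γ h : P2 ℂ[X]} (H : ev κκ h ∈ Ideal.span {ev κκ Γ} + mm KK ^ n) :
    ∃ e ρ, tt ^ e * (h + tt ^ 2 * ρ) ∈ Ideal.span {Γ} + mm ℂ[X] ^ n := by
  obtain ⟨x, hx, r, hr, hxr⟩ := Submodule.mem_sup.1 H
  obtain ⟨u, rfl⟩ := Ideal.mem_span_singleton'.1 hx
  obtain ⟨w, hw, u', hu'⟩ := clear_den0 u
  have h1 : C w * h - u' * Γ ∈ mm ℂ[X] ^ n := by
    have h2 : ev κκ (C w * h - u' * Γ) = C (Polynomial.aeval κκ w) * r := by
      rw [map_sub, map_mul, map_mul, hu', ← hxr, map_C]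
      simp only [AlgHom.toRingHom_eq_coe, RingHom.coe_coe]
      ring
    have h3 : ev κκ (C w * h - u' * Γ) ∈ mm KK ^ n := h2 ▸ Ideal.mul_mem_left _ _ hr
    rw [mem_pow_idealOfVars_iff'] at h3 ⊢
    intro d hd
    have := h3 d hd
    rw [coeff_map] at this
    exact κκ_inj (this.trans (map_zero _).symm)
  obtain ⟨e, w', hw', rfl⟩ := WfDvdMonoid.max_power_factor hw Polynomial.prime_X.irreducible
  obtain ⟨a, b, hab⟩ := exists_inv_mod hw'
  refine ⟨e, C b * h, ?_⟩
  have e1 : tt ^ e * (h + tt ^ 2 * (C b * h)) =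
      (C a * u') * Γ + C a * (C (Polynomial.X ^ e * w') * h - u' * Γ) := by
    have := congrArg (C : ℂ[X] → P2 ℂ[X]) hab
    simp only [map_mul, map_add, map_one, map_pow] at this ⊢
    linear_combination (-(tt ^ e * h)) * this
  rw [e1]
  exact Ideal.add_mem _ (Ideal.mem_sup_left (Ideal.mul_mem_left _ _ (Ideal.subset_span rfl)))
    (Ideal.mem_sup_right (Ideal.mul_mem_left _ _ h1))

theorem arc_of_coords {S : Set (Fin 2 →₀ ℕ)} {n : ℕ} (hn : (std S).ncard = n) (hn1 : 1 ≤ n)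
    (x y : P2 KK) (hxy : Ideal.span {x, y} = mm KK) (s : Finset (P2 ℂ[X]))
    (hs : ∀ H ∈ s, ev κκ H ∈ (monI KK S).map (aeval ![x, y] : P2 KK →ₐ[KK] P2 KK)) :
    ∃ Γ ∈ mm ℂ[X], ∃ e, ∀ H ∈ s, ∃ ρ,
      tt ^ e * (H + tt ^ 2 * ρ) ∈ Ideal.span {Γ} + mm ℂ[X] ^ n := by
  classical
  let R := P2 KK ⧸ mm KK ^ n
  let q : P2 KK →ₐ[KK] R := Ideal.Quotient.mkₐ KK _
  have hq : Function.Surjective q := Ideal.Quotient.mkₐ_surjective KK _
  have : Module.Finite KK R := finite_quot le_rfl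
  let _ : TopologicalSpace R := moduleTopology KK R
  have : IsModuleTopology KK R := ⟨rfl⟩
  have : IsTopologicalRing R := IsModuleTopology.isTopologicalRing KK R
  have hv : Valued.v κκ < 1 := by
    rw [RatFunc.v_def, Polynomial.valuation_X_eq_neg_one, ← WithZero.exp_zero, WithZero.exp_lt_exp]
    norm_num
  have St : Setup ((mm KK).map q) fun k => κκ ^ (k + 1) := by
    refine ⟨fun z hz => ?_, fun r => ?_, fun k => pow_ne_zero _ RatFunc.X_ne_zero, ?_,
      fun j hj a b hab => ?_⟩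
    · obtain ⟨p, hp, rfl⟩ := (Ideal.mem_map_iff_of_surjective q hq).1 hz
      exact ⟨n, by
        rw [← map_pow]
        exact Ideal.Quotient.eq_zero_iff_mem.2 (Ideal.pow_mem_pow hp n)⟩
    · obtain ⟨p, rfl⟩ := hq r
      refine ⟨p.coeff 0, ?_⟩
      have := Ideal.mem_map_of_mem q (sub_C_mem_mm p)
      rwa [map_sub, ← algebraMap_eq, AlgHom.commutes] at this
    · have h1 := (IsModuleTopology.continuous_of_linearMap (Algebra.linearMap KK R)).tendsto 0
      rw [map_zero] at h1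
      exact h1.comp ((Valued.tendsto_zero_pow_of_v_lt_one hv).comp (Filter.tendsto_add_atTop_nat 1))
    · simp only [← pow_mul] at hab
      have h1 : (Polynomial.X : ℂ[X]) ^ ((a + 1) * j) = Polynomial.X ^ ((b + 1) * j) :=
        κκ_inj (by simpa using hab)
      have h2 := congrArg Polynomial.natDegree h1
      simp only [Polynomial.natDegree_X_pow] at h2
      have := Nat.eq_of_mul_eq_mul_right hj h2
      omega
  have hcl := cl_monI St (q.comp (aeval ![x, y])) (by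
    have := congrArg (Ideal.map q) hxy
    rw [Ideal.map_span, Set.image_pair] at this
    simpa using this) (S := S) (by omega)
  rw [hn] at hcl
  have hℓ : ∀ d : Fin 2 →₀ ℕ, d.degree < n → ∃ ℓ : R →ₗ[KK] KK, ∀ p, ℓ (q p) = p.coeff d := by
    intro d hd
    refine ⟨(Submodule.liftQ (Submodule.restrictScalars KK (mm KK ^ n)) (lcoeff KK d)
      fun p hp => (mem_pow_idealOfVars_iff' n p).1 hp d hd) ∘ₗ
      (Submodule.Quotient.restrictScalarsEquiv KK (mm KK ^ n)).symm.toLinearMap, fun p => rfl⟩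
  choose! ℓ hℓ using hℓ
  have hV : (⋂ d ∈ Dk n, {r : R | Valued.v (κκ⁻¹ ^ 2 * ℓ d r) ≤ 1}) ∈ nhds (0 : R) := by
    rw [Filter.biInter_finset_mem]
    intro d _
    have hc : Continuous fun r : R => κκ⁻¹ ^ 2 * ℓ d r :=
      continuous_const.mul (IsModuleTopology.continuous_of_linearMap (ℓ d))
    refine (Valued.isOpen_integer KK).preimage hc |>.mem_nhds ?_
    simp
  obtain ⟨Γ1, hΓ1, hΓ⟩ := hcl (s.image fun H => q (ev κκ H)) (by
    intro g hg
    obtain ⟨H, hH, rfl⟩ := Finset.mem_image.1 hg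
    have := Ideal.mem_map_of_mem q (hs H hH)
    rwa [Ideal.map_mapₐ] at this) _ hV
  obtain ⟨Γ2, hΓ2, rfl⟩ := (Ideal.mem_map_iff_of_surjective q hq).1 hΓ1
  obtain ⟨w0, hw0, Γ, hΓ0⟩ := clear_den0 Γ2
  have hw0' : Polynomial.aeval κκ w0 ≠ 0 := fun h => hw0 (κκ_inj (h.trans (map_zero _).symm))
  have hΓm : Γ ∈ mm ℂ[X] := by
    have h1 : ev κκ Γ ∈ mm KK := hΓ0 ▸ Ideal.mul_mem_left _ _ hΓ2
    rw [mem_mm_iff, coeff_map] at h1
    rw [mem_mm_iff]
    exact κκ_inj (h1.trans (map_zero _).symm)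
  have hspan : Ideal.span {ev κκ Γ} = Ideal.span {Γ2} := by
    rw [hΓ0, Ideal.span_singleton_mul_left_unit (IsUnit.map _ (IsUnit.mk0 _ hw0'))]
  have key : ∀ H ∈ s, ∃ e ρ, tt ^ e * (H + tt ^ 2 * ρ) ∈ Ideal.span {Γ} + mm ℂ[X] ^ n := by
    intro H hH
    obtain ⟨g', hg', hV'⟩ := hΓ _ (Finset.mem_image_of_mem _ hH)
    have e : Ideal.span {q Γ2} + (mm KK).map q ^ n = (Ideal.span {Γ2} + mm KK ^ n).map q := by
      rw [Ideal.add_eq_sup, Ideal.add_eq_sup, Ideal.map_sup, Ideal.map_pow,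
        Ideal.map_span q {Γ2}, Set.image_singleton]
    rw [e] at hg'
    obtain ⟨p, hp, rfl⟩ := (Ideal.mem_map_iff_of_surjective q hq).1 hg'
    rw [← map_sub] at hV'
    simp only [Set.mem_iInter, Set.mem_ofPred_eq] at hV'
    let z : P2 KK := ∑ d ∈ Dk n, monomial d (κκ⁻¹ ^ 2 * (p - ev κκ H).coeff d)
    have hz : ∀ d, z.coeff d = if d ∈ Dk n then κκ⁻¹ ^ 2 * (p - ev κκ H).coeff d else 0 := by
      intro d
      simp only [z, coeff_sum, coeff_monomial]
      rw [Finset.sum_ite_eq']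
    have hz1 : p - ev κκ H - C (κκ ^ 2) * z ∈ mm KK ^ n := by
      rw [mem_pow_idealOfVars_iff']
      intro d hd
      rw [coeff_sub, coeff_C_mul, hz, if_pos (mem_Dk.2 hd), ← mul_assoc, ← mul_pow,
        mul_inv_cancel₀ RatFunc.X_ne_zero, one_pow, one_mul, sub_self]
    obtain ⟨w, hw, z', hz'⟩ := clear_den (Polynomial.idealX ℂ).asIdeal.primeCompl z fun d => by
      have h1 : (Polynomial.idealX ℂ).valuation KK (z.coeff d) ≤ 1 := by
        rw [hz]
        split_ifs with hd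
        · have := hV' d hd
          rwa [hℓ d (mem_Dk.1 hd)] at this
        · simp
      obtain ⟨a, w, h⟩ := (Polynomial.idealX ℂ).exists_primeCompl_mul_eq_of_integer _ h1
      exact ⟨w, w.2, a, by rw [aeval_κκ, aeval_κκ, ← h, mul_comm]⟩
    have hw' : ¬ Polynomial.X ∣ w := fun h => hw (Ideal.mem_span_singleton.2 h)
    obtain ⟨a, b, hab⟩ := exists_inv_mod hw'
    have h2 : ev κκ (H + tt ^ 2 * (C b * H + C a * z')) ∈ Ideal.span {ev κκ Γ} + mm KK ^ n := by
      rw [hspan]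
      have h3 := Ideal.mul_mem_left _ (ev κκ (C (a * w)))
        (Ideal.sub_mem _ hp (Ideal.mem_sup_right hz1))
      convert h3 using 1
      have h4 := congrArg (fun r => ev κκ (C r)) hab
      simp only [map_mul, map_add, map_pow, map_one, hz', map_C] at h4 ⊢
      simp only [AlgHom.toRingHom_eq_coe, RingHom.coe_coe, Polynomial.aeval_X] at h4 ⊢
      linear_combination (-(ev κκ H)) * h4
    obtain ⟨e, ρ, h⟩ := desat h2
    refine ⟨e, C b * H + C a * z' + ρ, ?_⟩
    convert h using 2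
    ring
  choose! e ρ hρ using key
  refine ⟨Γ, hΓm, s.sup e, fun H hH => ⟨ρ H, ?_⟩⟩
  obtain ⟨c, hc⟩ := Nat.exists_eq_add_of_le' (Finset.le_sup (f := e) hH)
  rw [hc, pow_add, mul_assoc]
  exact Ideal.mul_mem_left _ _ (hρ H hH)

end Pool.Agent.MP_4403b8_ag

end MrgPart0

-- ======== part 1: formerly Pool.Agent.MP_4403b8_ag.Good
section MrgPart1

/-!
Every monomial ideal of colength at least two is the limit of a good arc.
-/

set_option autoImplicit false

namespace Pool.Agent.MP_4403b8_ag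

open MvPolynomial
open scoped Polynomial

theorem lim_of_monomials {S : Set (Fin 2 →₀ ℕ)} {N : Ideal (P2 ℂ[X])} {e : ℕ}
    (h : ∀ d ∉ std S, ∃ ρ, tt ^ e * (cst (monomial d 1) + tt * ρ) ∈ N) :
    ∀ g ∈ monI ℂ S, ∃ ρ, tt ^ e * (cst g + tt * ρ) ∈ N := by
  let Z : Ideal (P2 ℂ) :=
    { carrier := {g | ∃ ρ, tt ^ e * (cst g + tt * ρ) ∈ N}
      add_mem' := by
        rintro a b ⟨ρ, hρ⟩ ⟨σ, hσ⟩
        refine ⟨ρ + σ, ?_⟩
        convert N.add_mem hρ hσ using 1
        rw [map_add]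
        ring
      zero_mem' := ⟨0, by simp⟩
      smul_mem' := by
        rintro c a ⟨ρ, hρ⟩
        refine ⟨cst c * ρ, ?_⟩
        convert N.mul_mem_left (cst c) hρ using 1
        rw [smul_eq_mul, map_mul]
        ring }
  exact fun g hg => monI_induction (N := Z) h hg

theorem goodArc_of {S S' : Set (Fin 2 →₀ ℕ)} {n : ℕ} (hS' : (std S').ncard = n) (hn1 : 1 ≤ n)
    (x y : P2 KK) (hxy : Ideal.span {x, y} = mm KK)
    (h1 : ∀ d ∉ std S, ∃ ρ, ev κκ (cst (monomial d 1) + tt * ρ) ∈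
      (monI KK S').map (aeval ![x, y] : P2 KK →ₐ[KK] P2 KK))
    (h2 : ∃ g0 g1 ρ, g1 ∉ monI ℂ S ∧ ev κκ (cst g0 + tt * cst g1 + tt ^ 2 * ρ) ∈
      (monI KK S').map (aeval ![x, y] : P2 KK →ₐ[KK] P2 KK)) :
    ∃ Γ e, GoodArc n (monI ℂ S) Γ e := by
  classical
  choose! ρ hρ using h1
  obtain ⟨g0, g1, ρ0, hg1, h0⟩ := h2
  obtain ⟨Γ, hΓ, e, h⟩ := arc_of_coords hS' hn1 x y hxy
    (insert (cst g0 + tt * cst g1 + tt ^ 2 * ρ0)
      (((Dk n).filter (· ∉ std S)).image fun d => cst (monomial d 1) + tt * ρ d)) (by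
      intro H hH
      rcases Finset.mem_insert.1 hH with rfl | hH
      · exact h0
      · obtain ⟨d, hd, rfl⟩ := Finset.mem_image.1 hH
        exact hρ d (Finset.mem_filter.1 hd).2)
  refine ⟨Γ, e, hΓ, lim_of_monomials fun d hd => ?_, ?_⟩
  · by_cases hdn : d.degree < n
    · obtain ⟨σ, hσ⟩ := h _ (Finset.mem_insert_of_mem (Finset.mem_image_of_mem _
        (Finset.mem_filter.2 ⟨mem_Dk.2 hdn, hd⟩)))
      refine ⟨ρ d + tt * σ, ?_⟩
      convert hσ using 2
      ring
    · refine ⟨0, Ideal.mem_sup_right (Ideal.mul_mem_left _ _ ?_)⟩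
      rw [mul_zero, add_zero]
      exact map_mem_pow _ ((monomial_mem_pow_idealOfVars_iff n d one_ne_zero).2 (by omega))
  · obtain ⟨σ, hσ⟩ := h _ (Finset.mem_insert_self _ _)
    refine ⟨g0, g1, ρ0 + σ, hg1, ?_⟩
    convert hσ using 2
    ring

theorem monomial_not_mem {S : Set (Fin 2 →₀ ℕ)} {d : Fin 2 →₀ ℕ} (hd : d ∈ std S) {c : ℂ}
    (hc : c ≠ 0) : monomial d c ∉ monI ℂ S := fun h => hc (by simpa using mem_monI.1 h d hd)

theorem goodArc_shear {S : Set (Fin 2 →₀ ℕ)} {n : ℕ} (hS : (std S).ncard = n) (hn1 : 1 ≤ n)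
    (i j : Fin 2) (e : ℕ → ℕ → (Fin 2 →₀ ℕ))
    (he : ∀ (A : Type) [CommRing A] (a b : ℕ),
      (monomial (e a b) (1 : A) : P2 A) = X i ^ a * X j ^ b)
    (hsurj : ∀ d, ∃ a b, e a b = d) (x y : P2 KK) (hxy : Ideal.span {x, y} = mm KK)
    (hi : ![x, y] i = X i + C κκ * X j) (hj : ![x, y] j = X j) {a b : ℕ}
    (h1 : e (a + 1) b ∉ std S) (h2 : e a (b + 1) ∈ std S) :
    ∃ Γ e, GoodArc n (monI ℂ S) Γ e := by
  have key : ∀ a b, e a b ∉ std S → ev κκ ((X i + tt * X j) ^ a * X j ^ b) ∈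
      (monI KK S).map (aeval ![x, y] : P2 KK →ₐ[KK] P2 KK) := by
    intro a b h
    have := Ideal.mem_map_of_mem (aeval ![x, y] : P2 KK →ₐ[KK] P2 KK) (monomial_mem_monI h (1 : KK))
    rw [he, map_mul, map_pow, map_pow, aeval_X, aeval_X, hi, hj] at this
    simpa [ev_tt] using this
  refine goodArc_of hS hn1 x y hxy (fun d hd => ?_) ?_
  · obtain ⟨a, b, rfl⟩ := hsurj d
    obtain ⟨c, hc⟩ := sub_dvd_pow_sub_pow (X i + tt * X j) (X i) a
    refine ⟨X j * c * X j ^ b, ?_⟩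
    convert key a b hd using 2
    rw [he]
    simp only [map_mul, map_pow, map_X]
    linear_combination (-X j ^ b) * hc
  · obtain ⟨c, hc⟩ := sq_dvd_add_pow_sub_sub (tt * X j) (X i) (a + 1)
    refine ⟨X i ^ (a + 1) * X j ^ b, monomial (e a (b + 1)) ((a + 1 : ℕ) : ℂ),
      X j ^ 2 * c * X j ^ b, monomial_not_mem h2 (Nat.cast_ne_zero.2 (by omega)), ?_⟩
    convert key (a + 1) b h1 using 2
    have : (monomial (e a (b + 1)) ((a + 1 : ℕ) : ℂ) : P2 ℂ) =
        ((a + 1 : ℕ) : P2 ℂ) * (X i ^ a * X j ^ (b + 1)) := by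
      rw [← he, ← map_natCast C, C_mul_monomial, mul_one]
    rw [this]
    simp only [map_mul, map_pow, map_X, map_natCast]
    rw [Nat.add_sub_cancel] at hc
    linear_combination (-X j ^ b) * hc

theorem span_pair_eq {R : Type*} [CommRing R] {s g y u η : R} (hu : IsUnit u)
    (hy : y = u * s + η * g) : Ideal.span {y, g} = Ideal.span {s, g} := by
  apply le_antisymm
  · rw [Ideal.span_le]
    rintro x (rfl | rfl)
    · exact Ideal.mem_span_pair.2 ⟨u, η, hy.symm⟩
    · exact Ideal.subset_span (by simp)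
  · rw [Ideal.span_le]
    rintro x (rfl | rfl)
    · obtain ⟨u', hu'⟩ := hu.exists_left_inv
      refine Ideal.mem_span_pair.2 ⟨u', -(u' * η), ?_⟩
      rw [hy]
      linear_combination x * hu'
    · exact Ideal.subset_span (by simp)

theorem std_compl {Λ : Set (Fin 2 →₀ ℕ)} (h : ∀ d e, d ≤ e → e ∈ Λ → d ∈ Λ) : std Λᶜ = Λ := by
  ext d
  constructor
  · intro hd
    by_contra h'
    exact hd ⟨d, h', le_rfl⟩
  · rintro hd ⟨s, hs, hsd⟩
    exact hs (h s d hsd hd)

theorem goodArc_pow {S : Set (Fin 2 →₀ ℕ)} {n : ℕ} (hS : (std S).ncard = n) (hn1 : 1 ≤ n) {l : ℕ}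
    (hl : std S = {d | d.degree < l + 2}) : ∃ Γ e, GoodArc n (monI ℂ S) Γ e := by
  let Λ : Set (Fin 2 →₀ ℕ) := insert (ex 0 (l + 2)) (std S \ {ex 1 l})
  have hmem : ∀ d, d ∈ Λ ↔ (d 0 = 0 ∧ d 1 = l + 2) ∨ (d 0 + d 1 < l + 2 ∧ ¬ (d 0 = 1 ∧ d 1 = l)) := by
    intro d
    have h1 : ∀ a b, d = ex a b ↔ d 0 = a ∧ d 1 = b := fun a b =>
      ⟨fun h => by simp [h], fun h => fin2_ext (by simp [h.1]) (by simp [h.2])⟩
    simp only [Λ, hl, Set.mem_insert_iff, Set.mem_sdiff, Set.mem_ofPred_eq, Set.mem_singleton_iff,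
      h1, degree_fin2]
  have hΛ : std Λᶜ = Λ := std_compl fun d e hde he => by
    rw [hmem] at he ⊢
    rw [le_fin2] at hde
    omega
  have hcard : (std Λᶜ).ncard = n := by
    rw [hΛ, ← hS]
    refine Set.ncard_exchange ?_ ?_
    · simp [hl, degree_fin2]
    · simp [hl, degree_fin2]
      omega
  have hκ : IsUnit (C κκ : P2 KK) := IsUnit.map _ (IsUnit.mk0 _ RatFunc.X_ne_zero)
  have hxy : Ideal.span {(C κκ * X 0 - X 1 ^ 2 : P2 KK), X 1} = mm KK := by
    rw [mm_eq]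
    exact span_pair_eq hκ (η := -X 1) (by ring)
  set Φ : P2 KK →ₐ[KK] P2 KK := aeval ![C κκ * X 0 - X 1 ^ 2, X 1] with hΦ
  have hJ : ∀ a b, ex a b ∉ Λ →
      (C κκ * X 0 - X 1 ^ 2) ^ a * X 1 ^ b ∈ (monI KK Λᶜ).map Φ := by
    intro a b h
    have := Ideal.mem_map_of_mem Φ (monomial_mem_monI (S := Λᶜ) (hΛ.symm ▸ h) (1 : KK))
    rw [monomial_ex] at this
    simpa [hΦ] using this
  have hpow : mm KK ^ (l + 3) ≤ (monI KK Λᶜ).map Φ := by
    have h1 : (mm KK).map Φ = mm KK := by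
      conv_lhs => rw [mm_eq, Ideal.map_span, Set.image_pair]
      simpa [hΦ] using hxy
    conv_lhs => rw [← h1, ← Ideal.map_pow]
    refine Ideal.map_mono fun p hp => mem_monI.2 fun d hd => ?_
    refine (mem_pow_idealOfVars_iff' _ _).1 hp d ?_
    rw [hΛ, hmem] at hd
    rw [degree_fin2]
    omega
  have hf : ev κκ (cst (X 1 ^ (l + 2)) + tt * -(X 0 * X 1 ^ l)) ∈ (monI KK Λᶜ).map Φ := by
    have := Submodule.neg_mem _ (hJ 1 l (by rw [hmem]; simp))
    convert this using 1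
    simp
    ring
  have hc : ∀ d : Fin 2 →₀ ℕ, ev κκ (cst (monomial d 1) + tt * 0) = monomial d 1 := by
    intro d
    simp
  refine goodArc_of hcard hn1 _ _ hxy (fun d hd => ?_) ?_
  · rw [hl, Set.mem_ofPred_eq, degree_fin2] at hd
    by_cases h3 : l + 3 ≤ d 0 + d 1
    · refine ⟨0, ?_⟩
      rw [hc]
      exact hpow ((monomial_mem_pow_idealOfVars_iff _ d one_ne_zero).2 (by rwa [degree_fin2]))
    · rcases h0 : d 0 with _ | a
      · refine ⟨-(X 0 * X 1 ^ l), ?_⟩
        have : d = ex 0 (l + 2) := fin2_ext (by simpa using h0) (by simp; omega)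
        rw [this, monomial_ex, pow_zero, one_mul]
        exact hf
      · refine ⟨0, ?_⟩
        rw [hc, ← ex_eta d, monomial_ex, h0]
        have h4 := hJ (a + 1) (d 1) (by rw [hmem]; simp; omega)
        have hX0 : (C κκ * X 0 : P2 KK) ∈ mm KK := Ideal.mul_mem_left _ _ (X_mem_mm 0)
        have h5 := pow_sub_pow_mem (m := mm KK) (x := C κκ * X 0 - X 1 ^ 2) (y := C κκ * X 0)
          (Ideal.sub_mem _ hX0 (Ideal.pow_mem_of_mem _ (X_mem_mm 1) 2 (by omega))) hX0 a
        have h6 : ((C κκ * X 0 - X 1 ^ 2) ^ (a + 1) - (C κκ * X 0) ^ (a + 1)) * X 1 ^ d 1 ∈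
            mm KK ^ (l + 3) := by
          rw [show l + 3 = 2 + a + d 1 by omega, pow_add, pow_add (mm KK)]
          refine Ideal.mul_mem_mul (Ideal.mul_mono_left ?_ h5) (Ideal.pow_mem_pow (X_mem_mm 1) _)
          rw [Ideal.span_singleton_le_iff_mem, sub_sub_cancel_left]
          exact Submodule.neg_mem _ (Ideal.pow_mem_pow (X_mem_mm 1) 2)
        have h7 := Ideal.sub_mem _ h4 (hpow h6)
        refine (Ideal.unit_mul_mem_iff_mem _ (hκ.pow (a + 1))).1 ?_
        convert h7 using 1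
        ring
  · refine ⟨X 1 ^ (l + 2), monomial (ex 1 l) (-1), 0,
      monomial_not_mem (by simp [hl, degree_fin2]; omega) (by norm_num), ?_⟩
    convert hf using 2
    rw [map_neg, monomial_ex]
    simp

theorem exists_goodArc {S : Set (Fin 2 →₀ ℕ)} {n : ℕ} (hS : (std S).ncard = n) (hn : 2 ≤ n) :
    ∃ Γ e, GoodArc n (monI ℂ S) Γ e := by
  classical
  by_cases hA : ∃ a b, ex (a + 1) b ∉ std S ∧ ex a (b + 1) ∈ std S
  · obtain ⟨a, b, h1, h2⟩ := hA
    refine goodArc_shear hS (by omega) 0 1 ex (fun A _ a b => monomial_ex a b)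
      (fun d => ⟨_, _, ex_eta d⟩) (X 0 + C κκ * X 1) (X 1) ?_ rfl rfl h1 h2
    rw [mm_eq]
    exact span_pair_eq isUnit_one (η := C κκ) (by ring)
  by_cases hB : ∃ a b, ex b (a + 1) ∉ std S ∧ ex (b + 1) a ∈ std S
  · obtain ⟨a, b, h1, h2⟩ := hB
    refine goodArc_shear hS (by omega) 1 0 (fun a b => ex b a)
      (fun A _ a b => by rw [monomial_ex, mul_comm])
      (fun d => ⟨_, _, ex_eta d⟩) (X 0) (X 1 + C κκ * X 0) ?_ rfl rfl h1 h2
    rw [mm_eq, Set.pair_comm, Set.pair_comm (X 0)]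
    exact span_pair_eq isUnit_one (η := C κκ) (by ring)
  push Not at hA hB
  have hf : (std S).Finite := Set.finite_of_ncard_pos (by omega)
  have h1 : ∀ a b, ex a b ∈ std S ↔ ex 0 (a + b) ∈ std S := by
    intro a
    induction a with
    | zero => simp
    | succ a ih =>
      intro b
      rw [show a + 1 + b = a + (b + 1) by omega, ← ih]
      exact ⟨fun h => by_contra fun h' => hB b a h' h, fun h => by_contra fun h' => hA a b h' h⟩
  have hex : ∃ k, ex 0 k ∉ std S := ⟨n, fun h => by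
    have := degree_lt_ncard hf h
    rw [degree_fin2, ex_one] at this
    omega⟩
  have h2 : std S = {d | d.degree < Nat.find hex} := by
    ext d
    rw [← ex_eta d, h1, Set.mem_ofPred_eq, degree_fin2, ex_zero, ex_one]
    constructor
    · intro h
      by_contra h'
      exact Nat.find_spec hex (std_lower (le_fin2.2 (by simp only [ex_zero, ex_one]; omega)) h)
    · intro h
      by_contra h'
      exact Nat.find_min hex h h'
  obtain ⟨l, hl⟩ : ∃ l, Nat.find hex = l + 2 := by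
    refine ⟨Nat.find hex - 2, ?_⟩
    by_contra h
    have h3 : std S ⊆ {0} := by
      intro d hd
      rw [h2, Set.mem_ofPred_eq] at hd
      exact (Finsupp.degree_eq_zero_iff d).1 (by omega)
    have := Set.ncard_le_ncard h3 (Set.toFinite _)
    rw [Set.ncard_singleton] at this
    omega
  exact goodArc_pow hS (by omega) (hl ▸ h2)

end Pool.Agent.MP_4403b8_ag

end MrgPart1

-- ======== part 2: formerly Pool.Agent.MP_4403b8_ag.Small
section MrgPart2

/-!
The cases `n = 2` and `n = 3`, by pencils, and the general theorem.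
-/

set_option autoImplicit false

namespace Pool.Agent.MP_4403b8_ag

open MvPolynomial
open scoped Polynomial

theorem dvd_of_mem_curv {v : Fin 2 → ℂ[X]} (hv : ∀ l, Polynomial.X ∣ v l) {g f : P2 ℂ} {n : ℕ}
    (hg : aeval v g = 0) (hf : f ∈ Ideal.span {g} + mm ℂ ^ n) :
    Polynomial.X ^ n ∣ aeval v f := by
  obtain ⟨x, hx, r, hr, rfl⟩ := Submodule.mem_sup.1 hf
  obtain ⟨u, rfl⟩ := Ideal.mem_span_singleton'.1 hx
  rw [map_add, map_mul, hg, mul_zero, zero_add, ← Ideal.mem_span_singleton,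
    ← Ideal.span_singleton_pow]
  have h1 : (mm ℂ).map (aeval v : P2 ℂ →ₐ[ℂ] ℂ[X]) ≤ Ideal.span {Polynomial.X} := by
    rw [Ideal.map_span, Ideal.span_le]
    rintro _ ⟨_, ⟨l, rfl⟩, rfl⟩
    simpa [Ideal.mem_span_singleton] using hv l
  refine Ideal.pow_right_mono h1 n ?_
  rw [← Ideal.map_pow]
  exact Ideal.mem_map_of_mem _ hr

theorem ev_pencil (a : ℂ) (p q : P2 ℂ) : ev a (cst p + tt * cst q) = p + C a * q := by
  rw [map_add, map_mul, ev_cst, ev_cst, ev_tt]

theorem pencil_not_mem {I : Ideal (P2 ℂ)} {p q : P2 ℂ} (hp : p ∈ I) (hq : q ∉ I) {a : ℂ}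
    (ha : a ≠ 0) : p + C a * q ∉ I := by
  intro h
  have := I.sub_mem h hp
  rw [add_sub_cancel_left] at this
  exact hq ((Ideal.unit_mul_mem_iff_mem _ (IsUnit.map _ (IsUnit.mk0 _ ha))).1 this)

theorem pencil_chart {n : ℕ} {S : Set (Fin 2 →₀ ℕ)} {p q : P2 ℂ} (hpm : p ∈ mm ℂ) (hqm : q ∈ mm ℂ)
    (hp : p ∈ monI ℂ S) (hq : q ∉ monI ℂ S)
    (hlim : ∀ d ∉ std S, ∃ ρ, tt ^ 1 * (cst (monomial d 1) + tt * ρ) ∈
      Ideal.span {cst p + tt * cst q} + mm ℂ[X] ^ n)
    (hs : ∀ a : ℂ, a ≠ 0 → ∃ i : Fin 2, (p + C a * q).coeff (Finsupp.single i 1) ≠ 0)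
    (hv : ∀ a : ℂ, a ≠ 0 → ∃ v : Fin 2 → ℂ[X], (∀ l, Polynomial.X ∣ v l) ∧
      aeval v (p + C a * q) = 0 ∧ ¬ Polynomial.X ^ n ∣ aeval v q) :
    Chart n (monI ℂ S) (cst p + tt * cst q) := by
  have hq' : ∀ a : ℂ, a ≠ 0 → q ∉ Ideal.span {p + C a * q} + mm ℂ ^ n := by
    intro a ha h
    obtain ⟨v, h1, h2, h3⟩ := hv a ha
    exact h3 (dvd_of_mem_curv h1 h2 h)
  refine ⟨⟨1, Ideal.add_mem _ (map_mem_mm _ hpm) (Ideal.mul_mem_left _ _ (map_mem_mm _ hqm)),
    lim_of_monomials hlim, p, q, 0, hq, ?_⟩, ?_, fun a b ha _ h => ?_, fun a ha g1 hg => ?_,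
    fun a ha => ?_⟩
  · rw [mul_zero, add_zero]
    exact Ideal.mem_sup_left (Ideal.mul_mem_left _ _ (Ideal.subset_span rfl))
  · simpa only [ev_pencil] using hs
  · rw [ev_pencil, ev_pencil] at h
    by_contra hab
    have h1 := Ideal.sub_mem _ h (Ideal.mem_sup_left (Ideal.subset_span rfl))
    have e : p + C b * q - (p + C a * q) = C (b - a) * q := by
      rw [map_sub]
      ring
    rw [e] at h1
    exact hq' a ha ((Ideal.unit_mul_mem_iff_mem _ (IsUnit.map _ (IsUnit.mk0 _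
      (sub_ne_zero.2 (Ne.symm hab))))).1 h1)
  · have : g1 = q := by
      ext d
      rw [hg d, tt]
      simp only [coeff_add, coeff_C_mul, coeff_map]
      simp
    rw [this, ev_pencil]
    exact hq' a ha
  · rw [ev_pencil]
    exact pencil_not_mem hp hq ha

theorem joined_pencil {n : ℕ} (hn : 1 ≤ n) {S T : Set (Fin 2 →₀ ℕ)} (hS : (std S).ncard = n)
    (hT : (std T).ncard = n) {p q : P2 ℂ} (hpm : p ∈ mm ℂ) (hqm : q ∈ mm ℂ)
    (hpS : p ∈ monI ℂ S) (hqS : q ∉ monI ℂ S) (hqT : q ∈ monI ℂ T) (hpT : p ∉ monI ℂ T)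
    (hlimS : ∀ d ∉ std S, ∃ ρ, tt ^ 1 * (cst (monomial d 1) + tt * ρ) ∈
      Ideal.span {cst p + tt * cst q} + mm ℂ[X] ^ n)
    (hlimT : ∀ d ∉ std T, ∃ ρ, tt ^ 1 * (cst (monomial d 1) + tt * ρ) ∈
      Ideal.span {cst q + tt * cst p} + mm ℂ[X] ^ n)
    (hs : ∀ a : ℂ, a ≠ 0 → ∃ i : Fin 2, (p + C a * q).coeff (Finsupp.single i 1) ≠ 0)
    (hv : ∀ a : ℂ, a ≠ 0 → ∃ v : Fin 2 → ℂ[X], (∀ l, Polynomial.X ∣ v l) ∧
      aeval v (p + C a * q) = 0 ∧ ¬ Polynomial.X ^ n ∣ aeval v q) :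
    Joined n (monI ℂ S) (monI ℂ T) := by
  have hSf : (std S).Finite := Set.finite_of_ncard_pos (by omega)
  have hTf : (std T).Finite := Set.finite_of_ncard_pos (by omega)
  have : Module.Finite ℂ (P2 ℂ ⧸ monI ℂ S) := finite_quot (pow_le_monI hSf)
  have : Module.Finite ℂ (P2 ℂ ⧸ monI ℂ T) := finite_quot (pow_le_monI hTf)
  have e : ∀ a : ℂ, a ≠ 0 → q + C a * p = C a * (p + C a⁻¹ * q) := by
    intro a ha
    rw [mul_add, ← mul_assoc, ← map_mul, mul_inv_cancel₀ ha, map_one, one_mul, add_comm]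
  refine assemble (D := 1) (by rw [finrank_monI, hS]) (by rw [finrank_monI, hT])
    (fun h => hpT (h ▸ hpS)) ?_ (pencil_chart hpm hqm hpS hqS hlimS hs hv)
    (pencil_chart hqm hpm hqT hpT hlimT (fun a ha => ?_) fun a ha => ?_) fun a ha => ?_
  · intro A _ _ a b hab
    have hab' : (C a : P2 A) * C b = 1 := by rw [← map_mul, hab, map_one]
    have hc : ∀ g : P2 ℂ, ev b (cst g) = ev a (cst g) := by
      intro g
      ext d
      simp [coeff_map]
    simp only [map_add, map_mul, ev_tt, hc, pow_one]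
    linear_combination (-(ev a (cst q))) * hab'
  · obtain ⟨i, hi⟩ := hs a⁻¹ (inv_ne_zero ha)
    refine ⟨i, ?_⟩
    rw [e a ha, coeff_C_mul]
    exact mul_ne_zero ha hi
  · obtain ⟨v, h1, h2, h3⟩ := hv a⁻¹ (inv_ne_zero ha)
    have h4 : aeval v (q + C a * p) = 0 := by rw [e a ha, map_mul, h2, mul_zero]
    refine ⟨v, h1, h4, fun h => h3 ?_⟩
    rw [map_add, map_mul, add_eq_zero_iff_eq_neg] at h4
    rw [h4]
    exact (h.mul_left _).neg_right
  · rw [ev_pencil]
    intro h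
    apply pencil_not_mem hqT hpT (inv_ne_zero ha)
    rw [e _ (inv_ne_zero ha), inv_inv]
    exact Ideal.mul_mem_left _ _ h

section

variable {i j : Fin 2}

theorem degree_ij (hij : i ≠ j) (d : Fin 2 →₀ ℕ) : d.degree = d i + d j := by
  rw [degree_fin2]
  fin_cases i <;> fin_cases j <;> simp_all [add_comm]

theorem ext_ij (hij : i ≠ j) {d e : Fin 2 →₀ ℕ} (h1 : d i = e i) (h2 : d j = e j) : d = e := by
  fin_cases i <;> fin_cases j
  · exact absurd rfl hij
  · exact fin2_ext h1 h2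
  · exact fin2_ext h2 h1
  · exact absurd rfl hij

theorem monomial_ij (hij : i ≠ j) {A : Type*} [CommRing A] (d : Fin 2 →₀ ℕ) :
    (monomial d (1 : A) : P2 A) = X i ^ d i * X j ^ d j := by
  rw [X_pow_eq_monomial, X_pow_eq_monomial, monomial_mul, mul_one]
  congr 2
  exact ext_ij hij (by simp [hij]) (by simp [hij.symm])

theorem stdA (hij : i ≠ j) {S : Set (Fin 2 →₀ ℕ)} {n : ℕ} (hn : 1 ≤ n) (hS : (std S).ncard = n)
    (hi : Finsupp.single i 1 ∉ std S) (d : Fin 2 →₀ ℕ) : d ∈ std S ↔ d i = 0 ∧ d j < n := by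
  have hf : (std S).Finite := Set.finite_of_ncard_pos (by omega)
  have h1 : ∀ d ∈ std S, d i = 0 ∧ d j < n := by
    intro d hd
    have h2 := degree_lt_ncard hf hd
    rw [degree_ij hij] at h2
    refine ⟨by_contra fun h => hi (std_lower ?_ hd), by omega⟩
    rw [Finsupp.single_le_iff]
    omega
  have h2 : std S = (fun b => Finsupp.single j b) '' Set.Iio n := by
    refine Set.eq_of_subset_of_ncard_le (fun d hd => ⟨d j, (h1 d hd).2, ?_⟩) ?_
      ((Set.finite_Iio n).image _)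
    · exact ext_ij hij (by simp [hij, (h1 d hd).1]) (by simp)
    · rw [Set.ncard_image_of_injective _ (Finsupp.single_injective j), Set.ncard_Iio_nat, hS]
  refine ⟨h1 d, fun h => ?_⟩
  rw [h2]
  exact ⟨d j, h.2, ext_ij hij (by simp [hij, h.1]) (by simp)⟩

theorem stdM {S : Set (Fin 2 →₀ ℕ)} {n : ℕ} (hn1 : 1 ≤ n) (hn : n ≤ 3) (hS : (std S).ncard = n)
    (h : ∀ i, Finsupp.single i 1 ∈ std S) : n = 3 ∧ ∀ d, d ∈ std S ↔ d.degree < 2 := by
  have hf : (std S).Finite := Set.finite_of_ncard_pos (by omega)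
  have hsub : (Dk 2 : Set (Fin 2 →₀ ℕ)) ⊆ std S := by
    intro d hd
    rw [Finset.mem_coe, mem_Dk, degree_fin2] at hd
    by_cases h0 : d 0 = 0
    · exact std_lower (le_fin2.2 (by simp; omega)) (h 1)
    · exact std_lower (le_fin2.2 (by simp; omega)) (h 0)
  have hc : (Dk 2 : Set (Fin 2 →₀ ℕ)).ncard = 3 := by
    rw [Set.ncard_coe_finset, card_Dk]
    decide
  have h1 := Set.eq_of_subset_of_ncard_le hsub (by omega) hf
  refine ⟨by rw [← hS, ← h1, hc], fun d => ?_⟩
  rw [← h1, Finset.mem_coe, mem_Dk]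

theorem X_eq (i : Fin 2) : (X i : P2 ℂ) = monomial (Finsupp.single i 1) 1 := rfl

theorem lim_A (hij : i ≠ j) {S : Set (Fin 2 →₀ ℕ)} {n : ℕ}
    (hS : ∀ d, d ∈ std S ↔ d i = 0 ∧ d j < n) (q : P2 ℂ) : ∀ d ∉ std S, ∃ ρ,
    tt ^ 1 * (cst (monomial d 1) + tt * ρ) ∈
      Ideal.span {cst (X i) + tt * cst q} + mm ℂ[X] ^ n := by
  intro d hd
  rw [hS] at hd
  rcases h0 : d i with _ | a
  · refine ⟨0, Ideal.mem_sup_right (Ideal.mul_mem_left _ _ ?_)⟩
    rw [mul_zero, add_zero]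
    refine map_mem_pow _ ((monomial_mem_pow_idealOfVars_iff n d one_ne_zero).2 ?_)
    rw [degree_ij hij]
    omega
  · refine ⟨cst q * (X i ^ a * X j ^ d j), Ideal.mem_sup_left (Ideal.mul_mem_left _ _ ?_)⟩
    rw [Ideal.mem_span_singleton']
    refine ⟨X i ^ a * X j ^ d j, ?_⟩
    rw [monomial_ij hij, h0]
    simp only [map_mul, map_pow, map_X]
    ring

theorem joined_A (hij : i ≠ j) {n : ℕ} (hn : 2 ≤ n) {S T : Set (Fin 2 →₀ ℕ)}
    (hS : (std S).ncard = n) (hT : (std T).ncard = n) (hi : Finsupp.single i 1 ∉ std S)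
    (hj : Finsupp.single j 1 ∉ std T) : Joined n (monI ℂ S) (monI ℂ T) := by
  have h1 := stdA hij (by omega) hS hi
  have h2 := stdA hij.symm (by omega) hT hj
  refine joined_pencil (by omega) hS hT (X_mem_mm i) (X_mem_mm j) (monomial_mem_monI hi 1)
    (monomial_not_mem ((h1 _).2 (by simp [hij]; omega)) one_ne_zero) (monomial_mem_monI hj 1)
    (monomial_not_mem ((h2 _).2 (by simp [hij.symm]; omega)) one_ne_zero)
    (lim_A hij h1 _) (lim_A hij.symm h2 _) (fun a _ => ⟨i, ?_⟩) fun a _ =>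
    ⟨fun l => if l = i then -(Polynomial.C a * Polynomial.X) else Polynomial.X, fun l => ?_, ?_, ?_⟩
  · simp [coeff_X, Finsupp.single_eq_single_iff, hij.symm]
  · dsimp only
    split_ifs <;> simp
  · simp [hij.symm]
  · simp only [aeval_X, if_neg hij.symm]
    rw [Polynomial.X_pow_dvd_iff]
    intro h
    simpa using h 1 (by omega)

theorem joined_B (hij : i ≠ j) {S T : Set (Fin 2 →₀ ℕ)} (hS : (std S).ncard = 3)
    (hT : (std T).ncard = 3) (hi : Finsupp.single i 1 ∉ std S)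
    (h2 : ∀ d, d ∈ std T ↔ d.degree < 2) : Joined 3 (monI ℂ S) (monI ℂ T) := by
  have h1 := stdA hij (by omega) hS hi
  have e : (X j ^ 2 : P2 ℂ) = monomial (Finsupp.single j 2) 1 := X_pow_eq_monomial
  refine joined_pencil (q := X j ^ 2) (by omega) hS hT (X_mem_mm i)
    (Ideal.pow_mem_of_mem _ (X_mem_mm j) 2 (by omega)) (monomial_mem_monI hi 1)
    (e ▸ monomial_not_mem ((h1 _).2 (by simp [hij])) one_ne_zero)
    (e ▸ monomial_mem_monI (by simp [h2]) 1)
    (monomial_not_mem ((h2 _).2 (by simp)) one_ne_zero)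
    (lim_A hij h1 _) (fun d hd => ?_) (fun a _ => ⟨i, ?_⟩) fun a _ =>
    ⟨fun l => if l = i then -(Polynomial.C a * Polynomial.X ^ 2) else Polynomial.X,
      fun l => ?_, ?_, ?_⟩
  · rw [h2, degree_ij hij] at hd
    rw [monomial_ij hij]
    simp only [map_mul, map_pow, map_X]
    rcases h0 : d i with _ | a
    · obtain ⟨b, hb⟩ : ∃ b, d j = b + 2 := ⟨d j - 2, by omega⟩
      refine ⟨X i * X j ^ b, Ideal.mem_sup_left (Ideal.mul_mem_left _ _ ?_)⟩
      rw [Ideal.mem_span_singleton', hb]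
      exact ⟨X j ^ b, by ring⟩
    · refine ⟨0, ?_⟩
      have h3 : (X i ^ a * X j ^ d j : P2 ℂ[X]) ∈ mm ℂ[X] ^ 1 := by
        refine Ideal.pow_le_pow_right (by omega : 1 ≤ a + d j) ?_
        rw [pow_add]
        exact Ideal.mul_mem_mul (Ideal.pow_mem_pow (X_mem_mm i) _) (Ideal.pow_mem_pow (X_mem_mm j) _)
      have h4 := Ideal.mul_mem_mul h3 (Ideal.pow_mem_pow (X_mem_mm (A := ℂ[X]) j) 2)
      rw [← pow_add] at h4
      have h5 := Ideal.sub_mem _ (Ideal.mem_sup_left (T := mm ℂ[X] ^ 3)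
        (Ideal.mul_mem_left _ (X i ^ a * X j ^ d j)
          (Ideal.subset_span (s := {X j ^ 2 + tt * X i}) rfl))) (Ideal.mem_sup_right h4)
      rw [Ideal.add_eq_sup]
      convert h5 using 1
      ring
  · simp [coeff_X, e, coeff_monomial, Finsupp.single_eq_single_iff]
  · dsimp only
    split_ifs
    · exact ((dvd_pow_self _ two_ne_zero).mul_left _).neg_right
    · exact dvd_rfl
  · simp [hij.symm]
  · simp only [map_pow, aeval_X, if_neg hij.symm]
    rw [Polynomial.X_pow_dvd_iff]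
    intro h
    simpa using h 2 (by omega)

end

theorem monI_congr {S T : Set (Fin 2 →₀ ℕ)} (h : ∀ d, d ∈ std S ↔ d ∈ std T) :
    monI ℂ S = monI ℂ T := by
  ext p
  simp only [mem_monI, h]

theorem joined_monI {n : ℕ} (hn : 1 ≤ n) {S T : Set (Fin 2 →₀ ℕ)} (hS : (std S).ncard = n)
    (hT : (std T).ncard = n) (hST : monI ℂ S ≠ monI ℂ T) : Joined n (monI ℂ S) (monI ℂ T) := by
  by_cases h4 : 4 ≤ n
  · obtain ⟨Γ0, e0, G0⟩ := exists_goodArc hS (by omega)
    obtain ⟨Γ1, e1, G1⟩ := exists_goodArc hT (by omega)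
    exact joined_of_arcs h4 hS hT hST G0 G1
  have hex : ∀ i : Fin 2, ∃ j, i ≠ j := by decide
  by_cases h1 : n = 1
  · refine absurd (monI_congr fun d => ?_) hST
    have key : ∀ S : Set (Fin 2 →₀ ℕ), (std S).ncard = n → (d ∈ std S ↔ d 0 = 0 ∧ d 1 < n) := by
      intro S hS
      refine stdA (by decide) hn hS (fun h => ?_) d
      have := degree_lt_ncard (Set.finite_of_ncard_pos (by omega)) h
      simp at this
      omega
    rw [key S hS, key T hT]
  by_cases hA : ∃ i, Finsupp.single i 1 ∉ std S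
  · obtain ⟨i, hi⟩ := hA
    obtain ⟨j, hij⟩ := hex i
    by_cases hB : ∃ i, Finsupp.single i 1 ∉ std T
    · obtain ⟨k, hk⟩ := hB
      by_cases hik : i = k
      · subst hik
        exact absurd (monI_congr fun d => by rw [stdA hij hn hS hi, stdA hij hn hT hk]) hST
      · exact joined_A hik (by omega) hS hT hi hk
    · push Not at hB
      obtain ⟨rfl, h⟩ := stdM hn (by omega) hT hB
      exact joined_B hij hS hT hi h
  · push Not at hA
    obtain ⟨rfl, h⟩ := stdM hn (by omega) hS hA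
    by_cases hB : ∃ i, Finsupp.single i 1 ∉ std T
    · obtain ⟨i, hi⟩ := hB
      obtain ⟨j, hij⟩ := hex i
      exact (joined_B hij hT hS hi h).symm
    · push Not at hB
      obtain ⟨-, h'⟩ := stdM hn (by omega) hT hB
      exact absurd (monI_congr fun d => by rw [h, h']) hST

end Pool.Agent.MP_4403b8_ag

end MrgPart2

-- ======== part 3: formerly Pool.Agent.MP_4403b8_ag.Line
section MrgPart3

/-!
The two standard charts of the projective line.
-/

set_option autoImplicit false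

namespace Pool.Agent.MP_4403b8_ag

open AlgebraicGeometry CategoryTheory MvPolynomial HomogeneousLocalization

attribute [local instance] MvPolynomial.gradedAlgebra

/-- the grading -/
noncomputable abbrev gr := MvPolynomial.homogeneousSubmodule (Fin 2) ℂ

theorem hX (i : Fin 2) : (X i : P2 ℂ) ∈ gr 1 := isHomogeneous_X ℂ i

/-- constants -/
noncomputable def cA (f : P2 ℂ) : ℂ →+* Away gr f :=
  (fromZeroRingHom gr _).comp (algebraMap ℂ (gr 0))

/-- the coordinate of a chart -/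
noncomputable def τ (i : Fin 2) : Away gr (X i : P2 ℂ) :=
  Away.isLocalizationElem (hX i) (hX i.rev)

theorem ne_rev (i : Fin 2) : i ≠ i.rev := by fin_cases i <;> decide

theorem eq_rev {i k : Fin 2} (h : i ≠ k) : k = i.rev := by
  fin_cases i <;> fin_cases k <;> simp_all

theorem val_cA (f : P2 ℂ) (c : ℂ) :
    (cA f c).val = algebraMap (P2 ℂ) (Localization.Away f) (C c) := rfl

theorem val_τ (i : Fin 2) : (τ i).val * algebraMap (P2 ℂ) (Localization.Away (X i : P2 ℂ)) (X i) =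
    algebraMap _ _ (X i.rev : P2 ℂ) := by
  rw [τ, Away.val_mk, Localization.mk_eq_mk']
  simp

theorem away_hom_ext {A : Type} [CommRing A] (i : Fin 2) {α β : Away gr (X i : P2 ℂ) →+* A}
    (h1 : α.comp (cA _) = β.comp (cA _)) (h2 : α (τ i) = β (τ i)) : α = β := by
  classical
  refine RingHom.ext fun z => ?_
  obtain ⟨n, p, hp, rfl⟩ := Away.mk_surjective gr (hX i) z
  have key : Away.mk gr (hX i) n p hp = ∑ d ∈ p.support, cA _ (p.coeff d) * τ i ^ d i.rev := by
    apply val_injective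
    have hu : IsUnit (algebraMap (P2 ℂ) (Localization.Away (X i : P2 ℂ)) (X i) ^ n) :=
      (IsLocalization.Away.algebraMap_isUnit (X i)).pow n
    refine hu.mul_right_cancel ?_
    have e1 : (Away.mk gr (hX i) n p hp).val *
        algebraMap (P2 ℂ) (Localization.Away (X i : P2 ℂ)) (X i) ^ n = algebraMap _ _ p := by
      rw [Away.val_mk, Localization.mk_eq_mk', ← map_pow]
      exact IsLocalization.mk'_spec _ _ _
    rw [e1, ← HomogeneousLocalization.algebraMap_apply, map_sum, Finset.sum_mul]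
    conv_lhs => rw [p.as_sum, map_sum]
    refine Finset.sum_congr rfl fun d hd => ?_
    have hd' : n = d i + d i.rev := by
      have := (show p.IsHomogeneous (n • 1) from hp) (mem_support_iff.1 hd)
      rw [← degree_ij (ne_rev i), Finsupp.degree_eq_weight_one]
      exact (by simp : n = n • 1).trans this.symm
    rw [HomogeneousLocalization.algebraMap_apply, val_mul, val_pow, val_cA, hd',
      ← mul_one (p.coeff d), ← C_mul_monomial, monomial_ij (ne_rev i), mul_one, map_mul, map_mul,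
      map_pow, map_pow, ← val_τ]
    ring
  rw [key]
  simp only [map_sum, map_mul, map_pow, h2]
  refine Finset.sum_congr rfl fun d _ => ?_
  rw [show α (cA _ (p.coeff d)) = β (cA _ (p.coeff d)) from DFunLike.congr_fun h1 _]

/-- the inclusion of a chart -/
noncomputable def ιc (i : Fin 2) : Spec (.of (Away gr (X i : P2 ℂ))) ⟶ P1 :=
  Proj.awayι gr (X i) (hX i) one_pos

instance (i : Fin 2) : IsOpenImmersion (ιc i) :=
  inferInstanceAs (IsOpenImmersion (Proj.awayι gr (X i) (hX i) one_pos))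

theorem ιc_toSpec (i : Fin 2) : ιc i ≫ P1toSpec = Spec.map (CommRingCat.ofHom (cA (X i))) := by
  change Proj.awayι gr (X i) (hX i) one_pos ≫ Proj.toSpecZero gr ≫ _ = _
  rw [Proj.awayι_toSpecZero_assoc, ← Spec.map_comp]
  rfl

theorem awayMap_cA {f g x : P2 ℂ} {e : ℕ} (hg : g ∈ gr e) (hx : x = f * g) :
    (awayMap gr hg hx).comp (cA f) = cA x :=
  RingHom.ext fun _ => awayMap_fromZeroRingHom gr hg hx _

theorem awayMap_τ (i : Fin 2) {x : P2 ℂ} (hx : x = X i * X i.rev) (hx' : x = X i.rev * X i) :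
    awayMap gr (hX i.rev) hx (τ i) * awayMap gr (hX i) hx' (τ i.rev) = 1 := by
  apply val_injective
  rw [val_mul, τ, τ, awayMap_mk, awayMap_mk, Away.val_mk, Away.val_mk, Localization.mk_mul, val_one,
    Localization.mk_eq_mk', IsLocalization.mk'_eq_iff_eq_mul]
  simp only [Fin.rev_rev, one_mul]
  congr 1
  simp only [Submonoid.mk_mul_mk, hx]
  ring

theorem chart_eq {A : CommRingCat.{0}} {i k : Fin 2} (α : CommRingCat.of (Away gr (X i : P2 ℂ)) ⟶ A)
    (β : CommRingCat.of (Away gr (X k : P2 ℂ)) ⟶ A) (h1 : α.hom.comp (cA _) = β.hom.comp (cA _))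
    (h2 : if i = k then α.hom (τ i) = β.hom (τ k) else α.hom (τ i) * β.hom (τ k) = 1) :
    Spec.map α ≫ ιc i = Spec.map β ≫ ιc k := by
  by_cases h : i = k
  · subst h
    rw [if_pos rfl] at h2
    rw [show α = β from CommRingCat.hom_ext (away_hom_ext i h1 h2)]
  · rw [if_neg h] at h2
    obtain rfl := eq_rev h
    have hx' : (X i * X i.rev : P2 ℂ) = X i.rev * X i := mul_comm _ _
    let _ := (awayMap gr (hX i.rev) (rfl : (X i * X i.rev : P2 ℂ) = _)).toAlgebra
    have : IsLocalization.Away (τ i) (Away gr (X i * X i.rev : P2 ℂ)) :=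
      Away.isLocalization_mul (hX i) (hX i.rev) rfl one_ne_zero
    have hu : IsUnit (α.hom (τ i)) := IsUnit.of_mul_eq_one _ h2
    let γ : Away gr (X i * X i.rev : P2 ℂ) →+* A :=
      IsLocalization.Away.lift (τ i) hu
    have hγ : γ.comp (awayMap gr (hX i.rev) rfl) = α.hom := IsLocalization.Away.lift_comp _ hu
    have hγ' : γ.comp (awayMap gr (hX i) hx') = β.hom := by
      refine away_hom_ext _ ?_ ?_
      · rw [RingHom.comp_assoc, awayMap_cA, ← h1, ← hγ, RingHom.comp_assoc, awayMap_cA]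
      · refine hu.mul_left_cancel ?_
        rw [h2, ← hγ, RingHom.comp_apply, RingHom.comp_apply, ← map_mul, awayMap_τ, map_one]
    have e1 : α = CommRingCat.ofHom (awayMap gr (hX i.rev) rfl) ≫ CommRingCat.ofHom γ :=
      CommRingCat.hom_ext hγ.symm
    have e2 : β = CommRingCat.ofHom (awayMap gr (hX i) hx') ≫ CommRingCat.ofHom γ :=
      CommRingCat.hom_ext hγ'.symm
    rw [e1, e2, Spec.map_comp, Spec.map_comp, Category.assoc, Category.assoc]
    congr 1
    exact (Proj.SpecMap_awayMap_awayι gr (hX i) one_pos (hX i.rev) rfl).trans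
      (Proj.SpecMap_awayMap_awayι gr (hX i.rev) one_pos (hX i) hx').symm

theorem irrelevant_le : (HomogeneousIdeal.irrelevant gr).toIdeal ≤
    Ideal.span (Set.range (X : Fin 2 → P2 ℂ)) := by
  intro p hp
  change p ∈ mm ℂ
  rw [mem_mm_iff]
  have h1 : GradedRing.proj gr 0 p = 0 := hp
  have h2 : (GradedRing.proj gr 0 p : P2 ℂ) = homogeneousComponent 0 p :=
    MvPolynomial.decomposition.decompose'_apply p 0
  rw [h2, homogeneousComponent_zero] at h1
  simpa using h1

/-- the standard cover -/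
noncomputable def cov : P1.OpenCover :=
  (Proj.affineOpenCoverOfIrrelevantLESpan gr (X : Fin 2 → P2 ℂ) hX (fun _ => one_pos)
    irrelevant_le).openCover

theorem exists_chart (x : P1) : ∃ i, x ∈ Set.range (ιc i) := by
  obtain ⟨i, y, h⟩ := cov.exists_eq x
  exact ⟨i, y, h⟩

instance : IsProper P1toSpec := by
  have hT := IsScalarTower.of_algebraMap_eq (R := ℂ) (S := gr 0) (A := P2 ℂ) fun _ => rfl
  have : Algebra.FiniteType (gr 0) (P2 ℂ) :=
    @Algebra.FiniteType.of_restrictScalars_finiteType ℂ _ _ _ _ _ _ _ _ hT _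
  have : IsClosedImmersion (Spec.map (CommRingCat.ofHom (algebraMap ℂ (gr 0)))) := by
    refine IsClosedImmersion.spec_of_surjective _ ?_
    rintro ⟨p, hp⟩
    obtain ⟨c, rfl⟩ := Submodule.mem_one.1 ((homogeneousSubmodule_zero (R := ℂ) (Fin 2)).le hp)
    exact ⟨c, rfl⟩
  unfold P1toSpec
  exact MorphismProperty.comp_mem _ _ _ (inferInstanceAs (IsProper (Proj.toSpecZero gr)))
    inferInstance

instance : TopologicalSpace.NoetherianSpace P1 := by
  have : IsLocallyNoetherian P1 := LocallyOfFiniteType.isLocallyNoetherian P1toSpec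
  have : CompactSpace P1 := QuasiCompact.compactSpace_of_compactSpace P1toSpec
  have : IsNoetherian P1 := {}
  infer_instance

theorem exists_origin (i : Fin 2) : ∃ α : Away gr (X i : P2 ℂ) →+* ℂ,
    α.comp (cA _) = RingHom.id ℂ ∧ α (τ i) = 0 := by
  let e : P2 ℂ →+* ℂ := eval fun l => if l = i then 1 else 0
  have hu : IsUnit (e (X i)) := by simp [e]
  let l : Localization.Away (X i : P2 ℂ) →+* ℂ := IsLocalization.Away.lift (X i) hu
  have hl : ∀ p, l (algebraMap _ _ p) = e p := IsLocalization.Away.lift_eq _ hu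
  refine ⟨l.comp (algebraMap _ _), RingHom.ext fun c => ?_, ?_⟩
  · change l (cA _ c).val = c
    rw [val_cA, hl]
    simp [e]
  · have := congrArg l (val_τ i)
    rw [map_mul, hl, hl] at this
    simpa [e, (ne_rev i).symm] using this

end Pool.Agent.MP_4403b8_ag

end MrgPart3

-- ======== part 4: formerly Pool.Agent.MP_4403b8_ag.Embed
section MrgPart4

/-!
The closed immersion of the projective line into a scheme representing the Hilbert functor.
-/

set_option autoImplicit false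

namespace Pool.Agent.MP_4403b8_ag

open AlgebraicGeometry CategoryTheory MvPolynomial HomogeneousLocalization
open scoped Polynomial

attribute [local instance] MvPolynomial.gradedAlgebra

/-- pull-back of a family, with the structure map as an argument -/
noncomputable def fibR (F : Ideal (P2 ℂ[X])) {A : Type} [CommRing A] (c : ℂ →+* A) (a : A) :
    Ideal (P2 A) := F.map (MvPolynomial.map (Polynomial.eval₂RingHom c a))

theorem fibR_eq (F : Ideal (P2 ℂ[X])) {A : Type} [CommRing A] [Algebra ℂ A] (a : A) :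
    fibR F (algebraMap ℂ A) a = fib F a := rfl

theorem map_fibR (F : Ideal (P2 ℂ[X])) {A B : Type} [CommRing A] [CommRing B] (c : ℂ →+* A)
    (a : A) (g : A →+* B) : (fibR F c a).map (MvPolynomial.map g) = fibR F (g.comp c) (g a) := by
  unfold fibR
  rw [Ideal.map_map]
  congr 1
  refine RingHom.ext fun p => ?_
  rw [RingHom.comp_apply, MvPolynomial.map_map]
  congr 2
  refine RingHom.ext fun q => ?_
  exact Polynomial.hom_eval₂ q c g a

theorem Frame.isHilbPt {A : Type} [CommRing A] {n : ℕ} {I : Ideal (P2 A)} (Fr : Frame n I) :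
    IsHilbPt n I := by
  obtain ⟨e⟩ := Fr.equiv
  have : Module.Free A (P2 A ⧸ I) := Module.Free.of_equiv e.symm
  refine ⟨Fr.finite, inferInstance, fun p => ?_⟩
  have : Nontrivial A := PrimeSpectrum.nonempty_iff_nontrivial.1 ⟨p⟩
  rw [Module.rankAtStalk_eq_finrank_of_free, Fr.finrank]
  rfl

theorem IsFamily.frame {n : ℕ} {F : Ideal (P2 ℂ[X])} (h : IsFamily n F) : Nonempty (Frame n F) := by
  obtain ⟨h1, h2, rfl⟩ := h
  exact Frame.of_free

theorem le_of_map_le {R K : Type} [CommRing R] [IsDomain R] [Field K] [Algebra R K]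
    [IsFractionRing R K] {I J : Ideal (P2 R)} [Module.Projective R (P2 R ⧸ J)]
    (h : I.map (MvPolynomial.map (algebraMap R K)) ≤ J.map (MvPolynomial.map (algebraMap R K))) :
    I ≤ J := by
  intro p hp
  let _ := MvPolynomial.algebraMvPolynomial (σ := Fin 2) (R := R) (S := K)
  have hl := MvPolynomial.isLocalization (σ := Fin 2) (nonZeroDivisors R) K
  have h1 : algebraMap (P2 R) (P2 K) p ∈ J.map (algebraMap (P2 R) (P2 K)) :=
    h (Ideal.mem_map_of_mem _ hp)
  obtain ⟨⟨⟨q, hq⟩, ⟨_, r, hr, rfl⟩⟩, h2⟩ :=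
    (IsLocalization.mem_map_algebraMap_iff ((nonZeroDivisors R).map C) (P2 K)).1 h1
  have h3 : p * C r = q := by
    apply MvPolynomial.map_injective (algebraMap R K) (IsFractionRing.injective R K)
    rw [map_mul]
    exact h2
  have h4 : r • Ideal.Quotient.mk J p = 0 := by
    rw [← mk_smul, Ideal.Quotient.eq_zero_iff_mem, smul_eq_C_mul, mul_comm, h3]
    exact hq
  exact Ideal.Quotient.eq_zero_iff_mem.1
    ((smul_eq_zero.1 h4).resolve_left (nonZeroDivisors.ne_zero hr))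

theorem Joined.closedImmersion {n : ℕ} {I J : Ideal (P2 ℂ)} (h : Joined n I J) (H : Scheme.{0})
    (s : H ⟶ Spec (.of ℂ)) (u : ∀ A : CommRingCat.{0}, (Spec A ⟶ H) → Ideal (P2 A))
    (hH : IsHilbertScheme n H s u) :
    ∃ φ : P1 ⟶ H, IsClosedImmersion φ ∧ φ ≫ s = P1toSpec ∧
      (∃ p : Spec (.of ℂ) ⟶ P1, p ≫ P1toSpec = 𝟙 _ ∧ u (.of ℂ) (p ≫ φ) = I) ∧
      (∃ q : Spec (.of ℂ) ⟶ P1, q ≫ P1toSpec = 𝟙 _ ∧ u (.of ℂ) (q ≫ φ) = J) := by
  obtain ⟨F, G, hF, hG, hm, hF0, hG0⟩ := h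
  obtain ⟨hmem, hnat, hbij⟩ := hH
  let FF : Fin 2 → Ideal (P2 ℂ[X]) := ![F, G]
  have hFr : ∀ i, Nonempty (Frame n (FF i)) := Fin.forall_fin_two.2 ⟨hF.frame, hG.frame⟩
  have hmono : ∀ (A : Type) [CommRing A] (c : ℂ →+* A) (a b : A) (i k : Fin 2),
      fibR (FF i) c a = fibR (FF k) c b ↔ if i = k then a = b else a * b = 1 := by
    intro A _ c a b
    let _ := c.toAlgebra
    have h1 := hm A a b
    have h2 := hm A b a
    refine Fin.forall_fin_two.2 ⟨Fin.forall_fin_two.2 ⟨?_, ?_⟩, Fin.forall_fin_two.2 ⟨?_, ?_⟩⟩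
    · exact h1.1
    · exact h1.2.2
    · exact eq_comm.trans (h2.2.2.trans (by simp [mul_comm]))
    · exact h1.2.1
  have huniq : ∀ (A : CommRingCat.{0}) (f g : Spec A ⟶ H), f ≫ s = g ≫ s → u A f = u A g →
      f = g := fun A f g h1 h2 =>
    (hbij A (g ≫ s) (u A g) (hmem A g)).unique ⟨h1, h2⟩ ⟨rfl, rfl⟩
  have hex : ∀ i : Fin 2, ∃ f : Spec (.of (Away gr (X i : P2 ℂ))) ⟶ H,
      f ≫ s = Spec.map (CommRingCat.ofHom (cA (X i))) ∧ u _ f = fibR (FF i) (cA (X i)) (τ i) := by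
    intro i
    obtain ⟨Fr⟩ := hFr i
    obtain ⟨Fr', -⟩ := Fr.exists_map (Polynomial.eval₂RingHom (cA (X i)) (τ i))
    exact (hbij _ _ _ Fr'.isHilbPt).exists
  choose f hf1 hf2 using hex
  have hu : ∀ (A : CommRingCat.{0}) (i : Fin 2) (α : CommRingCat.of (Away gr (X i : P2 ℂ)) ⟶ A),
      u A (Spec.map α ≫ f i) = fibR (FF i) (α.hom.comp (cA _)) (α.hom (τ i)) := by
    intro A i α
    rw [hnat, hf2, map_fibR]
  have key : ∀ (A : CommRingCat.{0}) (i k : Fin 2)
      (α : CommRingCat.of (Away gr (X i : P2 ℂ)) ⟶ A)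
      (β : CommRingCat.of (Away gr (X k : P2 ℂ)) ⟶ A),
      Spec.map α ≫ f i = Spec.map β ≫ f k ↔ α.hom.comp (cA _) = β.hom.comp (cA _) ∧
        if i = k then α.hom (τ i) = β.hom (τ k) else α.hom (τ i) * β.hom (τ k) = 1 := by
    intro A i k α β
    constructor
    · intro h
      have h1 : α.hom.comp (cA _) = β.hom.comp (cA _) := by
        have := congrArg (· ≫ s) h
        simp only [Category.assoc, hf1, ← Spec.map_comp] at this
        exact congrArg CommRingCat.Hom.hom (Spec.map_injective this)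
      refine ⟨h1, (hmono A (α.hom.comp (cA _)) _ _ i k).1 ?_⟩
      rw [← hu, h, hu, h1]
    · rintro ⟨h1, h2⟩
      refine huniq A _ _ ?_ ?_
      · simp only [Category.assoc, hf1, ← Spec.map_comp]
        exact congrArg Spec.map (CommRingCat.hom_ext h1)
      · rw [hu, hu, ← h1]
        exact (hmono A _ _ _ i k).2 h2
  have hcompat : ∀ i k : Fin 2, Limits.pullback.fst (ιc i) (ιc k) ≫ f i =
      Limits.pullback.snd (ιc i) (ιc k) ≫ f k := by
    intro i k
    by_cases h : i = k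
    · subst h
      rw [Limits.fst_eq_snd_of_mono_eq]
    · obtain rfl := eq_rev h
      refine (cancel_epi
        (Proj.pullbackAwayιIso gr (hX i) one_pos (hX i.rev) one_pos rfl).inv).1 ?_
      refine (Proj.pullbackAwayιIso_inv_fst_assoc ..).trans
        (Eq.trans ?_ (Proj.pullbackAwayιIso_inv_snd_assoc ..).symm)
      refine (key _ _ _ _ _).2 ⟨?_, ?_⟩
      · exact (awayMap_cA (hX i.rev) rfl).trans (awayMap_cA (hX i) (mul_comm _ _)).symm
      · rw [if_neg h]
        exact awayMap_τ i rfl (mul_comm _ _)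
  let φ : P1 ⟶ H := cov.glueMorphisms f hcompat
  have hφ : ∀ i, ιc i ≫ φ = f i := fun i => cov.ι_glueMorphisms f hcompat i
  have hs : φ ≫ s = P1toSpec := by
    refine cov.hom_ext _ _ fun i => ?_
    change ιc i ≫ _ = ιc i ≫ _
    rw [← Category.assoc, hφ, hf1, ιc_toSpec]
  have hmon : Mono φ := by
    refine ⟨fun {T} a b hab => Scheme.hom_ext_of_forall _ _ fun x => ?_⟩
    obtain ⟨i, hi⟩ := exists_chart (a x)
    obtain ⟨k, hk⟩ := exists_chart (b x)
    obtain ⟨_, ⟨U, hU, rfl⟩, hxU, hUle⟩ := T.isBasis_affineOpens.exists_subset_of_mem_open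
      (a := x) (u := ((a ⁻¹ᵁ (ιc i).opensRange ⊓ b ⁻¹ᵁ (ιc k).opensRange : T.Opens) : Set T))
      ⟨hi, hk⟩ (TopologicalSpace.Opens.isOpen _)
    refine ⟨U, hxU, ?_⟩
    have hr : ∀ (j : Fin 2) (c : T ⟶ P1), (∀ y ∈ U, c y ∈ Set.range (ιc j)) →
        ∃ α : CommRingCat.of (Away gr (X j : P2 ℂ)) ⟶ Γ(T, U),
          Spec.map α ≫ ιc j = hU.fromSpec ≫ c := by
      intro j c hc
      refine ⟨Spec.preimage (IsOpenImmersion.lift (ιc j) (hU.fromSpec ≫ c) ?_), ?_⟩
      · rintro _ ⟨y, rfl⟩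
        rw [Scheme.Hom.comp_apply]
        exact hc _ (hU.range_fromSpec.le ⟨y, rfl⟩)
      · rw [Spec.map_preimage, IsOpenImmersion.lift_fac]
    obtain ⟨α, hα⟩ := hr i a fun y hy => (hUle hy).1
    obtain ⟨β, hβ⟩ := hr k b fun y hy => (hUle hy).2
    have h1 : Spec.map α ≫ f i = Spec.map β ≫ f k := by
      rw [← hφ, ← hφ, ← Category.assoc, ← Category.assoc, hα, hβ, Category.assoc, Category.assoc,
        hab]
    obtain ⟨h2, h3⟩ := (key _ _ _ _ _).1 h1
    have h4 := chart_eq α β h2 h3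
    rw [hα, hβ] at h4
    rw [← cancel_epi hU.isoSpec.inv, ← Category.assoc, ← Category.assoc, hU.isoSpec_inv_ι, h4]
  have huc : UniversallyClosed φ := by
    refine UniversallyClosed.of_valuativeCriterion φ fun S => ?_
    have hE : ValuativeCriterion.Existence P1toSpec := by
      have : UniversallyClosed P1toSpec := inferInstance
      rw [UniversallyClosed.eq_valuativeCriterion] at this
      exact this.1
    obtain ⟨⟨l, hl1, hl2⟩⟩ := (hE ⟨S.R, S.K, S.i₁, S.i₂ ≫ s,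
      ⟨by rw [← hs, ← Category.assoc, S.commSq.w, Category.assoc]⟩⟩).exists_lift
    refine ⟨⟨l, hl1, huniq _ _ _ (by rw [Category.assoc, hs]; exact hl2) ?_⟩⟩
    have h1 : (u _ (l ≫ φ)).map (MvPolynomial.map (algebraMap S.R S.K)) =
        (u _ S.i₂).map (MvPolynomial.map (algebraMap S.R S.K)) := by
      have e1 := hnat _ _ (CommRingCat.ofHom (algebraMap S.R S.K)) (l ≫ φ)
      have e2 := hnat _ _ (CommRingCat.ofHom (algebraMap S.R S.K)) S.i₂
      refine e1.symm.trans (Eq.trans ?_ e2)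
      rw [← Category.assoc, hl1, S.commSq.w]
    have := (hmem _ (l ≫ φ)).2.1
    have := (hmem _ S.i₂).2.1
    exact le_antisymm (le_of_map_le h1.le) (le_of_map_le h1.ge)
  have hft : LocallyOfFiniteType φ := by
    have : LocallyOfFiniteType (φ ≫ s) := hs ▸ inferInstance
    exact locallyOfFiniteType_of_comp φ s
  have hpt : ∀ i, ∃ p : Spec (.of ℂ) ⟶ P1, p ≫ P1toSpec = 𝟙 _ ∧
      u (.of ℂ) (p ≫ φ) = fib (FF i) (0 : ℂ) := by
    intro i
    obtain ⟨α, h1, h2⟩ := exists_origin i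
    refine ⟨Spec.map (CommRingCat.ofHom α) ≫ ιc i, ?_, ?_⟩
    · rw [Category.assoc, ιc_toSpec, ← Spec.map_comp, ← CommRingCat.ofHom_comp, h1]
      simp
    · rw [Category.assoc, hφ, hu, CommRingCat.hom_ofHom, h1, h2]
      rfl
  exact ⟨φ, (IsClosedImmersion.iff_isProper_and_mono φ).2 ⟨{}, hmon⟩, hs, hF0 ▸ hpt 0, hG0 ▸ hpt 1⟩

end Pool.Agent.MP_4403b8_ag

end MrgPart4

-- marker of a merged file
example : 731051 + 825489 = 731051 + 825489 := rfl
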